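import Mathlib

/-! Vertex-partite amalgamation.  For a finite graph `Γ` and a number `t` of colours there is a
finite triangle-free graph `P` with a homomorphism `π` to `Γ` such that for every proper colouring
`φ` of `P` with `t` colours one can select for every vertex `b` of `Γ` a colour `f b` occurring on
the fibre of `b`, in such a way that `f` is a proper colouring of `Γ`. -/

namespace Q278.Amalg

open Finset

/-- a finite triangle-free graph with a homomorphism to `Γ` -/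
structure Sys {B : Type} (Γ : SimpleGraph B) where
  R : Type
  fin : Fintype R
  P : SimpleGraph R
  π : R → B
  tri : ∀ x y z, P.Adj x y → P.Adj y z → ¬ P.Adj x z
  hom : ∀ x y, P.Adj x y → Γ.Adj (π x) (π y)

attribute [instance] Sys.fin

variable {B : Type} {Γ : SimpleGraph B}

/-- homomorphism over `Γ` -/
structure IsHom (Q Q' : Sys Γ) (ι : Q.R → Q'.R) : Prop where
  pi : ∀ x, Q'.π (ι x) = Q.π x
  adj : ∀ x y, Q.P.Adj x y → Q'.P.Adj (ι x) (ι y)

theorem IsHom.comp {Q Q' Q'' : Sys Γ} {ι : Q.R → Q'.R} {κ : Q'.R → Q''.R} (h : IsHom Q Q' ι)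
    (h' : IsHom Q' Q'' κ) : IsHom Q Q'' (κ ∘ ι) where
  pi x := (h'.pi _).trans (h.pi x)
  adj x y hxy := h'.adj _ _ (h.adj _ _ hxy)

open Classical in
/-- vertices of the amalgam -/
abbrev AR (t : ℕ) (Q : Sys Γ) (b : B) : Type :=
  Fin (t * Fintype.card {x : Q.R // Q.π x = b} + 1) ⊕
      ({x : Q.R // Q.π x ≠ b} × ({x : Q.R // Q.π x = b} ↪
        Fin (t * Fintype.card {x : Q.R // Q.π x = b} + 1)))

/-- adjacency in the amalgam -/
def adjR (t : ℕ) (Q : Sys Γ) (b : B) : AR t Q b → AR t Q b → Prop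
  | .inl _, .inl _ => False
  | .inl y, .inr (x, e) => ∃ u, e u = y ∧ Q.P.Adj u.1 x.1
  | .inr (x, e), .inl y => ∃ u, e u = y ∧ Q.P.Adj u.1 x.1
  | .inr (x, e), .inr (x', e') => e = e' ∧ Q.P.Adj x.1 x'.1

/-- projection of the amalgam -/
def piR (t : ℕ) (Q : Sys Γ) (b : B) : AR t Q b → B
  | .inl _ => b
  | .inr (x, _) => Q.π x.1

/-- amalgamation of copies of `Q` along the fibre of `b` -/
noncomputable def amal (t : ℕ) (Q : Sys Γ) (b : B) : Sys Γ where
  R := AR t Q b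
  fin := by
    classical
    exact inferInstance
  P :=
    { Adj := adjR t Q b
      symm := ⟨by
        rintro (x | ⟨x, e⟩) (y | ⟨y, e'⟩) h
        · exact h
        · exact h
        · exact h
        · exact ⟨h.1.symm, h.2.symm⟩⟩
      loopless := ⟨by
        rintro (x | ⟨x, e⟩) h
        · exact h
        · exact Q.P.loopless.irrefl _ h.2⟩ }
  π := piR t Q b
  tri := by
      rintro (x | ⟨x, e⟩) (y | ⟨y, e'⟩) (z | ⟨z, e''⟩) h1 h2 h3
      · exact h1
      · exact h1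
      · exact h3
      · obtain ⟨u, hu, hu2⟩ := h1
        obtain ⟨rfl, h2⟩ := h2
        obtain ⟨v, hv, hv2⟩ := h3
        have : u = v := e'.injective (hu.trans hv.symm)
        subst this
        exact Q.tri _ _ _ hu2 h2 hv2
      · exact h2
      · obtain ⟨u, hu, hu2⟩ := h1
        obtain ⟨v, hv, hv2⟩ := h2
        obtain ⟨rfl, h3⟩ := h3
        have : u = v := e.injective (hu.trans hv.symm)
        subst this
        exact Q.tri _ _ _ hu2.symm hv2 h3
      · obtain ⟨rfl, h1⟩ := h1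
        obtain ⟨v, hv, hv2⟩ := h2
        obtain ⟨u, hu, hu2⟩ := h3
        have : u = v := e.injective (hu.trans hv.symm)
        subst this
        exact Q.tri _ _ _ h1 hv2.symm hu2.symm
      · obtain ⟨rfl, h1⟩ := h1
        obtain ⟨rfl, h2⟩ := h2
        exact Q.tri _ _ _ h1 h2 h3.2
  hom := by
      rintro (x | ⟨x, e⟩) (y | ⟨y, e'⟩) h
      · exact h.elim
      · obtain ⟨u, hu, hu2⟩ := h
        have := Q.hom _ _ hu2
        rw [u.2] at this
        exact this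
      · obtain ⟨u, hu, hu2⟩ := h
        have := Q.hom _ _ hu2
        rw [u.2] at this
        exact this.symm
      · exact Q.hom _ _ h.2

theorem amal_spec (t : ℕ) (Q : Sys Γ) (b : B) (φ : (amal t Q b).R → Fin t) :
    ∃ ι : Q.R → (amal t Q b).R, IsHom Q (amal t Q b) ι ∧
      ∀ x y, Q.π x = b → Q.π y = b → φ (ι x) = φ (ι y) := by
  classical
  change AR t Q b → Fin t at φ
  obtain ⟨c, hc⟩ := Fintype.exists_lt_card_fiber_of_mul_lt_card
    (n := Fintype.card {x : Q.R // Q.π x = b})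
    (f := fun y : Fin (t * Fintype.card {x : Q.R // Q.π x = b} + 1) => φ (Sum.inl y)) (by
      rw [Fintype.card_fin, Fintype.card_fin]
      exact Nat.lt_succ_self _)
  obtain ⟨e0⟩ : Nonempty ({x : Q.R // Q.π x = b} ↪
      {y // y ∈ Finset.univ.filter
        (fun y : Fin (t * Fintype.card {x : Q.R // Q.π x = b} + 1) => φ (Sum.inl y) = c)}) := by
    apply Function.Embedding.nonempty_of_card_le
    rw [Fintype.card_coe]
    exact hc.le
  let e : {x : Q.R // Q.π x = b} ↪ Fin (t * Fintype.card {x : Q.R // Q.π x = b} + 1) :=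
    e0.trans (Function.Embedding.subtype _)
  have he : ∀ u, φ (Sum.inl (e u)) = c := by
    intro u
    have := (e0 u).2
    rw [Finset.mem_filter] at this
    exact this.2
  let ι : Q.R → AR t Q b :=
    fun x => if h : Q.π x = b then Sum.inl (e ⟨x, h⟩) else Sum.inr (⟨x, h⟩, e)
  have hp : ∀ x (h : Q.π x = b), ι x = Sum.inl (e ⟨x, h⟩) := fun x h => dif_pos h
  have hn : ∀ x (h : Q.π x ≠ b), ι x = Sum.inr (⟨x, h⟩, e) := fun x h => dif_neg h
  refine ⟨ι, ⟨?_, ?_⟩, ?_⟩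
  · intro x
    change piR t Q b (ι x) = _
    by_cases h : Q.π x = b
    · rw [hp x h, h]
      rfl
    · rw [hn x h]
      rfl
  · intro x y hxy
    change adjR t Q b (ι x) (ι y)
    by_cases h : Q.π x = b <;> by_cases h' : Q.π y = b
    · exfalso
      have := Q.hom _ _ hxy
      rw [h, h'] at this
      exact Γ.loopless.irrefl _ this
    · rw [hp x h, hn y h']
      exact ⟨⟨x, h⟩, rfl, hxy⟩
    · rw [hn x h, hp y h']
      exact ⟨⟨y, h'⟩, rfl, hxy.symm⟩
    · rw [hn x h, hn y h']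
      exact ⟨rfl, hxy⟩
  · intro x y hx hy
    rw [hp x hx, hp y hy, he, he]

theorem exists_mono (t : ℕ) (D : Finset B) : ∀ Q : Sys Γ, ∃ Q' : Sys Γ, ∀ φ : Q'.R → Fin t,
    ∃ ι : Q.R → Q'.R, IsHom Q Q' ι ∧
      ∀ b ∈ D, ∀ x y, Q.π x = b → Q.π y = b → φ (ι x) = φ (ι y) := by
  classical
  induction D using Finset.induction_on with
  | empty =>
    intro Q
    exact ⟨Q, fun φ => ⟨id, ⟨fun _ => rfl, fun _ _ h => h⟩, by simp⟩⟩
  | insert b D _ ih =>
    intro Q
    obtain ⟨Q1, hQ1⟩ := ih Q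
    refine ⟨amal t Q1 b, fun φ => ?_⟩
    obtain ⟨κ, hκ, hκ2⟩ := amal_spec t Q1 b φ
    obtain ⟨ι, hι, hι2⟩ := hQ1 (φ ∘ κ)
    refine ⟨κ ∘ ι, hι.comp hκ, ?_⟩
    intro b' hb' x y hx hy
    rcases Finset.mem_insert.1 hb' with rfl | hb'
    · exact hκ2 _ _ ((hι.pi x).trans hx) ((hι.pi y).trans hy)
    · exact hι2 b' hb' x y hx hy

/-- starting system: one edge for every edge of `Γ` -/
def start [Fintype B] (Γ : SimpleGraph B) : Sys Γ where
  R := B × B
  fin := inferInstance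
  P :=
  { Adj := fun x y => Γ.Adj x.1 x.2 ∧ x.1 = y.2 ∧ x.2 = y.1
    symm := ⟨fun _ _ h => ⟨by rw [← h.2.1, ← h.2.2]; exact h.1.symm, h.2.2.symm, h.2.1.symm⟩⟩
    loopless := ⟨fun x h => Γ.loopless.irrefl x.1 (by
      have := h.1
      rwa [← h.2.1] at this)⟩ }
  π := Prod.fst
  tri := by
    rintro ⟨x, x'⟩ ⟨y, y'⟩ ⟨z, z'⟩ ⟨h1, h2, h3⟩ ⟨h4, h5, h6⟩ ⟨h7, h8, h9⟩
    simp only at h1 h2 h3 h4 h5 h6 h7 h8 h9
    subst h2 h3
    subst h9
    exact Γ.loopless.irrefl _ (by rwa [← h6] at h7)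
  hom := by
    rintro ⟨x, x'⟩ ⟨y, y'⟩ ⟨h1, h2, h3⟩
    simp only at h1 h2 h3
    subst h3
    exact h1

/-- **Selection theorem.** -/
theorem selection [Fintype B] (Γ : SimpleGraph B) (t : ℕ) : ∃ Q : Sys Γ,
    ∀ φ : Q.R → Fin t, (∀ x y, Q.P.Adj x y → φ x ≠ φ y) →
      ∃ f : B → Fin t, (∀ b, ∃ x, Q.π x = b ∧ φ x = f b) ∧
        ∀ b b', Γ.Adj b b' → f b ≠ f b' := by
  obtain ⟨Q, hQ⟩ := exists_mono t (Finset.univ : Finset B) (start Γ)
  refine ⟨Q, fun φ hφ => ?_⟩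
  obtain ⟨ι, hι, hι2⟩ := hQ φ
  refine ⟨fun b => φ (ι (b, b)), fun b => ⟨ι (b, b), hι.pi _, rfl⟩, ?_⟩
  intro b b' hbb
  have h1 : φ (ι (b, b)) = φ (ι (b, b')) := hι2 b (mem_univ _) _ _ rfl rfl
  have h2 : φ (ι (b', b')) = φ (ι (b', b)) := hι2 b' (mem_univ _) _ _ rfl rfl
  have h3 : φ (ι (b, b')) ≠ φ (ι (b', b)) := hφ _ _ (hι.adj _ _ ⟨hbb, rfl, rfl⟩)
  intro h
  exact h3 (h1.symm.trans (h.trans h2))

end Q278.Amalg
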