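import Pool.Agent.Q278.E8Graph

/-! At most nine pairwise non-adjacent vertices, hence chromatic number at least 14. -/

namespace Q278.E8

open Finset Matrix

/-- the all-ones matrix minus the identity over `ZMod 2` -/
def JI : Matrix (Fin 10) (Fin 10) (ZMod 2) := fun i j => if i = j then 0 else 1

theorem JI_sq : JI * JI = 1 := by
  decide +kernel

theorem no_ten (f : Fin 10 → Fin 120) (hf : Function.Injective f)
    (h : ∀ i j, ¬ G.Adj (f i) (f j)) : False := by
  -- entries
  have hent : ∀ i j, ∃ g : ℤ, dot (root (f i)) (root (f j)) = 4 * g ∧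
      ((g : ZMod 2) = JI i j) := by
    intro i j
    by_cases hij : i = j
    · subst hij
      refine ⟨2, by rw [dot_self]; norm_num, ?_⟩
      simp only [JI, if_true]
      decide
    · have hne : f i ≠ f j := fun h => hij (hf h)
      have h1 : (row (f i).1).testBit (f j).1 = false := by
        have := h i j
        rw [adj_iff, Bool.not_eq_true] at this
        exact this
      rcases dot_nadj hne h1 with h2 | h2
      · refine ⟨1, by rw [h2]; norm_num, ?_⟩
        simp only [JI, if_neg hij]
        decide
      · refine ⟨-1, by rw [h2]; norm_num, ?_⟩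
        simp only [JI, if_neg hij]
        decide
  choose g hg1 hg2 using hent
  let M : Matrix (Fin 10) (Fin 10) ℤ := fun i k => if hk : k.1 < 8 then root (f i) ⟨k.1, hk⟩ else 0
  have hM : M.det = 0 := by
    apply Matrix.det_eq_zero_of_column_eq_zero 9
    intro i
    simp only [M]
    rw [dif_neg (by decide)]
  have hprod : M * Mᵀ = (4 : ℤ) • (Matrix.of g : Matrix (Fin 10) (Fin 10) ℤ) := by
    ext i j
    rw [Matrix.mul_apply]
    simp only [Matrix.transpose_apply, Matrix.smul_apply, Matrix.of_apply, smul_eq_mul]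
    rw [← hg1 i j]
    rw [Fin.sum_univ_castSucc, Fin.sum_univ_castSucc]
    have hM8 : ∀ i, M i (Fin.castSucc (Fin.last 8)) = 0 := fun i => dif_neg (by decide)
    have hM9 : ∀ i, M i (Fin.last 9) = 0 := fun i => dif_neg (by decide)
    rw [hM8, hM9]
    simp only [M, dot, zero_mul, add_zero]
    refine Finset.sum_congr rfl fun k _ => ?_
    have hk : (k.castSucc.castSucc : Fin 10).1 < 8 := k.2
    rw [dif_pos hk, dif_pos hk]
    rfl
  have hdet : (Matrix.of g : Matrix (Fin 10) (Fin 10) ℤ).det = 0 := by
    have h1 : (M * Mᵀ).det = 0 := by rw [Matrix.det_mul, hM, zero_mul]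
    rw [hprod, Matrix.det_smul] at h1
    rcases mul_eq_zero.1 h1 with h2 | h2
    · norm_num at h2
    · exact h2
  have hmap : (Int.castRingHom (ZMod 2)).mapMatrix (Matrix.of g) = JI := by
    ext i j
    simp only [RingHom.mapMatrix_apply, Matrix.map_apply, Matrix.of_apply]
    exact hg2 i j
  have h0 : JI.det = 0 := by
    rw [← hmap, ← RingHom.map_det, hdet, map_zero]
  have h1 := congrArg Matrix.det JI_sq
  rw [Matrix.det_mul, h0, Matrix.det_one, zero_mul] at h1
  exact zero_ne_one h1

theorem not_colorable : ¬ G.Colorable 13 := by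
  rintro ⟨C⟩
  obtain ⟨c, hc⟩ := Fintype.exists_lt_card_fiber_of_mul_lt_card (n := 9) (f := fun v => C v)
    (by simp)
  obtain ⟨t, ht, htc⟩ := Finset.exists_subset_card_eq (Nat.succ_le_of_lt hc)
  let e := (t.equivFinOfCardEq htc).symm
  refine no_ten (fun i => (e i).1) ?_ ?_
  · intro i j hij
    exact e.injective (Subtype.ext hij)
  · intro i j hadj
    have hi := ht (e i).2
    have hj := ht (e j).2
    simp only [Finset.mem_filter, Finset.mem_univ, true_and] at hi hj
    exact C.valid hadj (hi.trans hj.symm)

theorem chi_ge : (14 : ℕ∞) ≤ G.chromaticNumber := by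
  by_contra h
  rw [not_le] at h
  have h1 : G.chromaticNumber ≤ ((13 : ℕ) : ℕ∞) := by
    have : G.chromaticNumber < ((13 : ℕ) : ℕ∞) + 1 := by
      refine lt_of_lt_of_eq h ?_
      norm_num
    exact ENat.lt_natCast_add_one_iff.1 this
  exact not_colorable (SimpleGraph.chromaticNumber_le_iff_colorable.1 h1)

end Q278.E8
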