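import Pool.Agent.Q278.E8Data

/-! The graph, its parameters, its independence number bound and the quantum 8-colouring. -/

namespace Q278.E8

open Finset Matrix

/-- root number `i` (entries `±1`, or two entries `±2`) -/
def root (i : Fin 120) (j : Fin 8) : ℤ := (ent i.1 j.1 : ℤ) - 2

/-- inner product -/
def dot (u v : Fin 8 → ℤ) : ℤ := ∑ k, u k * v k

theorem dot_comm (u v : Fin 8 → ℤ) : dot u v = dot v u := by
  unfold dot
  exact Finset.sum_congr rfl fun k _ => mul_comm _ _

theorem dot_root (i j : Fin 120) :
    dot (root i) (root j) = (sAB i.1 j.1 : ℤ) + 32 - 2 * ((sA i.1 : ℤ) + sA j.1) := by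
  simp only [dot, root, Fin.sum_univ_eight, sAB, sA]
  push_cast
  simp
  ring

theorem dot_self (i : Fin 120) : dot (root i) (root i) = 8 := by
  have h := chk_all i i
  rw [dot_root]
  simp only [chk, if_true, Bool.and_eq_true, decide_eq_true_eq] at h
  have := h.1
  omega

theorem dot_adj {i j : Fin 120} (hij : i ≠ j) (h : (row i.1).testBit j.1 = true) :
    dot (root i) (root j) = 0 := by
  have h1 := chk_all i j
  have hne : i.1 ≠ j.1 := fun h => hij (Fin.ext h)
  rw [dot_root]
  simp only [chk, if_neg hne, h, if_true, decide_eq_true_eq] at h1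
  omega

theorem dot_nadj {i j : Fin 120} (hij : i ≠ j) (h : (row i.1).testBit j.1 = false) :
    dot (root i) (root j) = 4 ∨ dot (root i) (root j) = -4 := by
  have h1 := chk_all i j
  have hne : i.1 ≠ j.1 := fun h => hij (Fin.ext h)
  rw [dot_root]
  simp only [chk, if_neg hne, h, Bool.false_eq_true, if_false, Bool.or_eq_true,
    decide_eq_true_eq] at h1
  omega

theorem testBit_self (i : Fin 120) : (row i.1).testBit i.1 = false := by
  have h := chk_all i i
  simp only [chk, if_true, Bool.and_eq_true, decide_eq_true_eq, Bool.not_eq_true'] at h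
  exact h.2

/-- the orthogonality graph of the 120 lines spanned by the roots of `E8` -/
def G : SimpleGraph (Fin 120) where
  Adj i j := i ≠ j ∧ dot (root i) (root j) = 0
  symm := ⟨fun i j h => ⟨h.1.symm, by rw [dot_comm]; exact h.2⟩⟩
  loopless := ⟨fun i h => h.1 rfl⟩

theorem adj_iff (i j : Fin 120) : G.Adj i j ↔ (row i.1).testBit j.1 = true := by
  constructor
  · rintro ⟨h1, h2⟩
    by_contra h
    rw [Bool.not_eq_true] at h
    rcases dot_nadj h1 h with h3 | h3 <;> omega
  · intro h
    have hne : i ≠ j := by
      rintro rfl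
      rw [testBit_self] at h
      exact Bool.false_ne_true h
    exact ⟨hne, dot_adj hne h⟩

instance : DecidableRel G.Adj := fun i j => decidable_of_iff _ (adj_iff i j).symm

/-- number of ones among the last `n` binary digits -/
def pc1 : Nat → Nat → Nat
  | 0, _ => 0
  | n + 1, x => x % 2 + pc1 n (x / 2)

theorem card_testBit (n x : ℕ) :
    (Finset.univ.filter (fun k : Fin n => x.testBit k.1 = true)).card = pc1 n x := by
  induction n generalizing x with
  | zero => simp [pc1]
  | succ n ih =>
    rw [Finset.card_filter, Fin.sum_univ_succ, pc1, ← ih (x / 2), Finset.card_filter]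
    congr 1
    · simp only [Fin.val_zero, Nat.testBit_zero]
      rcases Nat.mod_two_eq_zero_or_one x with h | h <;> simp [h]
    · refine Finset.sum_congr rfl fun k _ => ?_
      simp [Nat.testBit_succ]

theorem pop4_eq (x : ℕ) :
    pop4 x = x % 2 + (x / 2 % 2 + (x / 2 / 2 % 2 + (x / 2 / 2 / 2 % 2))) := by
  have h : ∀ y < 16, pop4 y = y % 2 + (y / 2 % 2 + (y / 2 / 2 % 2 + (y / 2 / 2 / 2 % 2))) := by
    decide
  have h1 : pop4 x = pop4 (x % 16) := by simp [pop4]
  rw [h1, h _ (Nat.mod_lt _ (by norm_num))]
  omega

theorem pc4_eq (n x : ℕ) : pc4 n x = pc1 (4 * n) x := by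
  induction n generalizing x with
  | zero => simp [pc4, pc1]
  | succ n ih =>
    rw [pc4, ih, pop4_eq, show 4 * (n + 1) = 4 * n + 1 + 1 + 1 + 1 by ring]
    simp only [pc1]
    rw [show x / 2 / 2 / 2 / 2 = x / 16 by omega]
    ring

theorem chk2_all' (i j : Fin 120) : chk2 i.1 j.1 = true := by
  rcases le_total i j with h | h
  · exact chk2_all i j h
  · have h1 := chk2_all j i h
    unfold chk2 at h1 ⊢
    rw [Nat.land_comm]
    by_cases hij : i = j
    · subst hij
      exact h1
    · have hne : i.1 ≠ j.1 := fun h => hij (Fin.ext h)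
      rw [if_neg hne]
      rw [if_neg hne.symm] at h1
      have hs : (row i.1).testBit j.1 = (row j.1).testBit i.1 := by
        rw [Bool.eq_iff_iff, ← adj_iff, ← adj_iff]
        exact ⟨fun h => h.symm, fun h => h.symm⟩
      rw [hs]
      exact h1

theorem card_common (i j : Fin 120) :
    (Finset.univ.filter (fun k => G.Adj i k ∧ G.Adj j k)).card
      = if i = j then 63 else if G.Adj i j then 30 else 36 := by
  have h := chk2_all' i j
  unfold chk2 at h
  rw [pc4_eq, ← card_testBit] at h
  have h2 : (Finset.univ.filter (fun k => G.Adj i k ∧ G.Adj j k))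
      = (Finset.univ.filter
        (fun k : Fin (4 * 30) => (row i.1 &&& row j.1).testBit k.1 = true)) := by
    ext k
    simp only [Finset.mem_filter, Finset.mem_univ, true_and]
    rw [adj_iff, adj_iff, Nat.testBit_and, Bool.and_eq_true]
  rw [h2]
  rw [beq_iff_eq] at h
  rw [h]
  by_cases hij : i = j
  · simp [hij]
  · have hne : i.1 ≠ j.1 := fun h => hij (Fin.ext h)
    simp only [hij, hne, if_false, adj_iff]

theorem srg : G.IsSRGWith 120 63 30 36 where
  card := by simp
  regular := by
    intro v
    have := card_common v v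
    rw [if_pos rfl] at this
    rw [← this, ← SimpleGraph.card_neighborFinset_eq_degree]
    congr 1
    ext k
    simp
  of_adj := by
    intro v w h
    have := card_common v w
    rw [if_neg h.ne, if_pos h] at this
    rw [← this, ← Set.toFinset_card]
    congr 1
    ext k
    simp [SimpleGraph.mem_commonNeighbors]
  of_not_adj := by
    intro v w hne h
    have := card_common v w
    rw [if_neg hne, if_neg h] at this
    rw [← this, ← Set.toFinset_card]
    congr 1
    ext k
    simp [SimpleGraph.mem_commonNeighbors]

end Q278.E8
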