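import Pool.Agent.Q278.E8Chi

/-! Left multiplication by the eight octonion units on `ℤ^8`. -/

namespace Q278.E8

open Finset Matrix

/-- index of the product of two octonion units (bitwise exclusive or) -/
def px : Fin 8 → Fin 8 → Fin 8 :=
  ![![0, 1, 2, 3, 4, 5, 6, 7], ![1, 0, 3, 2, 5, 4, 7, 6], ![2, 3, 0, 1, 6, 7, 4, 5],
    ![3, 2, 1, 0, 7, 6, 5, 4], ![4, 5, 6, 7, 0, 1, 2, 3], ![5, 4, 7, 6, 1, 0, 3, 2],
    ![6, 7, 4, 5, 2, 3, 0, 1], ![7, 6, 5, 4, 3, 2, 1, 0]]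

/-- signs -/
def sg : Fin 8 → Fin 8 → ℤ :=
  ![![1, 1, 1, 1, 1, 1, 1, 1], ![-1, 1, -1, 1, -1, 1, 1, -1], ![-1, 1, 1, -1, -1, -1, 1, 1],
    ![-1, -1, 1, 1, -1, 1, -1, 1], ![-1, 1, 1, 1, 1, -1, -1, -1], ![-1, -1, 1, -1, 1, 1, 1, -1],
    ![-1, -1, -1, 1, 1, -1, 1, 1], ![-1, 1, -1, -1, 1, 1, -1, 1]]

/-- left multiplication by the octonion unit `e_i` -/
def A (i : Fin 8) (v : Fin 8 → ℤ) (k : Fin 8) : ℤ := sg i k * v (px i k)

theorem dot_A (i : Fin 8) (v w : Fin 8 → ℤ) : dot (A i v) (A i w) = dot v w := by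
  fin_cases i <;> simp [dot, A, sg, px, Fin.sum_univ_eight] <;> ring

theorem sum_A (j k : Fin 8) (v : Fin 8 → ℤ) :
    ∑ i, A i v j * A i v k = if j = k then dot v v else 0 := by
  fin_cases j <;> fin_cases k <;> simp [dot, A, sg, px, Fin.sum_univ_eight] <;> ring

end Q278.E8
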