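import Mathlib

/-! Search trees certifying the fixed clique property of two small graphs. -/

namespace Q278.FCP

/-- adjacency matrix of the graph on `{0,…,9}`, row by row -/
def M : ℕ := 601292942088313497367637686126

/-- adjacency -/
def adj (u v : ℕ) : Bool := Nat.testBit M (10 * u + v)

/-- search trees -/
inductive T
  | e
  | l (x : ℕ)
  | n (x : ℕ) (c0 c1 c2 c3 c4 c5 c6 c7 c8 : T)

/-- the value `w` for `x` is impossible -/
def dead (W : ℕ) (a : List (ℕ × ℕ)) (x w : ℕ) : Bool :=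
  !(Nat.testBit W w) || w == x || a.any (fun p => adj p.1 x && !(p.2 == w || adj p.2 w)) ||
    a.any fun p => p.1 == w && ((p.2 == x && adj x w) ||
      a.any fun q => q.1 == p.2 && q.2 == x && adj x w && adj w p.2 && adj x p.2)

/-- the checker -/
def chk (W : ℕ) : T → List (ℕ × ℕ) → Bool
  | .e, _ => false
  | .l x, a => Nat.testBit W x && dead W a x 0 && dead W a x 1 && dead W a x 2 && dead W a x 3 &&
      dead W a x 4 && dead W a x 5 && dead W a x 6 && dead W a x 7 && dead W a x 8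
  | .n x c0 c1 c2 c3 c4 c5 c6 c7 c8, a => Nat.testBit W x &&
      (dead W a x 0 || chk W c0 ((x, 0) :: a)) && (dead W a x 1 || chk W c1 ((x, 1) :: a)) &&
      (dead W a x 2 || chk W c2 ((x, 2) :: a)) && (dead W a x 3 || chk W c3 ((x, 3) :: a)) &&
      (dead W a x 4 || chk W c4 ((x, 4) :: a)) && (dead W a x 5 || chk W c5 ((x, 5) :: a)) &&
      (dead W a x 6 || chk W c6 ((x, 6) :: a)) && (dead W a x 7 || chk W c7 ((x, 7) :: a)) &&
      (dead W a x 8 || chk W c8 ((x, 8) :: a))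

section

variable (W : ℕ) (f : ℕ → ℕ)
  (hW : ∀ x, Nat.testBit W x = true → Nat.testBit W (f x) = true)
  (h9 : ∀ x, Nat.testBit W x = true → x < 9)
  (hend : ∀ x y, Nat.testBit W x = true → Nat.testBit W y = true → adj x y = true →
    f x = f y ∨ adj (f x) (f y) = true)
  (h1 : ∀ x, Nat.testBit W x = true → f x ≠ x)
  (h2 : ∀ x, Nat.testBit W x = true → f (f x) = x → adj x (f x) ≠ true)
  (h3 : ∀ x, Nat.testBit W x = true → f (f (f x)) = x →
    ¬ (adj x (f x) = true ∧ adj (f x) (f (f x)) = true ∧ adj x (f (f x)) = true))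

include hW hend h1 h2 h3

theorem dead_sound (a : List (ℕ × ℕ)) (ha : ∀ p ∈ a, Nat.testBit W p.1 = true ∧ f p.1 = p.2)
    (x w : ℕ) (hx : Nat.testBit W x = true) (hd : dead W a x w = true) : f x ≠ w := by
  intro hfx
  unfold dead at hd
  simp only [Bool.or_eq_true, List.any_eq_true, Bool.and_eq_true, Bool.not_eq_true',
    beq_iff_eq, Bool.or_eq_false_iff, beq_eq_false_iff_ne, ne_eq] at hd
  rcases hd with ((hd | hd) | ⟨p, hp, hd⟩) | ⟨p, hp, hpw, hd⟩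
  · rw [← hfx, hW x hx] at hd
    exact Bool.noConfusion hd
  · exact h1 x hx (hfx.trans hd)
  · obtain ⟨hp1, hp2⟩ := ha p hp
    rcases hend p.1 x hp1 hx hd.1 with h | h
    · exact hd.2.1 (by rw [← hp2, h, hfx])
    · rw [hp2, hfx, hd.2.2] at h
      exact Bool.noConfusion h
  · obtain ⟨hp1, hp2⟩ := ha p hp
    rcases hd with hd | ⟨q, hq, ⟨⟨⟨⟨hq1, hq2⟩, hq3⟩, hq4⟩, hq5⟩⟩
    · refine h2 x hx ?_ ?_
      · rw [hfx, ← hpw, hp2, hd.1]
      · rw [hfx]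
        exact hd.2
    · obtain ⟨hq6, hq7⟩ := ha q hq
      have e1 : f w = p.2 := by rw [← hpw, hp2]
      have e2 : f p.2 = x := by rw [← hq1, hq7, hq2]
      refine h3 x hx ?_ ?_
      · rw [hfx, e1, e2]
      · rw [hfx, e1]
        exact ⟨hq3, hq4, hq5⟩

include h9

theorem chk_sound (t : T) : ∀ a : List (ℕ × ℕ),
    (∀ p ∈ a, Nat.testBit W p.1 = true ∧ f p.1 = p.2) → chk W t a = true → False := by
  induction t with
  | e =>
    intro a _ h
    exact Bool.noConfusion h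
  | l x =>
    intro a ha h
    simp only [chk, Bool.and_eq_true] at h
    obtain ⟨⟨⟨⟨⟨⟨⟨⟨⟨hx, d0⟩, d1⟩, d2⟩, d3⟩, d4⟩, d5⟩, d6⟩, d7⟩, d8⟩ := h
    have key := dead_sound W f hW hend h1 h2 h3 a ha x
    have hlt := h9 _ (hW x hx)
    have e0 := key 0 hx d0
    have e1 := key 1 hx d1
    have e2 := key 2 hx d2
    have e3 := key 3 hx d3
    have e4 := key 4 hx d4
    have e5 := key 5 hx d5
    have e6 := key 6 hx d6
    have e7 := key 7 hx d7
    have e8 := key 8 hx d8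
    omega
  | n x c0 c1 c2 c3 c4 c5 c6 c7 c8 i0 i1 i2 i3 i4 i5 i6 i7 i8 =>
    intro a ha h
    simp only [chk, Bool.and_eq_true, Bool.or_eq_true] at h
    obtain ⟨⟨⟨⟨⟨⟨⟨⟨⟨hx, d0⟩, d1⟩, d2⟩, d3⟩, d4⟩, d5⟩, d6⟩, d7⟩, d8⟩ := h
    have key := dead_sound W f hW hend h1 h2 h3 a ha x
    have hlt := h9 _ (hW x hx)
    have step : ∀ w c, (∀ a : List (ℕ × ℕ),
        (∀ p ∈ a, Nat.testBit W p.1 = true ∧ f p.1 = p.2) → chk W c a = true → False) →
        (dead W a x w = true ∨ chk W c ((x, w) :: a) = true) → f x ≠ w := by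
      intro w c ih hd hfx
      rcases hd with hd | hd
      · exact key w hx hd hfx
      · refine ih ((x, w) :: a) ?_ hd
        intro p hp
        rcases List.mem_cons.1 hp with rfl | hp
        · exact ⟨hx, hfx⟩
        · exact ha p hp
    have e0 := step 0 c0 i0 d0
    have e1 := step 1 c1 i1 d1
    have e2 := step 2 c2 i2 d2
    have e3 := step 3 c3 i3 d3
    have e4 := step 4 c4 i4 d4
    have e5 := step 5 c5 i5 d5
    have e6 := step 6 c6 i6 d6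
    have e7 := step 7 c7 i7 d7
    have e8 := step 8 c8 i8 d8
    omega

end

open T in
/-- the tree for the nine vertices `0, …, 8` -/
def t1 : T :=
  n 0 e (n 1 e e (n 2 e e e e (n 4 e e e e e e e (n 7 e e e e e e (l 6) e e) e) e e e e) (n 3 e e e
  e (n 4 e e e e e e (l 6) e e) e e e e) (n 2 e (n 4 e e e (l 3) e e e e e) e (n 4 e e e (l 3) e e
  (n 3 e e e e (l 6) e e e e) e e) (n 3 e (l 4) (n 4 e e e e e e e (n 7 e e e e e e (l 6) e e) e) e
  (n 4 e e e e e e (l 6) (n 7 e e e e e e (l 6) e e) e) e e e e) e e e e) e e e e) (n 2 e (n 1 e e e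
  e (n 4 e e e (l 3) e e e e e) e e e e) e e (n 1 e e (n 4 e e e e e e e (n 7 e e e e e e (l 6) e e)
  e) e (n 4 e e e (l 3) e e (n 3 e e e e (n 6 e e e e e e e (l 7) e) e e (n 6 e e e e e e e (l 7) e)
  e) (n 7 e e e e e e (l 6) e e) e) e e (n 4 e e e e e e (n 3 e e e e (n 6 e e e e e e e (l 7) e) e
  e (n 6 e e e e e e e (l 7) e) e) (n 7 e e e e e e (l 6) e e) e) e) (n 5 e e e e e e e (n 7 e e e e
  e e e e (l 8)) e) e (n 5 e e (n 7 e e e e (n 4 e e e e e e (l 6) e e) e e e e) e (n 7 e e e e (n 4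
  e e e e e e (l 6) e e) e (n 6 (l 8) e e e (l 4) e e e e) e e) e e (n 7 e e e e (n 4 e e e e e e (l
  6) e e) e (n 6 (l 8) e e e (l 4) e e e e) e (l 8)) e) e) (n 3 e (n 1 e e e e (n 4 e e (l 2) e e e
  e e e) e e e e) e e (n 1 e e e (n 4 e e e e e e (l 6) e e) (n 4 e e (l 2) e e e (l 6) (n 6 e e e e
  (n 7 e e (l 2) e e e e e e) e e e e) e) e (n 4 e e e e e e (l 6) (n 6 e e e e (n 7 e e (l 2) e e e
  e e e) e e e e) e) e e) e (n 6 e e e e (n 4 e e e e e e e (n 7 e e (l 2) e e e e e e) e) e e e e)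
  e e) (n 1 e e (n 2 e e e e (n 4 e e e e e e e (n 7 e e e e e e (l 6) e e) e) e e (n 4 e e (n 7 e e
  e e e (l 5) e e e) e e (n 3 e e (n 6 e e (n 7 e e e e e (l 5) e e e) e e e e (n 7 e e e e e (l 5)
  e e (l 8)) e) e e e e (n 6 e e (n 7 e e e e e (l 5) e e e) e e e e (n 7 e e e e e (l 5) e e (l 8))
  e) e) e (n 3 e e (n 6 e e (n 7 e e e e e (l 5) e e e) e (l 7) e e (n 7 e e e e e (l 5) e e (l 8))
  e) e (n 6 e e (n 7 e e e e e (l 5) e e e) e (l 7) e e (n 7 e e e e e (l 5) e e (l 8)) e) e e (n 6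
  e e (n 7 e e e e e (l 5) e e e) e (l 7) e e (n 7 e e e e e (l 5) e e (l 8)) e) e) e) e) (n 3 e e e
  e (n 4 e e e e e e (n 6 e e e e e e e (n 7 e e e e e e e e (l 8)) e) e e) e (n 6 e e e e (l 4) e e
  (n 4 e e e e e e (n 7 e e e e e e e e (l 8)) e e) e) e e) (n 4 e e (n 2 e e e e e e e (n 7 e e e e
  e (l 5) e e e) e) (n 3 e e e e e e (l 6) e e) e e (n 6 e e e (l 3) e e e (n 7 e e e e e e e e (l
  8)) e) (n 2 e e e e (n 7 e e e e e e (l 6) e e) e (n 7 e e e e e e (l 6) e (n 6 e e e e e e e (l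
  8) e)) (n 6 e e (n 7 e e e e e (l 5) e e e) e (l 7) e e (n 7 e e e e e (l 5) e e (l 8)) e) e) e) e
  (n 3 e e e e (n 4 e e e e e e (n 6 e e e e e e e (n 7 e e e e e e e e (l 8)) e) (n 2 e e e e (n 7
  e e e e e e (l 6) e e) e (n 7 e e e e e e (l 6) e (n 6 e e e e e e e (l 8) e)) (n 6 e e (n 7 e e e
  e e (l 5) e e e) e (l 7) e e (n 7 e e e e e (l 5) e e (l 8)) e) e) e) e (n 6 e e e e (n 4 e e e e
  e e e (n 7 e e (l 2) e e e e e e) e) e e (n 4 e e e e e e (n 7 e e e e e e e e (l 8)) (n 2 e e e e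
  (l 7) e (n 7 e e e e e e e e (l 8)) (n 7 e e e e e (l 5) e e (l 8)) e) (n 2 e e e e e e (n 7 e e e
  e e e e e (l 8)) (n 7 e e e e e (l 5) e e (l 8)) e)) e) (n 4 e e e e e e (n 6 e e e e e e e (n 7 e
  e e e e e e e (l 8)) e) (n 2 e e e e (n 7 e e e e e e (l 6) e e) e (n 7 e e e e e e (l 6) e (n 6 e
  e e e e e e (l 8) e)) (n 6 e e (n 7 e e e e e (l 5) e e e) e (l 7) e e (n 7 e e e e e (l 5) e e (l
  8)) e) e) (n 6 e e e e e e e (n 2 e e e e e e (n 7 e e e e e e e e (l 8)) (n 7 e e e e e (l 5) e e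
  (l 8)) e) e)) e) (n 2 e e e e (n 4 e e e e e e (n 6 e e e (l 3) e e e (l 7) e) (n 7 e e e e e e (l
  6) e e) e) e (n 4 e e e e e e (n 6 e e e (l 3) e e e (n 7 e e e e e e e e (l 8)) e) (n 7 e e e e e
  e (l 6) e (n 6 e e e e e e e (l 8) e)) (n 6 e e e e e e e (n 7 e e e e e e e e (l 8)) e)) (n 3 e e
  (n 4 e e (n 7 e e e e e (l 5) e e e) e e (n 6 e e (n 7 e e e e e (l 5) e e e) e e e e (n 7 e e e e
  e (l 5) e e (l 8)) e) e (n 6 e e (n 7 e e e e e (l 5) e e e) e (l 7) e e (n 7 e e e e e (l 5) e e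
  (l 8)) e) e) e (n 4 e e (n 7 e e e e e (l 5) e e e) e e e (n 6 e e e e e e e (n 7 e e e e e e e e
  (l 8)) e) (n 6 e e (n 7 e e e e e (l 5) e e e) e (l 7) e e (n 7 e e e e e (l 5) e e (l 8)) e) e) e
  (n 6 e e e e (n 4 e e e e e e e (l 7) e) e e (n 4 e e e e e e (n 7 e e e e e e e e (l 8)) (n 7 e e
  e e e (l 5) e e (l 8)) (n 7 e e e e e (l 5) e e (l 8))) e) (n 6 e e (n 7 e e e e (l 4) (l 5) e e
  e) e (n 4 e e (l 7) e e e e (l 7) e) e e (n 7 e e e e (l 4) (l 5) e e (l 8)) e) e) e) e) (n 5 e e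
  (n 2 e e e e e e e (n 7 e e e e (n 4 e e e e e e (l 6) e e) e e e e) e) e e e e (n 2 e e e e e (n
  7 e e e e e e e e (l 8)) e (n 7 e e e e (n 4 e e e e e e (l 6) e e) e (n 8 e e e e e e e (l 6) e)
  e (l 8)) (n 7 e e e e e e (n 8 e e e e e e e (l 6) e) e (l 8))) (n 8 e e e e e e e (n 7 e e e e e
  e (l 6) e e) e)) (n 6 e e e (n 3 e e e e (n 4 e (l 1) e e e e e e e) e e e e) (n 3 e e e e (n 4 e
  (l 1) (n 1 e e e e (n 2 e e e e e e e (l 7) e) e e (n 2 e e e e e e e (l 7) e) e) e e e e (n 7 e e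
  (l 2) e e e e e e) e) e (n 4 e e e e e e e (n 7 e e (l 2) e e e e e e) e) (n 4 e e (n 1 e e e e (n
  2 e e e e e e e (l 7) e) e e (n 2 e e e e e e e (l 7) e) e) e e e e (n 7 e e (l 2) e e e e e e) e)
  e) e e (n 8 e e e e (n 7 e e (n 2 (l 5) e e e (l 4) e e e e) e (n 4 e e (l 2) e e e e e e) e e e
  e) e (n 7 e e e e (n 4 e e (l 2) e e e e e e) e e e e) (n 7 e e (n 2 (l 5) e e e (l 4) e e e e) e
  (n 4 e e (l 2) e e e e e e) (l 5) e e e) e) (n 8 e e e e e e e (n 7 e e e e e (l 5) e e e) e)) (n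
  2 e e e e (n 1 e e (n 4 e e e e e e e (n 7 e e e e e e (n 6 e e e e e e e e (l 8)) e e) e) e (n 4
  e e e (n 3 e e e e e e (l 6) e e) e e (n 6 e e e e e e e (l 7) (n 7 e e e e e e (l 8) e e)) (n 7 e
  e e e e e (n 6 e e e e e e e e (l 8)) e e) e) e (n 4 e e e (n 3 e e e e e e (l 6) e e) e e (n 6 e
  e e e e e e (l 7) (n 7 e e e e e e (l 8) e e)) (n 7 e e e e e e (n 6 e e e e e e e e (l 8)) e e)
  e) (n 4 e e e e e e (n 6 e e e e e e e (l 7) (n 7 e e e e e e (l 8) e e)) (n 7 e e e e e e (n 6 e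
  e e e e e e e (l 8)) e e) e) e) (n 5 e e e e e e e (n 7 e e e e e e e e (n 8 e e e e e e (l 6) e
  e)) (n 8 e e e e e e (n 6 e e e e (l 7) e e (l 7) e) (l 7) e)) (n 1 e e e e (n 4 e e e (n 3 e e e
  e e e (l 6) e e) e e (n 6 e e e e e e e (n 7 e e e e e e e e (n 8 e e e e e (l 5) e e e)) (n 3 e e
  e e e e (n 8 e e e e e (n 5 e e e e e e e (l 7) e) e (l 7) e) (n 8 e e e e e (n 5 e e e e e e e (l
  7) e) e (l 7) e) e)) (n 7 e e e e e e (n 6 e e e e e e e e (l 8)) e (n 8 e e e e e (l 5) (l 6) e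
  e)) e) e (n 3 e e e e (n 4 e e e e e e (n 6 e e e e e e e (n 7 e e e e e e e e (n 8 e e e e e (l
  5) e e e)) e) (n 7 e e e e e e (l 6) e (n 6 e e e e e e e (n 8 e e e e e (l 5) e e e) e)) e) e (n
  6 e e e e (n 4 e e e e e e e (l 7) e) e e (n 7 e e e e (l 4) e e e (n 8 e e e e e (l 5) e e e)) (n
  8 e e e e e (n 5 e e e e e e e (l 7) e) e (l 7) e)) (n 4 e e e e e e (n 6 e e e e e e e (n 7 e e e
  e e e e e (n 8 e e e e e (l 5) e e e)) (n 8 e e e e e (n 5 e e e e e e e (l 7) e) e (l 7) e)) (n 7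
  e e e e e e (n 6 e e e e e e e e (l 8)) e (n 8 e e e e e (l 5) (l 6) e e)) (n 6 e e e e e (n 7 (n
  5 e e e e e e (l 8) e (l 8)) e e e e e e e (n 8 e e e e e (l 5) e e e)) e (n 7 e e e e e e e e (n
  8 e e e e e (l 5) e e e)) (n 8 e e e e e (n 5 e e e e e e e (l 7) e) e (l 7) e))) (n 6 e e e e e
  (n 7 (n 4 (n 5 e e e e e e (l 8) e (l 8)) e e e e e e e (n 5 e e e e e e (l 8) e (l 8))) e e e e e
  e e (n 8 e e e e e (l 5) e e e)) e (n 7 e e e e (l 4) e e e (n 8 e e e e e (l 5) e e e)) (n 8 e e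
  e e e (n 5 e e e e e e e (l 7) e) e (l 7) e))) (n 4 e e e e e e (n 6 e e e e e e e (n 7 e e e e e
  e e e (n 8 e e e e e (l 5) e e e)) (n 8 e e e e e (n 5 e e e e e e e (l 7) e) e (l 7) e)) (n 7 e e
  e e e e (n 6 e e e e e e e e (l 8)) e (n 8 e e e e e (l 5) (l 6) e e)) (n 6 e e e e e (n 7 (n 5 e
  e e e e e (l 8) e (l 8)) e e e e e e e (n 8 e e e e e (l 5) e e e)) e (n 7 e e e e e e e e (n 8 e
  e e e e (l 5) e e e)) (n 8 e e e e e (n 5 e e e e e e e (l 7) e) e (l 7) e))) (n 3 e e e e e (n 4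
  (n 6 e e (n 7 (n 5 e e e e e e (l 8) e (l 8)) e e e e e e e e) e e (n 7 (n 5 e e e e e e (l 8) e
  (l 8)) e e e e e e e (n 8 e e e e e (l 5) e e e)) e e (n 8 e e e e e (n 5 e e e e e e e (l 7) e) e
  (l 7) e)) e e e e e e (n 7 e e e e e e (n 6 e e e e e e e e (l 8)) e (n 8 e e e e e (l 5) (l 6) e
  e)) (n 6 e e e e e (n 7 (n 5 e e e e e e (l 8) e (l 8)) e e e e e e e (n 8 e e e e e (l 5) e e e))
  e (n 7 e e e e e e e e (n 8 e e e e e (l 5) e e e)) (n 8 e e e e e (n 5 e e e e e e e (l 7) e) e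
  (l 7) e))) (n 6 e e e e (n 4 e e e e e e e (l 7) e) e e (n 7 e e e e (l 4) e e e (n 8 e e e e e (l
  5) e e e)) (n 8 e e e e e (n 5 e e e e e e e (l 7) e) e (l 7) e)) (n 4 e e e e e e (n 6 e e e e e
  e e (n 7 e e e e e e e e (n 8 e e e e e (l 5) e e e)) (n 8 e e e e e (n 5 e e e e e e e (l 7) e) e
  (l 7) e)) (n 7 e e e e e e (n 6 e e e e e e e e (l 8)) e (n 8 e e e e e (l 5) (l 6) e e)) (n 6 e e
  e e e (n 7 (n 5 e e e e e e (l 8) e (l 8)) e e e e e e e (n 8 e e e e e (l 5) e e e)) e (n 7 e e e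
  e e e e e (n 8 e e e e e (l 5) e e e)) (n 8 e e e e e (n 5 e e e e e e e (l 7) e) e (l 7) e))) (n
  6 e e e e e (n 7 (n 4 (n 5 e e e e e e (l 8) e (l 8)) e e e e e e e (n 5 e e e e e e (l 8) e (l
  8))) e e e e e e e (n 8 e e e e e (l 5) e e e)) e (n 7 e e e e (l 4) e e e (n 8 e e e e e (l 5) e
  e e)) (n 8 e e e e e (n 5 e e e e e e e (l 7) e) e (l 7) e)))) (n 7 e e e e (n 4 e e e e e e (l 6)
  e e) (n 5 e e e e e e e e (l 8)) (n 6 e e e e (l 4) e e e (l 8)) e (n 8 e e e e e (l 5) (l 6) e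
  e)) (n 5 e e e e e e (n 7 (n 8 e e e e e e (l 6) e e) e e e e e (n 6 e e e e (l 4) e e e (l 8)) e
  (n 8 e e e e e e (l 6) e e)) (n 7 e e e e e e (n 6 e e e e (l 4) e e e (l 8)) e (n 8 e e e e e e
  (l 6) e e)) (n 8 e e e e e e (n 6 e e e e (n 4 e e e e e e e (l 7) e) e e (l 7) e) (n 7 e e e e e
  e (n 6 e e e e (l 4) e e e e) e e) e))) (n 8 e e e e e (n 5 e e e e e e e (n 7 e e (l 2) e e e e e
  e) e) (n 6 e e e e e e e (n 7 e e e e (n 4 e e (l 2) e e e e e e) e e e e) e) (n 5 e e e e e e (n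
  7 e e e e (n 6 e e e e e e e (n 4 e e (l 2) e e e e e e) e) e (l 6) e e) (n 6 e e e e e (n 7 e e
  (l 2) e e e e e e) e (n 7 e e (l 2) e (n 4 e e (l 2) e e e e e e) e e e e) (l 7)) (n 7 e e e e e e
  (l 6) e e)) e)

open T in
/-- the tree for the six vertices `0, 2, 5, 6, 7, 8` -/
def t2 : T :=
  n 0 e e (n 2 e e e e e (n 5 e e e e e e e (n 7 e e e e e e e e (l 8)) e) e (n 5 e e (l 7) e e e e
  (n 7 e e e e e e (n 6 (l 8) e e e e e e e e) e (l 8)) e) e) e e (n 5 e e (n 2 e e e e e e e (l 7)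
  e) e e e e (n 2 e e e e e (n 7 e e e e e e e e (l 8)) e (n 7 e e e e e e (n 8 e e e e e e e (l 6)
  e) e (l 8)) (n 7 e e e e e e (n 8 e e e e e e e (l 6) e) e (l 8))) (n 8 e e e e e e e (n 7 e e e e
  e e (l 6) e e) e)) (n 6 e e e e e e e (n 8 e e e e e e (l 7) (n 7 e e (n 2 (l 5) e e e e e e e e)
  e e (l 5) e e e) e) (n 8 e e e e e e e (n 7 e e e e e (l 5) e e e) e)) (n 2 e e e e e (n 5 e e e e
  e e e (n 7 e e e e e e e e (n 8 e e e e e e (l 6) e e)) (n 8 e e e e e e (n 6 e e e e e e e (l 7)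
  e) (l 7) e)) (n 5 e e e e e e (n 8 e e e e e e (n 6 e e e e e e e (l 7) e) (n 7 e e e e e e (l 6)
  e e) e) (n 7 e e e e e e (n 6 e e e e e e e e (l 8)) e (n 8 e e e e e e (l 6) e e)) (n 8 e e e e e
  e (n 6 e e e e e e e (l 7) e) (n 7 e e e e e e (l 6) e e) e)) (n 7 e e e e e (n 5 e e e e e e e e
  (l 8)) (n 6 e e e e e e e e (l 8)) e (n 8 e e e e e (l 5) (l 6) e e)) (n 5 e e e e e e (n 8 e e e
  e e e (n 6 e e e e e e e (l 7) e) (n 7 e e e e e e (l 6) e e) e) (n 7 e e e e e e (n 6 e e e e e e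
  e e (l 8)) e (n 8 e e e e e e (l 6) e e)) (n 8 e e e e e e (n 6 e e e e e e e (l 7) e) (n 7 e e e
  e e e (l 6) e e) e))) (n 8 e e e e e (n 5 e e e e e e e (n 7 e e (l 2) e e e e e e) e) (n 6 e e e
  e e e e (l 7) e) (n 5 e e e e e e (n 7 e e e e e e (l 6) e e) (n 7 e e (l 2) e e e (l 6) e e) (n 7
  e e e e e e (l 6) e e)) e)

theorem chk_t1 : chk 511 t1 [] = true := by decide +kernel

theorem chk_t2 : chk 485 t2 [] = true := by decide +kernel

end Q278.FCP
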