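import Mathlib

/-! Weighted Mycielski graphs: triangle-free graphs whose independent sets carry an arbitrarily
small proportion of the total weight; hence (blowing up) triangle-free graphs with independence
number at most `ε n`. -/

namespace Q278.FracMyc

open Finset

/-- the Mycielski graph of `G` -/
def myc {V : Type} (G : SimpleGraph V) : SimpleGraph (Option (V ⊕ V)) where
  Adj x y := match x, y with
    | some (.inl u), some (.inl v) => G.Adj u v
    | some (.inl u), some (.inr v) => G.Adj u v
    | some (.inr u), some (.inl v) => G.Adj u v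
    | some (.inr _), none => True
    | none, some (.inr _) => True
    | _, _ => False
  symm := ⟨by
    rintro (_ | (u | u)) (_ | (v | v)) h <;> first | exact h | exact h.symm⟩
  loopless := ⟨by
    rintro (_ | (u | u)) h
    · exact h
    · exact G.loopless.irrefl u h
    · exact h⟩

/-- a `k`-colourable triangle-free graph with weights `w`, independent sets having weight at most
`a > 0` -/
structure Wt (k : ℕ) where
  V : Type
  fin : Fintype V
  dec : DecidableEq V
  G : SimpleGraph V
  w : V → ℕ
  a : ℕ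
  tri : ∀ x y z, G.Adj x y → G.Adj y z → ¬ G.Adj x z
  col : G.Colorable k
  pos : 0 < a
  ind : ∀ I : Finset V, (∀ x ∈ I, ∀ y ∈ I, ¬ G.Adj x y) → ∑ v ∈ I, w v ≤ a

attribute [instance] Wt.fin Wt.dec

/-- new weights -/
def mw {V : Type} (k : ℕ) (w : V → ℕ) (a : ℕ) : Option (V ⊕ V) → ℕ
  | some (.inl v) => k * w v
  | some (.inr v) => w v
  | none => a

theorem step_ind (k : ℕ) (T : Wt (k + 1)) (I : Finset (Option (T.V ⊕ T.V)))
    (hI : ∀ x ∈ I, ∀ y ∈ I, ¬ (myc T.G).Adj x y) :
    ∑ v ∈ I, mw k T.w T.a v ≤ (k + 1) * T.a := by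
  classical
  let A : Finset T.V := univ.filter fun v => some (.inl v) ∈ I
  let B : Finset T.V := univ.filter fun v => some (.inr v) ∈ I
  have hsum : ∑ v ∈ I, mw k T.w T.a v
      = (if none ∈ I then T.a else 0) + (k * ∑ v ∈ A, T.w v + ∑ v ∈ B, T.w v) := by
    have h1 : ∑ v ∈ I, mw k T.w T.a v = ∑ v, if v ∈ I then mw k T.w T.a v else 0 := by
      rw [← Finset.sum_filter]
      congr 1
      ext x
      simp
    rw [h1, Fintype.sum_option, Fintype.sum_sum_type]
    simp only [mw, A, B, Finset.sum_filter, Finset.mul_sum, mul_ite, mul_zero]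
  have hA : ∀ x ∈ A, ∀ y ∈ A, ¬ T.G.Adj x y := by
    intro x hx y hy
    simp only [A, mem_filter, mem_univ, true_and] at hx hy
    exact hI _ hx _ hy
  have hAa := T.ind A hA
  rw [hsum]
  by_cases hz : none ∈ I
  · have hB : B = ∅ := by
      apply Finset.eq_empty_of_forall_notMem
      intro v hv
      simp only [B, mem_filter, mem_univ, true_and] at hv
      exact hI _ hv _ hz trivial
    rw [if_pos hz, hB, Finset.sum_empty, add_zero]
    nlinarith
  · rw [if_neg hz, zero_add]
    obtain ⟨col⟩ := T.col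
    let C : Finset T.V := B \ A
    -- a heavy colour class
    obtain ⟨c, hc⟩ : ∃ c : Fin (k + 1), ∑ v ∈ C, T.w v
        ≤ (k + 1) * ∑ v ∈ C.filter (fun v => col v = c), T.w v := by
      by_contra hcon
      push Not at hcon
      have h1 : ∑ c : Fin (k + 1), ((k + 1) * ∑ v ∈ C.filter (fun v => col v = c), T.w v)
          < ∑ _c : Fin (k + 1), ∑ v ∈ C, T.w v :=
        Finset.sum_lt_sum_of_nonempty ⟨0, mem_univ _⟩ fun c _ => hcon c
      rw [← Finset.mul_sum, Finset.sum_fiberwise] at h1
      simp at h1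
    let J := C.filter (fun v => col v = c)
    have hAJ : Disjoint A J := by
      rw [Finset.disjoint_left]
      intro v hv hv2
      simp only [J, C, mem_filter, mem_sdiff] at hv2
      exact hv2.1.2 hv
    have hind : ∀ x ∈ A ∪ J, ∀ y ∈ A ∪ J, ¬ T.G.Adj x y := by
      have hAJ' : ∀ x ∈ A, ∀ y ∈ J, ¬ T.G.Adj x y := by
        intro x hx y hy
        simp only [J, C, B, A, mem_filter, mem_sdiff, mem_univ, true_and] at hx hy
        exact hI _ hx _ hy.1.1
      intro x hx y hy
      rcases Finset.mem_union.1 hx with hx | hx <;> rcases Finset.mem_union.1 hy with hy | hy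
      · exact hA x hx y hy
      · exact hAJ' x hx y hy
      · exact fun h => hAJ' y hy x hx h.symm
      · intro h
        simp only [J, mem_filter] at hx hy
        exact col.valid h (hx.2.trans hy.2.symm)
    have h2 := T.ind _ hind
    rw [Finset.sum_union hAJ] at h2
    have h3 : ∑ v ∈ B, T.w v ≤ ∑ v ∈ A, T.w v + ∑ v ∈ C, T.w v := by
      have : B ⊆ A ∪ C := by
        intro v hv
        by_cases hva : v ∈ A
        · exact mem_union_left _ hva
        · exact mem_union_right _ (mem_sdiff.2 ⟨hv, hva⟩)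
      calc ∑ v ∈ B, T.w v ≤ ∑ v ∈ A ∪ C, T.w v := Finset.sum_le_sum_of_subset this
        _ ≤ _ := by
          rw [Finset.sum_union (by
            rw [Finset.disjoint_left]
            intro v hv hv2
            exact (mem_sdiff.1 hv2).2 hv)]
    change (∑ v ∈ C, T.w v) ≤ (k + 1) * ∑ v ∈ J, T.w v at hc
    nlinarith

/-- one step of the construction -/
def step (k : ℕ) (T : Wt (k + 1)) : Wt (k + 2) where
  V := Option (T.V ⊕ T.V)
  fin := inferInstance
  dec := inferInstance
  G := myc T.G
  w := mw k T.w T.a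
  a := (k + 1) * T.a
  tri := by
    rintro (_ | (x | x)) (_ | (y | y)) (_ | (z | z)) h1 h2 h3 <;>
      first | exact h1 | exact h2 | exact h3 | exact T.tri _ _ _ h1 h2 h3
  col := by
    obtain ⟨c⟩ := T.col
    refine ⟨SimpleGraph.Coloring.mk (fun x => match x with
      | none => Fin.last (k + 1)
      | some (.inl v) => (c v).castSucc
      | some (.inr v) => (c v).castSucc) ?_⟩
    rintro (_ | (x | x)) (_ | (y | y)) h
    · exact h.elim
    · exact h.elim
    · exact (Fin.castSucc_lt_last (c y)).ne'
    · exact h.elim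
    · exact fun h' => c.valid h (Fin.castSucc_injective _ h')
    · exact fun h' => c.valid h (Fin.castSucc_injective _ h')
    · exact (Fin.castSucc_lt_last (c x)).ne
    · exact fun h' => c.valid h (Fin.castSucc_injective _ h')
    · exact h.elim
  pos := Nat.mul_pos (Nat.succ_pos _) T.pos
  ind := step_ind k T

theorem step_total (k : ℕ) (T : Wt (k + 1)) :
    ∑ v, (step k T).w v = (k + 1) * (∑ v, T.w v) + T.a := by
  change ∑ v, mw k T.w T.a v = _
  rw [Fintype.sum_option, Fintype.sum_sum_type]
  simp only [mw, ← Finset.mul_sum]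
  ring

/-- one vertex -/
def base : Wt 1 where
  V := Unit
  fin := inferInstance
  dec := inferInstance
  G := ⊥
  w := fun _ => 1
  a := 1
  tri := fun _ _ _ h => h.elim
  col := ⟨SimpleGraph.Coloring.mk (fun _ => 0) (fun h => h.elim)⟩
  pos := Nat.one_pos
  ind := by
    intro I _
    rw [Finset.sum_const, smul_eq_mul, mul_one]
    exact (Finset.card_le_univ I).trans (le_of_eq Fintype.card_unit)

theorem exists_wt (m : ℕ) : ∃ T : Wt (m + 1),
    (∑ v, (T.w v : ℝ)) = T.a * (1 + ∑ i ∈ range m, 1 / ((i : ℝ) + 1)) := by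
  induction m with
  | zero =>
    refine ⟨base, ?_⟩
    change (∑ _v : Unit, ((1 : ℕ) : ℝ)) = ((1 : ℕ) : ℝ) * _
    simp
  | succ m ih =>
    obtain ⟨T, hT⟩ := ih
    refine ⟨step m T, ?_⟩
    have h := step_total m T
    have h' : (∑ v, ((step m T).w v : ℝ)) = (m + 1) * (∑ v, (T.w v : ℝ)) + T.a := by
      exact_mod_cast h
    rw [h', hT, Finset.sum_range_succ]
    have ha : ((step m T).a : ℝ) = (m + 1) * T.a := by
      change (((m + 1) * T.a : ℕ) : ℝ) = _
      push_cast
      ring
    rw [ha]
    have : (m : ℝ) + 1 ≠ 0 := by positivity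
    field_simp
    ring

/-- Triangle-free graphs with independence number at most a fraction `1 / R` of the order. -/
theorem exists_triangleFree (R : ℝ) : ∃ (X : Type) (_ : Fintype X) (_ : DecidableEq X)
    (G : SimpleGraph X) (a : ℕ), 0 < a ∧ (∀ x y z, G.Adj x y → G.Adj y z → ¬ G.Adj x z) ∧
    (∀ I : Finset X, (∀ x ∈ I, ∀ y ∈ I, ¬ G.Adj x y) → I.card ≤ a) ∧
    R * a ≤ Fintype.card X := by
  obtain ⟨m, hm⟩ := (Real.tendsto_sum_range_one_div_nat_succ_atTop.eventually_ge_atTop R).exists
  obtain ⟨T, hT⟩ := exists_wt m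
  refine ⟨Σ v : T.V, Fin (T.w v), inferInstance, inferInstance,
    { Adj := fun x y => T.G.Adj x.1 y.1
      symm := ⟨fun x y h => h.symm⟩
      loopless := ⟨fun x h => T.G.loopless.irrefl _ h⟩ }, T.a, T.pos, ?_, ?_, ?_⟩
  · intro x y z h1 h2 h3
    exact T.tri _ _ _ h1 h2 h3
  · intro I hI
    classical
    have h1 := T.ind (I.image Sigma.fst) (by
      intro x hx y hy
      obtain ⟨x', hx', rfl⟩ := Finset.mem_image.1 hx
      obtain ⟨y', hy', rfl⟩ := Finset.mem_image.1 hy
      exact hI x' hx' y' hy')
    refine le_trans ?_ h1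
    have h2 : I ⊆ (I.image Sigma.fst).sigma fun v => (univ : Finset (Fin (T.w v))) := by
      intro x hx
      exact Finset.mem_sigma.2 ⟨Finset.mem_image_of_mem _ hx, mem_univ _⟩
    calc I.card ≤ _ := Finset.card_le_card h2
      _ = ∑ v ∈ I.image Sigma.fst, T.w v := by
        rw [Finset.card_sigma]
        simp
  · rw [Fintype.card_sigma]
    push_cast
    simp only [Fintype.card_fin]
    rw [hT]
    have ha : (0 : ℝ) < T.a := by exact_mod_cast T.pos
    nlinarith

end Q278.FracMyc
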