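import Mathlib

/-! Two tools: a pigeonhole configuration of four points, and a clean `m`-subset avoiding few
quadruples. -/

namespace Q278.Homog

open Finset

/-- threshold of the forward-homogeneous sequences -/
def NN (T : ℕ) : ℕ → ℕ
  | 0 => 0
  | L + 1 => 1 + T * NN T L

theorem forward {α β : Type} [DecidableEq α] [DecidableEq β] (τ : α → α → β) (T : ℕ)
    (S0 : Finset α) (hT : ∀ a ∈ S0, (S0.image (τ a)).card ≤ T) (L : ℕ) :
    ∀ S ⊆ S0, NN T L ≤ S.card → ∃ g : Fin L → α, Function.Injective g ∧ (∀ i, g i ∈ S) ∧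
      ∀ i j k, i < j → i < k → τ (g i) (g j) = τ (g i) (g k) := by
  induction L with
  | zero =>
    intro S _ _
    exact ⟨fun i => i.elim0, fun i => i.elim0, fun i => i.elim0, fun i => i.elim0⟩
  | succ L ih =>
    intro S hS hcard
    have hpos : 0 < S.card := lt_of_lt_of_le (by rw [NN]; omega) hcard
    obtain ⟨a, ha⟩ := Finset.card_pos.1 hpos
    have hS' : (S.erase a).card + 1 = S.card := Finset.card_erase_add_one ha
    rw [NN] at hcard
    -- pigeonhole
    obtain ⟨S1, hS1, hS1card, hS1c⟩ : ∃ S1 ⊆ S.erase a, NN T L ≤ S1.card ∧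
        ∀ x ∈ S1, ∀ y ∈ S1, τ a x = τ a y := by
      by_cases hne : (S.erase a).Nonempty
      · have hmaps : ∀ x ∈ S.erase a, τ a x ∈ S0.image (τ a) := fun x hx =>
          mem_image_of_mem _ (hS (Finset.mem_of_mem_erase hx))
        have himne : (S0.image (τ a)).Nonempty := ⟨_, hmaps _ hne.choose_spec⟩
        obtain ⟨y, _, hy⟩ := Finset.exists_le_card_fiber_of_mul_le_card_of_maps_to hmaps himne
          (n := NN T L) (by
            have := Nat.mul_le_mul_right (NN T L) (hT a (hS ha))
            omega)
        refine ⟨(S.erase a).filter fun x => τ a x = y, Finset.filter_subset _ _, hy, ?_⟩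
        intro x hx x' hx'
        rw [(mem_filter.1 hx).2, (mem_filter.1 hx').2]
      · rw [Finset.not_nonempty_iff_eq_empty] at hne
        refine ⟨∅, Finset.empty_subset _, ?_, by simp⟩
        rw [hne] at hS'
        simp only [Finset.card_empty] at hS' ⊢
        have hT1 : 1 ≤ T := by
          refine le_trans ?_ (hT a (hS ha))
          exact Finset.card_pos.2 ⟨_, mem_image_of_mem _ (hS ha)⟩
        have : NN T L ≤ T * NN T L := Nat.le_mul_of_pos_left _ hT1
        omega
    obtain ⟨g, hg1, hg2, hg3⟩ := ih S1 (hS1.trans ((Finset.erase_subset _ _).trans hS)) hS1card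
    refine ⟨Fin.cons a g, ?_, ?_, ?_⟩
    · rw [Fin.cons_injective_iff]
      refine ⟨?_, hg1⟩
      rintro ⟨i, hi⟩
      have := hS1 (hg2 i)
      rw [hi] at this
      exact Finset.notMem_erase _ _ this
    · intro i
      refine Fin.cases ?_ (fun j => ?_) i
      · exact ha
      · exact Finset.mem_of_mem_erase (hS1 (hg2 j))
    · intro i j k hij hik
      obtain ⟨j', rfl⟩ := Fin.exists_succ_eq.2 (Fin.ne_zero_of_lt hij)
      obtain ⟨k', rfl⟩ := Fin.exists_succ_eq.2 (Fin.ne_zero_of_lt hik)
      refine Fin.cases (motive := fun i => i < j'.succ → i < k'.succ →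
        τ (Fin.cons (α := fun _ => α) a g i) (Fin.cons (α := fun _ => α) a g j'.succ) =
          τ (Fin.cons (α := fun _ => α) a g i) (Fin.cons (α := fun _ => α) a g k'.succ))
        ?_ (fun i' => ?_) i hij hik
      · intro _ _
        simp only [Fin.cons_zero, Fin.cons_succ]
        exact hS1c _ (hg2 _) _ (hg2 _)
      · intro h1 h2
        simp only [Fin.cons_succ]
        exact hg3 _ _ _ (Fin.succ_lt_succ_iff.1 h1) (Fin.succ_lt_succ_iff.1 h2)

/-- four points -/
theorem four_points {α β : Type} [DecidableEq α] [DecidableEq β] (τ : α → α → β) (T : ℕ)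
    (S : Finset α) (hT : ∀ a ∈ S, (S.image (τ a)).card ≤ T)
    (hcard : NN T (T * T + 1 + 2) ≤ S.card) : ∃ a b c d : α, a ∈ S ∧ b ∈ S ∧ c ∈ S ∧ d ∈ S ∧
      a ≠ b ∧ a ≠ c ∧ a ≠ d ∧ b ≠ c ∧ b ≠ d ∧ c ≠ d ∧
      τ a b = τ a c ∧ τ b c = τ b d ∧ τ c a = τ c b ∧ τ d a = τ d b := by
  obtain ⟨g, hg1, hg2, hg3⟩ := forward τ T S hT (T * T + 1 + 2) S (Finset.Subset.refl _) hcard
  let ic : Fin (T * T + 1 + 2) := ⟨T * T + 1, by omega⟩
  let id' : Fin (T * T + 1 + 2) := ⟨T * T + 2, by omega⟩
  let emb : Fin (T * T + 1) → Fin (T * T + 1 + 2) := fun i => ⟨i.1, by omega⟩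
  have hmaps : ∀ i ∈ (univ : Finset (Fin (T * T + 1))),
      (τ (g ic) (g (emb i)), τ (g id') (g (emb i))) ∈
        (S.image (τ (g ic))) ×ˢ (S.image (τ (g id'))) := by
    intro i _
    exact Finset.mem_product.2 ⟨mem_image_of_mem _ (hg2 _), mem_image_of_mem _ (hg2 _)⟩
  have hlt : ((S.image (τ (g ic))) ×ˢ (S.image (τ (g id')))).card
      < (univ : Finset (Fin (T * T + 1))).card := by
    rw [Finset.card_product, Finset.card_univ, Fintype.card_fin]
    have := Nat.mul_le_mul (hT _ (hg2 ic)) (hT _ (hg2 id'))
    omega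
  obtain ⟨i, _, j, _, hij, he⟩ := Finset.exists_ne_map_eq_of_card_lt_of_maps_to hlt hmaps
  -- order the two indices
  obtain ⟨p, q, hpq, he'⟩ : ∃ p q : Fin (T * T + 1), p < q ∧
      (τ (g ic) (g (emb p)), τ (g id') (g (emb p))) =
        (τ (g ic) (g (emb q)), τ (g id') (g (emb q))) := by
    rcases lt_or_gt_of_ne hij with h | h
    · exact ⟨i, j, h, he⟩
    · exact ⟨j, i, h, he.symm⟩
  have hpq' : emb p < emb q := hpq
  have hqc : emb q < ic := by
    change q.1 < T * T + 1
    exact q.2
  have hcd : ic < id' := by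
    change T * T + 1 < T * T + 2
    omega
  have hpc := hpq'.trans hqc
  have hqd := hqc.trans hcd
  have hpd := hpc.trans hcd
  refine ⟨g (emb p), g (emb q), g ic, g id', hg2 _, hg2 _, hg2 _, hg2 _,
    hg1.ne hpq'.ne, hg1.ne hpc.ne, hg1.ne hpd.ne, hg1.ne hqc.ne, hg1.ne hqd.ne, hg1.ne hcd.ne,
    hg3 _ _ _ hpq' hpc, hg3 _ _ _ hqc hqd, (Prod.mk.inj he').1, (Prod.mk.inj he').2⟩

/-- A set of `m` points of `I` avoiding a small set `E` of ordered quadruples. -/
theorem exists_clean {α : Type} [DecidableEq α] (m : ℕ) (hm : 4 ≤ m) (I : Finset α)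
    (E : Finset (Fin 4 → α)) (hE : m ^ 4 * (E.card + I.card ^ 3) < I.card ^ 4) :
    ∃ M ⊆ I, M.card = m ∧ ∀ x : Fin 4 → α, (∀ k, x k ∈ M) → Function.Injective x → x ∉ E := by
  classical
  -- add the quadruples with `x 0 = x 1`
  let D : Finset (Fin 4 → α) := (Fintype.piFinset fun _ : Fin 4 => I).filter fun x => x 0 = x 1
  have hD : D.card ≤ I.card ^ 3 := by
    have h1 : D.card ≤ (Fintype.piFinset fun _ : Fin 3 => I).card := by
      refine Finset.card_le_card_of_injOn (fun x => ![x 1, x 2, x 3]) ?_ ?_
      · intro x hx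
        have hx' := Fintype.mem_piFinset.1 (mem_filter.1 hx).1
        rw [Finset.mem_coe, Fintype.mem_piFinset]
        intro k
        fin_cases k
        · exact hx' 1
        · exact hx' 2
        · exact hx' 3
      · intro x hx y hy hxy
        have hx0 := (mem_filter.1 hx).2
        have hy0 := (mem_filter.1 hy).2
        have h1 := congrFun hxy 0
        have h2 := congrFun hxy 1
        have h3 := congrFun hxy 2
        dsimp at h1 h2 h3
        funext k
        fin_cases k
        · exact hx0.trans (h1.trans hy0.symm)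
        · exact h1
        · exact h2
        · exact h3
    rwa [Fintype.card_piFinset, Finset.prod_const, Finset.card_univ, Fintype.card_fin] at h1
  let E' := (E ∪ D).filter fun x => ∀ k, x k ∈ I
  have hE' : E'.card ≤ E.card + I.card ^ 3 :=
    (Finset.card_filter_le _ _).trans ((Finset.card_union_le _ _).trans (by omega))
  -- count the functions hitting `E'`
  have hcount : ∀ (φ : Fin 4 → Fin m), Function.Injective φ → ∀ e ∈ E',
      ((Fintype.piFinset fun _ : Fin m => I).filter fun f => f ∘ φ = e).card
        ≤ I.card ^ (m - 4) := by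
    intro φ hφ e _
    have h1 : ((Fintype.piFinset fun _ : Fin m => I).filter fun f => f ∘ φ = e).card ≤
        (Fintype.piFinset fun _ : {i : Fin m // i ∉ Set.range φ} => I).card := by
      refine Finset.card_le_card_of_injOn (fun f i => f i.1) ?_ ?_
      · intro f hf
        have hf' := Fintype.mem_piFinset.1 (mem_filter.1 hf).1
        rw [Finset.mem_coe, Fintype.mem_piFinset]
        intro i
        exact hf' i.1
      · intro f hf f' hf' hff
        funext i
        by_cases hi : i ∈ Set.range φ
        · obtain ⟨k, rfl⟩ := hi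
          have e1 := congrFun (mem_filter.1 hf).2 k
          have e2 := congrFun (mem_filter.1 hf').2 k
          exact e1.trans e2.symm
        · exact congrFun hff ⟨i, hi⟩
    refine h1.trans (le_of_eq ?_)
    rw [Fintype.card_piFinset, Finset.prod_const, Finset.card_univ]
    congr 1
    rw [Fintype.card_subtype_compl, Fintype.card_fin]
    congr 1
    have : Fintype.card {x // x ∈ Set.range φ} = Fintype.card (Fin 4) :=
      (Fintype.card_congr (Equiv.ofInjective φ hφ)).symm
    rw [Fintype.card_fin] at this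
    exact this
  -- a good function
  obtain ⟨f, hf, hgood⟩ : ∃ f ∈ (Fintype.piFinset fun _ : Fin m => I),
      ∀ φ : Fin 4 → Fin m, Function.Injective φ → f ∘ φ ∉ E' := by
    by_contra hcon
    push Not at hcon
    have hsub : (Fintype.piFinset fun _ : Fin m => I) ⊆
        ((univ : Finset (Fin 4 → Fin m)).filter Function.Injective).biUnion fun φ =>
          E'.biUnion fun e =>
            (Fintype.piFinset fun _ : Fin m => I).filter fun f => f ∘ φ = e := by
      intro f hf
      obtain ⟨φ, hφ, hm'⟩ := hcon f hf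
      rw [mem_biUnion]
      refine ⟨φ, mem_filter.2 ⟨mem_univ _, hφ⟩, ?_⟩
      rw [mem_biUnion]
      exact ⟨_, hm', mem_filter.2 ⟨hf, rfl⟩⟩
    have h1 := Finset.card_le_card hsub
    rw [Fintype.card_piFinset, Finset.prod_const, Finset.card_univ, Fintype.card_fin] at h1
    have h2 : ((((univ : Finset (Fin 4 → Fin m)).filter Function.Injective).biUnion fun φ =>
          E'.biUnion fun e =>
            (Fintype.piFinset fun _ : Fin m => I).filter fun f => f ∘ φ = e)).card
        ≤ m ^ 4 * (E'.card * I.card ^ (m - 4)) := by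
      refine Finset.card_biUnion_le.trans ?_
      refine (Finset.sum_le_sum (g := fun _ => E'.card * I.card ^ (m - 4)) fun φ hφ => ?_).trans ?_
      · refine Finset.card_biUnion_le.trans ?_
        refine (Finset.sum_le_sum (g := fun _ => I.card ^ (m - 4)) fun e he =>
          hcount φ (mem_filter.1 hφ).2 e he).trans ?_
        rw [Finset.sum_const, smul_eq_mul]
      · rw [Finset.sum_const, smul_eq_mul]
        apply Nat.mul_le_mul_right
        refine (Finset.card_filter_le _ _).trans ?_
        rw [Finset.card_univ, Fintype.card_fun, Fintype.card_fin, Fintype.card_fin]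
    have h3 : I.card ^ m = I.card ^ 4 * I.card ^ (m - 4) := by
      rw [← pow_add]
      congr 1
      omega
    have hIpos : 0 < I.card := by
      by_contra h0
      have : I.card = 0 := by omega
      rw [this] at hE
      simp at hE
    have h4 : 0 < I.card ^ (m - 4) := Nat.pow_pos hIpos
    have h5 : m ^ 4 * (E'.card * I.card ^ (m - 4)) < I.card ^ 4 * I.card ^ (m - 4) := by
      rw [← mul_assoc]
      apply Nat.mul_lt_mul_of_pos_right _ h4
      exact lt_of_le_of_lt (Nat.mul_le_mul_left _ hE') hE
    have := h1.trans h2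
    rw [h3] at this
    omega
  have hfI : ∀ i, f i ∈ I := Fintype.mem_piFinset.1 hf
  have hinj : Function.Injective f := by
    intro p q hpq
    by_contra hne
    -- extend `p, q` to four positions
    obtain ⟨r, hr⟩ : ∃ r, r ∉ ({p, q} : Finset (Fin m)) := by
      by_contra h
      push Not at h
      have := Finset.card_le_card (fun x _ => h x : (univ : Finset (Fin m)) ⊆ {p, q})
      rw [Finset.card_univ, Fintype.card_fin] at this
      have h2 := Finset.card_le_two (a := p) (b := q)
      omega
    obtain ⟨s, hs⟩ : ∃ s, s ∉ ({p, q, r} : Finset (Fin m)) := by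
      by_contra h
      push Not at h
      have := Finset.card_le_card (fun x _ => h x : (univ : Finset (Fin m)) ⊆ {p, q, r})
      rw [Finset.card_univ, Fintype.card_fin] at this
      have h2 := Finset.card_le_three (a := p) (b := q) (c := r)
      omega
    simp only [Finset.mem_insert, Finset.mem_singleton, not_or] at hr hs
    have hφ : Function.Injective (![p, q, r, s] : Fin 4 → Fin m) := by
      intro i j hij
      fin_cases i <;> fin_cases j <;> simp_all
    refine hgood _ hφ ?_
    refine mem_filter.2 ⟨mem_union_right _ (mem_filter.2 ⟨?_, ?_⟩), ?_⟩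
    · rw [Fintype.mem_piFinset]
      exact fun k => hfI _
    · exact hpq
    · exact fun k => hfI _
  refine ⟨univ.image f, ?_, ?_, ?_⟩
  · intro x hx
    obtain ⟨i, _, rfl⟩ := Finset.mem_image.1 hx
    exact hfI i
  · rw [Finset.card_image_of_injective _ hinj, Finset.card_univ, Fintype.card_fin]
  · intro x hx hxi hxE
    have : ∀ k, ∃ i, f i = x k := by
      intro k
      obtain ⟨i, _, hi⟩ := Finset.mem_image.1 (hx k)
      exact ⟨i, hi⟩
    choose φ hφ using this
    have hφi : Function.Injective φ := by
      intro i j hij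
      apply hxi
      rw [← hφ, ← hφ, hij]
    have hcomp : f ∘ φ = x := funext hφ
    refine hgood φ hφi ?_
    rw [hcomp]
    refine mem_filter.2 ⟨mem_union_left _ hxE, fun k => ?_⟩
    rw [← hφ]
    exact hfI _

end Q278.Homog
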