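import Mathlib

/-! Systems of signs and stars: the combinatorial form of the colourings of `K±(n,2,-1)`. -/

namespace Q278.KSys

open Finset

variable {V R : Type}

/-- the class `r` covers the pattern `j : s`, `k : s'` -/
def Cov (σ : V → R → Bool) (t : V → R → Option V) (j k : V) (s s' : Bool) (r : R) : Prop :=
  (t j r = none ∧ t k r = none ∧ σ j r = s ∧ σ k r = s') ∨
  (t j r = some k ∧ t k r = none ∧ σ k r = s') ∨
  (t k r = some j ∧ t j r = none ∧ σ j r = s)

theorem Cov.symm {σ : V → R → Bool} {t : V → R → Option V} {j k : V} {s s' : Bool} {r : R}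
    (h : Cov σ t j k s s' r) : Cov σ t k j s' s r := by
  rcases h with h | h | h
  · exact Or.inl ⟨h.2.1, h.1, h.2.2.2, h.2.2.1⟩
  · exact Or.inr (Or.inr h)
  · exact Or.inr (Or.inl h)

/-- a system on the points `W` with the classes `C` -/
def Sys (σ : V → R → Bool) (t : V → R → Option V) (W : Finset V) (C : Finset R) : Prop :=
  ∀ j ∈ W, ∀ k ∈ W, j ≠ k → ∀ s s', ∃ r ∈ C, Cov σ t j k s s' r

variable [DecidableEq V] [DecidableEq R]

/-- number of stars -/
def stars (t : V → R → Option V) (W : Finset V) (C : Finset R) : ℕ :=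
  ((W ×ˢ C).filter fun p => t p.1 p.2 ≠ none).card

/-- the system without stars -/
theorem sperner_bound (σ : V → R → Bool) (t : V → R → Option V) (W : Finset V) (C : Finset R)
    (h : Sys σ t W C) (h0 : ∀ j ∈ W, ∀ r ∈ C, t j r = none) (hW : 2 ≤ W.card) :
    2 * W.card ≤ C.card.choose (C.card / 2) := by
  classical
  let B : V × Bool → Finset {r // r ∈ C} := fun p => univ.filter fun r => σ p.1 r.1 = p.2
  have hcov : ∀ j ∈ W, ∀ k ∈ W, j ≠ k → ∀ s s', ∃ r : {r // r ∈ C}, σ j r.1 = s ∧ σ k r.1 = s' := by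
    intro j hj k hk hjk s s'
    obtain ⟨r, hr, hc⟩ := h j hj k hk hjk s s'
    refine ⟨⟨r, hr⟩, ?_⟩
    rcases hc with hc | hc | hc
    · exact ⟨hc.2.2.1, hc.2.2.2⟩
    · rw [h0 j hj r hr] at hc
      exact absurd hc.1 (by simp)
    · rw [h0 k hk r hr] at hc
      exact absurd hc.1 (by simp)
  have hns : ∀ p ∈ W ×ˢ (univ : Finset Bool), ∀ q ∈ W ×ˢ (univ : Finset Bool), p ≠ q →
      ¬ B p ⊆ B q := by
    rintro ⟨i, s⟩ hp ⟨j, s'⟩ hq hpq hsub
    have hi : i ∈ W := (mem_product.1 hp).1
    have hj : j ∈ W := (mem_product.1 hq).1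
    by_cases hij : i = j
    · subst hij
      have hss : s ≠ s' := fun e => hpq (by rw [e])
      obtain ⟨k, hk, hki⟩ := Finset.exists_mem_ne (by omega : 1 < W.card) i
      obtain ⟨r, hr, _⟩ := hcov i hi k hk hki.symm s true
      have h1 : r ∈ B (i, s) := mem_filter.2 ⟨mem_univ _, hr⟩
      have h2 := (mem_filter.1 (hsub h1)).2
      exact hss (hr.symm.trans h2)
    · obtain ⟨r, hr, hr'⟩ := hcov i hi j hj hij s (!s')
      have h1 : r ∈ B (i, s) := mem_filter.2 ⟨mem_univ _, hr⟩
      have h2 := (mem_filter.1 (hsub h1)).2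
      have h2' : σ j r.1 = s' := h2
      rw [h2'] at hr'
      cases s' <;> simp at hr'
  have hanti : IsAntichain (· ⊆ ·) (((W ×ˢ (univ : Finset Bool)).image B : Finset (Finset
      {r // r ∈ C})) : Set (Finset {r // r ∈ C})) := by
    intro X hX Y hY hXY
    obtain ⟨p, hp, rfl⟩ := mem_image.1 hX
    obtain ⟨q, hq, rfl⟩ := mem_image.1 hY
    exact hns p hp q hq fun e => hXY (by rw [e])
  have h1 := hanti.sperner
  rw [Finset.card_image_of_injOn, Finset.card_product] at h1
  · simp only [Finset.card_univ, Fintype.card_bool, Fintype.card_coe] at h1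
    omega
  · intro p hp q hq hpq
    by_contra hne
    exact hns p hp q hq hne (by rw [hpq])

/-- changing `k` -/
theorem improve (σ : V → R → Bool) (t : V → R → Option V) (W : Finset V) (C : Finset R)
    (h : Sys σ t W C) (k : V) (hk : k ∈ W) (Z : Finset R) (ε : R → Bool)
    (hZ : ∀ r ∈ Z, r ∈ C ∧ t k r ≠ none) (hZne : Z.Nonempty)
    (hfix : ∀ r ∈ Z, ∀ i ∈ W, t k r = some i → t i r = none → ∀ s', ∃ q ∈ C, t i q = none ∧
      σ i q = σ i r ∧ ((q ∈ Z ∧ ε q = s') ∨ (t k q = none ∧ σ k q = s'))) :
    ∃ σ' t', Sys σ' t' W C ∧ stars t' W C < stars t W C := by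
  let σ' : V → R → Bool := fun j r => if j = k ∧ r ∈ Z then ε r else σ j r
  let t' : V → R → Option V := fun j r => if j = k ∧ r ∈ Z then none else t j r
  have hσ' : ∀ j, j ≠ k → ∀ r, σ' j r = σ j r := fun j hj r => by simp [σ', hj]
  have ht' : ∀ j, j ≠ k → ∀ r, t' j r = t j r := fun j hj r => by simp [t', hj]
  have hσ'k : ∀ r, r ∉ Z → σ' k r = σ k r := fun r hr => by simp [σ', hr]
  have ht'k : ∀ r, r ∉ Z → t' k r = t k r := fun r hr => by simp [t', hr]
  have hσ'Z : ∀ r ∈ Z, σ' k r = ε r := fun r hr => by simp [σ', hr]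
  have ht'Z : ∀ r ∈ Z, t' k r = none := fun r hr => by simp [t', hr]
  have hk1 : ∀ l ∈ W, l ≠ k → ∀ s s', ∃ r ∈ C, Cov σ' t' k l s s' r := by
    intro l hl hlk s s'
    obtain ⟨r, hr, hc⟩ := h k hk l hl hlk.symm s s'
    rcases hc with hc | hc | hc
    · have hrZ : r ∉ Z := fun hrZ => (hZ r hrZ).2 hc.1
      refine ⟨r, hr, Or.inl ⟨?_, ?_, ?_, ?_⟩⟩
      · rw [ht'k r hrZ]; exact hc.1
      · rw [ht' l hlk]; exact hc.2.1
      · rw [hσ'k r hrZ]; exact hc.2.2.1
      · rw [hσ' l hlk]; exact hc.2.2.2
    · by_cases hrZ : r ∈ Z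
      · obtain ⟨q, hq, h1, h2, h3⟩ := hfix r hrZ l hl hc.1 hc.2.1 s
        refine ⟨q, hq, Or.inl ⟨?_, ?_, ?_, ?_⟩⟩
        · rcases h3 with h3 | h3
          · exact ht'Z q h3.1
          · by_cases hqZ : q ∈ Z
            · exact ht'Z q hqZ
            · rw [ht'k q hqZ]; exact h3.1
        · rw [ht' l hlk]; exact h1
        · rcases h3 with h3 | h3
          · rw [hσ'Z q h3.1]; exact h3.2
          · have hqZ : q ∉ Z := fun hqZ => (hZ q hqZ).2 h3.1
            rw [hσ'k q hqZ]; exact h3.2
        · rw [hσ' l hlk, h2]; exact hc.2.2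
      · refine ⟨r, hr, Or.inr (Or.inl ⟨?_, ?_, ?_⟩)⟩
        · rw [ht'k r hrZ]; exact hc.1
        · rw [ht' l hlk]; exact hc.2.1
        · rw [hσ' l hlk]; exact hc.2.2
    · have hrZ : r ∉ Z := fun hrZ => (hZ r hrZ).2 hc.2.1
      refine ⟨r, hr, Or.inr (Or.inr ⟨?_, ?_, ?_⟩)⟩
      · rw [ht' l hlk]; exact hc.1
      · rw [ht'k r hrZ]; exact hc.2.1
      · rw [hσ'k r hrZ]; exact hc.2.2
  refine ⟨σ', t', ?_, ?_⟩
  · intro j hj l hl hjl s s'
    by_cases h1 : j = k
    · subst h1
      exact hk1 l hl hjl.symm s s'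
    · by_cases h2 : l = k
      · subst h2
        obtain ⟨r, hr, hc⟩ := hk1 j hj hjl s' s
        exact ⟨r, hr, hc.symm⟩
      · obtain ⟨r, hr, hc⟩ := h j hj l hl hjl s s'
        refine ⟨r, hr, ?_⟩
        unfold Cov at hc ⊢
        rw [ht' j h1, ht' l h2, hσ' j h1, hσ' l h2]
        exact hc
  · refine Finset.card_lt_card ?_
    rw [Finset.ssubset_iff_subset_ne]
    constructor
    · intro p hp
      rw [mem_filter] at hp ⊢
      refine ⟨hp.1, ?_⟩
      intro h0
      apply hp.2
      simp only [t']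
      split_ifs
      · rfl
      · exact h0
    · intro heq
      obtain ⟨r, hr⟩ := hZne
      have h1 : (k, r) ∈ (W ×ˢ C).filter fun p => t p.1 p.2 ≠ none :=
        mem_filter.2 ⟨mem_product.2 ⟨hk, (hZ r hr).1⟩, (hZ r hr).2⟩
      rw [← heq] at h1
      exact (mem_filter.1 h1).2 (ht'Z r hr)

/-- In a system with the least number of stars, almost all points are stars where `k` is. -/
theorem common_star (σ : V → R → Bool) (t : V → R → Option V) (W : Finset V) (C : Finset R)
    (h : Sys σ t W C) (hmin : ∀ σ' t', Sys σ' t' W C → stars t W C ≤ stars t' W C)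
    (k : V) (hk : k ∈ W) (v : V) (hv : v ∈ W)
    (hv1 : ∀ r ∈ C, t k r ≠ some v)
    (hv2 : ∀ r ∈ C, ∀ i, t k r = some i → ∀ q ∈ C, t i q ≠ some v)
    (r0 : R) (hr0 : r0 ∈ C) (hkr0 : t k r0 ≠ none) : t v r0 ≠ none := by
  classical
  -- no improvement
  have star : ∀ (Z : Finset R) (ε : R → Bool), (∀ r ∈ Z, r ∈ C ∧ t k r ≠ none) → Z.Nonempty →
      ∃ r ∈ Z, ∃ i ∈ W, t k r = some i ∧ t i r = none ∧ ∃ s', ∀ q ∈ C, t i q = none →
        σ i q = σ i r → ¬ (q ∈ Z ∧ ε q = s') ∧ ¬ (t k q = none ∧ σ k q = s') := by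
    intro Z ε hZ hZne
    by_contra hcon
    obtain ⟨σ', t', h1, h2⟩ := improve σ t W C h k hk Z ε hZ hZne (by
      intro r hr i hi hkr hir s'
      by_contra hcon2
      apply hcon
      refine ⟨r, hr, i, hi, hkr, hir, s', ?_⟩
      intro q hq h1 h2
      constructor
      · intro h3
        exact hcon2 ⟨q, hq, h1, h2, Or.inl h3⟩
      · intro h3
        exact hcon2 ⟨q, hq, h1, h2, Or.inr h3⟩)
    have := hmin σ' t' h1
    omega
  -- the sign sets of the targets lie in the star set of `k`
  have hH : ∀ r ∈ C, ∀ i, t k r = some i → t i r = none → ∀ q ∈ C, t i q = none →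
      σ i q = σ i r → t k q ≠ none := by
    intro r hr i hkr hir q hq hiq hσ hkq
    have hZ : ∀ r' ∈ ({r} : Finset R), r' ∈ C ∧ t k r' ≠ none := by
      intro r' hr'
      rw [Finset.mem_singleton] at hr'
      subst hr'
      refine ⟨hr, ?_⟩
      rw [hkr]
      simp
    obtain ⟨r', hr', i', _, hkr', _, s', hs'⟩ := star {r} (fun _ => !(σ k q)) hZ ⟨r, by simp⟩
    rw [Finset.mem_singleton] at hr'
    subst hr'
    rw [hkr] at hkr'
    have hii : i = i' := Option.some_injective _ hkr'
    subst hii
    have h1 := (hs' r' hr hir rfl).1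
    have h2 := (hs' q hq hiq hσ).2
    apply h2
    refine ⟨hkq, ?_⟩
    by_contra hne
    apply h1
    refine ⟨by simp, ?_⟩
    show (!(σ k q)) = s'
    revert hne
    cases σ k q <;> cases s' <;> simp
  intro hvr0
  -- the maximal pair
  let Z0 : Finset R := C.filter fun r => t k r ≠ none ∧ t v r = none
  let P : Finset R → (R → Bool) → Prop := fun Z ε => Z0 ⊆ Z ∧ (∀ r ∈ Z, r ∈ C ∧ t k r ≠ none) ∧
    (∀ q ∈ Z0, ε q = σ v q) ∧ ∀ q ∈ Z, q ∉ Z0 → ∀ i, t v q = some i → ∀ s', ∃ p ∈ Z,
      t i p = none ∧ σ i p = σ i q ∧ ε p = s'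
  have hP0 : P Z0 (σ v) := by
    refine ⟨Finset.Subset.refl _, ?_, fun _ _ => rfl, ?_⟩
    · intro r hr
      exact ⟨(mem_filter.1 hr).1, (mem_filter.1 hr).2.1⟩
    · intro q hq hq'
      exact absurd hq hq'
  have hZ0 : r0 ∈ Z0 := mem_filter.2 ⟨hr0, hkr0, hvr0⟩
  let 𝒮 : Finset (Finset R) := C.powerset.filter fun Z => ∃ ε, P Z ε
  have h𝒮 : 𝒮.Nonempty := ⟨Z0, mem_filter.2 ⟨Finset.mem_powerset.2 (Finset.filter_subset _ _),
    _, hP0⟩⟩
  obtain ⟨Z, hZmem, hZmax⟩ := Finset.exists_max_image 𝒮 Finset.card h𝒮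
  obtain ⟨ε, hP1, hP2, hP3, hP4⟩ := (mem_filter.1 hZmem).2
  obtain ⟨r, hr, i, hi, hkr, hir, s', hs'⟩ := star Z ε hP2 ⟨r0, hP1 hZ0⟩
  have hrC := (hP2 r hr).1
  have hεr : ε r = !s' := by
    have := (hs' r hrC hir rfl).1
    by_contra hne
    apply this
    refine ⟨hr, ?_⟩
    revert hne
    cases ε r <;> cases s' <;> simp
  have hvi : v ≠ i := by
    rintro rfl
    exact hv1 r hrC hkr
  obtain ⟨q, hq, hc⟩ := h v hv i hi hvi s' (σ i r)
  rcases hc with ⟨c1, c2, c3, c4⟩ | ⟨c1, c2, c3⟩ | ⟨c1, c2, c3⟩
  · -- pure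
    have hkq := hH r hrC i hkr hir q hq c2 c4
    have hqZ0 : q ∈ Z0 := mem_filter.2 ⟨hq, hkq, c1⟩
    exact (hs' q hq c2 c4).1 ⟨hP1 hqZ0, (hP3 q hqZ0).trans c3⟩
  · have hkq := hH r hrC i hkr hir q hq c2 c3
    have hqZ0 : q ∉ Z0 := by
      intro hq0
      have := (mem_filter.1 hq0).2.2
      rw [c1] at this
      simp at this
    by_cases hqZ : q ∈ Z
    · obtain ⟨p, hp, hp1, hp2, hp3⟩ := hP4 q hqZ hqZ0 i c1 s'
      exact (hs' p (hP2 p hp).1 hp1 (hp2.trans c3)).1 ⟨hp, hp3⟩
    · -- enlarge
      have hnew : insert q Z ∈ 𝒮 := by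
        refine mem_filter.2 ⟨Finset.mem_powerset.2 ?_, Function.update ε q s', ?_, ?_, ?_, ?_⟩
        · intro x hx
          rcases Finset.mem_insert.1 hx with rfl | hx
          · exact hq
          · exact (hP2 x hx).1
        · exact hP1.trans (Finset.subset_insert _ _)
        · intro x hx
          rcases Finset.mem_insert.1 hx with rfl | hx
          · exact ⟨hq, hkq⟩
          · exact hP2 x hx
        · intro x hx
          rw [Function.update_of_ne (by rintro rfl; exact hqZ0 hx)]
          exact hP3 x hx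
        · intro x hx hx0 j hvj s''
          rcases Finset.mem_insert.1 hx with rfl | hx
          · rw [c1] at hvj
            have hij : i = j := Option.some_injective _ hvj
            subst hij
            by_cases hs : s'' = s'
            · refine ⟨x, Finset.mem_insert_self _ _, c2, rfl, ?_⟩
              rw [Function.update_self, hs]
            · refine ⟨r, Finset.mem_insert_of_mem hr, hir, c3.symm, ?_⟩
              rw [Function.update_of_ne (by rintro rfl; exact hqZ hr), hεr]
              revert hs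
              cases s'' <;> cases s' <;> simp
          · obtain ⟨p, hp, hp1, hp2, hp3⟩ := hP4 x hx hx0 j hvj s''
            refine ⟨p, Finset.mem_insert_of_mem hp, hp1, hp2, ?_⟩
            rw [Function.update_of_ne (by rintro rfl; exact hqZ hp)]
            exact hp3
      have := hZmax _ hnew
      rw [Finset.card_insert_of_notMem hqZ] at this
      omega
  · exact hv2 r hrC i hkr q hq c1

theorem choose_half_mono (c : ℕ) : c.choose (c / 2) ≤ (c + 1).choose ((c + 1) / 2) := by
  rcases Nat.even_or_odd c with ⟨a, ha⟩ | ⟨a, ha⟩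
  · have h1 : (c + 1) / 2 = c / 2 := by omega
    rw [h1]
    exact Nat.choose_le_choose _ (Nat.le_succ _)
  · have h1 : (c + 1) / 2 = c / 2 + 1 := by omega
    rw [h1, Nat.choose_succ_succ]
    exact Nat.le_add_right _ _

/-- **The bound.** -/
theorem bound (c : ℕ) : ∀ (C : Finset R) (W : Finset V) (σ : V → R → Bool)
    (t : V → R → Option V), C.card = c → Sys σ t W C →
    2 * W.card ≤ 2 * (c + 1) ^ 3 + 2 + c.choose (c / 2) := by
  induction c with
  | zero =>
    intro C W σ t hC h
    have hC0 : C = ∅ := Finset.card_eq_zero.1 hC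
    by_contra hcon
    push Not at hcon
    have h2 : 1 < W.card := by
      by_contra h3
      have h4 : W.card ≤ 1 := by omega
      have : 2 * W.card ≤ 2 * (0 + 1) ^ 3 + 2 + Nat.choose 0 (0 / 2) := by
        simp
        omega
      omega
    obtain ⟨a, ha, b, hb, hab⟩ := Finset.one_lt_card.1 h2
    obtain ⟨r, hr, _⟩ := h a ha b hb hab true true
    rw [hC0] at hr
    simp at hr
  | succ c ih =>
    intro C W
    -- strong induction on the number of stars
    have main : ∀ N : ℕ, ∀ (σ : V → R → Bool) (t : V → R → Option V), stars t W C = N →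
        C.card = c + 1 → Sys σ t W C →
        2 * W.card ≤ 2 * (c + 1 + 1) ^ 3 + 2 + (c + 1).choose ((c + 1) / 2) := by
      intro N
      induction N using Nat.strong_induction_on with
      | _ N ihN =>
        intro σ t hN hC h
        by_cases hbet : ∃ σ' t', Sys σ' t' W C ∧ stars t' W C < stars t W C
        · obtain ⟨σ', t', h1, h2⟩ := hbet
          exact ihN _ (by omega) σ' t' rfl hC h1
        · have hmin : ∀ σ' t', Sys σ' t' W C → stars t W C ≤ stars t' W C := by
            intro σ' t' h1
            by_contra h2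
            exact hbet ⟨σ', t', h1, by omega⟩
          by_cases hst : ∃ k ∈ W, ∃ r ∈ C, t k r ≠ none
          · obtain ⟨k, hk, r0, hr0, hkr0⟩ := hst
            let T1 : Finset V := C.biUnion fun r => (t k r).toFinset
            let T2 : Finset V := T1.biUnion fun i => C.biUnion fun q => (t i q).toFinset
            have htf : ∀ o : Option V, o.toFinset.card ≤ 1 := by
              intro o
              cases o <;> simp
            have hT1 : T1.card ≤ c + 1 := by
              refine (Finset.card_biUnion_le_card_mul _ _ 1 fun r _ => htf _).trans ?_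
              rw [hC, mul_one]
            have hT2 : T2.card ≤ (c + 1) * (c + 1) := by
              refine (Finset.card_biUnion_le_card_mul _ _ (c + 1) fun i _ => ?_).trans
                (Nat.mul_le_mul_right _ hT1)
              refine (Finset.card_biUnion_le_card_mul _ _ 1 fun r _ => htf _).trans ?_
              rw [hC, mul_one]
            let Bad : Finset V := T1 ∪ T2
            have hBad : Bad.card ≤ (c + 1) + (c + 1) * (c + 1) :=
              (Finset.card_union_le T1 T2).trans (Nat.add_le_add hT1 hT2)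
            have hW' : ∀ v ∈ W \ Bad, t v r0 ≠ none := by
              intro v hv
              obtain ⟨hv1, hv2⟩ := Finset.mem_sdiff.1 hv
              refine common_star σ t W C h hmin k hk v hv1 ?_ ?_ r0 hr0 hkr0
              · intro r hr hkv
                apply hv2
                refine mem_union_left _ (mem_biUnion.2 ⟨r, hr, ?_⟩)
                rw [hkv]
                simp
              · intro r hr i hki q hq hiv
                apply hv2
                refine mem_union_right _ (mem_biUnion.2 ⟨i, ?_, ?_⟩)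
                · refine mem_biUnion.2 ⟨r, hr, ?_⟩
                  rw [hki]
                  simp
                · refine mem_biUnion.2 ⟨q, hq, ?_⟩
                  rw [hiv]
                  simp
            have hsys : Sys σ t (W \ Bad) (C.erase r0) := by
              intro j hj l hl hjl s s'
              obtain ⟨r, hr, hc⟩ := h j (Finset.mem_sdiff.1 hj).1 l (Finset.mem_sdiff.1 hl).1
                hjl s s'
              refine ⟨r, ?_, hc⟩
              rw [Finset.mem_erase]
              refine ⟨?_, hr⟩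
              rintro rfl
              rcases hc with hc | hc | hc
              · exact hW' j hj hc.1
              · exact hW' l hl hc.2.1
              · exact hW' j hj hc.2.1
            have hcard : (C.erase r0).card = c := by
              rw [Finset.card_erase_of_mem hr0, hC]
              rfl
            have h1 := ih (C.erase r0) (W \ Bad) σ t hcard hsys
            have h2 : W.card ≤ (W \ Bad).card + Bad.card := by
              have := Finset.card_le_card_sdiff_add_card (s := W) (t := Bad)
              omega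
            have h3 := choose_half_mono c
            have h4 : 2 * (c + 1) ^ 3 + 2 * ((c + 1) + (c + 1) * (c + 1))
                ≤ 2 * (c + 1 + 1) ^ 3 := by
              nlinarith [Nat.zero_le c]
            omega
          · push Not at hst
            by_cases hW : 2 ≤ W.card
            · have := sperner_bound σ t W C h hst hW
              rw [hC] at this
              omega
            · omega
    intro σ t hC h
    exact main _ σ t rfl hC h

end Q278.KSys
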