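import Mathlib

set_option autoImplicit false

/-! # No lonely colour graphs of unbounded chromatic number -/

namespace Pool.Agent.Q278.LonelyUnbounded

/-- Property (i): every vertex meets at most two edges of each colour. (Only the values of `c` on
the edges of `X` matter.) -/
def AtMostTwoOfEachColour {V κ : Type} (X : SimpleGraph V) (c : Sym2 V → κ) : Prop :=
  ∀ (v : V) (k : κ), {e | e ∈ X.incidenceSet v ∧ c e = k}.encard ≤ 2

/-- `X` is a no pied circuit graph: some edge colouring satisfies (i) and (ii): in every circuit at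
least two edges have the same colour. -/
def IsNoPiedCircuitGraph {V : Type} (X : SimpleGraph V) : Prop :=
  ∃ (κ : Type) (c : Sym2 V → κ), AtMostTwoOfEachColour X c ∧
    ∀ (u : V) (p : X.Walk u u), p.IsCycle →
      ∃ e ∈ p.edges, ∃ e' ∈ p.edges, e' ≠ e ∧ c e' = c e

/-- `X` is a no lonely colour graph: some edge colouring satisfies (i) and (iii): in every circuit,
each edge has the same colour as some other edge of that circuit. -/
def IsNoLonelyColourGraph {V : Type} (X : SimpleGraph V) : Prop :=
  ∃ (κ : Type) (c : Sym2 V → κ), AtMostTwoOfEachColour X c ∧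
    ∀ (u : V) (p : X.Walk u u), p.IsCycle →
      ∀ e ∈ p.edges, ∃ e' ∈ p.edges, e' ≠ e ∧ c e' = c e

theorem IsNoLonelyColourGraph.noPied {V : Type} {X : SimpleGraph V}
    (h : IsNoLonelyColourGraph X) : IsNoPiedCircuitGraph X := by
  obtain ⟨κ, c, h1, h2⟩ := h
  refine ⟨κ, c, h1, fun u p hp => ?_⟩
  have hne : p.edges ≠ [] := by
    intro h
    have h3 := hp.three_le_length
    have h4 := p.length_edges
    rw [h] at h4
    simp at h4
    omega
  obtain ⟨e, he⟩ := List.exists_mem_of_ne_nil _ hne
  exact ⟨e, he, h2 u p hp e he⟩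

section construction

variable (k q : ℕ)

/-- the lines of the grid `[q]^(k+1)`: a direction and the other coordinates -/
abbrev Line := Fin (k + 1) × (Fin k → Fin q)

/-- ordered pairs of different points of `[q]` -/
abbrev Pr := {p : Fin q × Fin q // p.1 ≠ p.2}

variable {k q}

/-- the graph with one edge on every line, chosen by `e` -/
def gr (e : Line k q → Pr q) : SimpleGraph (Fin (k + 1) → Fin q) where
  Adj x y := ∃ i, i.removeNth x = i.removeNth y ∧
    ((e (i, i.removeNth x)).1 = (x i, y i) ∨ (e (i, i.removeNth x)).1 = (y i, x i))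
  symm := ⟨by
    rintro x y ⟨i, h, h'⟩
    exact ⟨i, h.symm, by rw [← h]; exact h'.symm⟩⟩
  loopless := ⟨by
    rintro x ⟨i, _, h⟩
    have := (e (i, i.removeNth x)).2
    rcases h with h | h <;> rw [h] at this <;> exact this rfl⟩

theorem removeNth_eq {i j : Fin (k + 1)} {x y : Fin (k + 1) → Fin q}
    (h : i.removeNth x = i.removeNth y) (hj : j ≠ i) : x j = y j := by
  obtain ⟨l, rfl⟩ := Fin.exists_succAbove_eq hj
  exact congrFun h l

/-- the colour of an edge: the set of coordinates in which its ends differ -/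
def col : Sym2 (Fin (k + 1) → Fin q) → Finset (Fin (k + 1)) :=
  Sym2.lift ⟨fun x y => Finset.univ.filter (fun i => x i ≠ y i), by
    intro x y
    ext i
    simp [ne_comm]⟩

theorem col_mk (x y : Fin (k + 1) → Fin q) :
    col s(x, y) = Finset.univ.filter (fun i => x i ≠ y i) := rfl

theorem gr_adj_ne {e : Line k q → Pr q} {x y : Fin (k + 1) → Fin q} {i : Fin (k + 1)}
    (h' : (e (i, i.removeNth x)).1 = (x i, y i) ∨ (e (i, i.removeNth x)).1 = (y i, x i)) :
    x i ≠ y i := by
  have := (e (i, i.removeNth x)).2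
  rcases h' with h | h <;> rw [h] at this
  · exact this
  · exact fun h => this h.symm

theorem col_adj {e : Line k q → Pr q} {x y : Fin (k + 1) → Fin q} {i : Fin (k + 1)}
    (h : i.removeNth x = i.removeNth y)
    (h' : (e (i, i.removeNth x)).1 = (x i, y i) ∨ (e (i, i.removeNth x)).1 = (y i, x i)) :
    col s(x, y) = {i} := by
  rw [col_mk]
  ext j
  simp only [Finset.mem_filter, Finset.mem_univ, true_and, Finset.mem_singleton]
  constructor
  · intro hj
    by_contra hji
    exact hj (removeNth_eq h hji)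
  · rintro rfl
    exact gr_adj_ne h'

theorem gr_two (e : Line k q → Pr q) : AtMostTwoOfEachColour (gr e) col := by
  intro v K
  have : {f | f ∈ (gr e).incidenceSet v ∧ col f = K}.Subsingleton := by
    rintro f ⟨hf, hfK⟩ g ⟨hg, hgK⟩
    obtain ⟨y, rfl⟩ := hf.2
    obtain ⟨z, rfl⟩ := hg.2
    obtain ⟨i, hi, hi'⟩ : (gr e).Adj v y := hf.1
    obtain ⟨j, hj, hj'⟩ : (gr e).Adj v z := hg.1
    rw [col_adj hi hi'] at hfK
    rw [col_adj hj hj', ← hfK] at hgK
    have hij : j = i := Finset.singleton_injective hgK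
    subst hij
    have hyz : y = z := by
      funext l
      by_cases hl : l = j
      · subst hl
        have hv := (e (l, l.removeNth v)).2
        rcases hi' with h1 | h1 <;> rcases hj' with h2 | h2
        · rw [h1] at h2; exact (Prod.ext_iff.mp h2).2
        · rw [h1] at h2 hv
          exact absurd (Prod.ext_iff.mp h2).2.symm hv
        · rw [h1] at h2 hv
          exact absurd (Prod.ext_iff.mp h2).2 (fun h => hv ((Prod.ext_iff.mp h2).1.trans (by
            have := (Prod.ext_iff.mp h2).1
            simp only at this ⊢)))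
        · rw [h1] at h2; exact (Prod.ext_iff.mp h2).1
      · rw [← removeNth_eq hi hl, removeNth_eq hj hl]
    rw [hyz]
  exact (Set.encard_le_one_iff_subsingleton.mpr this).trans (by norm_num)

/-- a walk in which exactly one edge changes coordinate `i` changes coordinate `i` -/
theorem walk_change {X : SimpleGraph (Fin (k + 1) → Fin q)} (i : Fin (k + 1))
    (f : Sym2 (Fin (k + 1) → Fin q)) (hf : i ∈ col f) :
    ∀ {a b : Fin (k + 1) → Fin q} (p : X.Walk a b), p.edges.Nodup →
      (∀ f' ∈ p.edges, f' ≠ f → i ∉ col f') → (f ∈ p.edges ↔ a i ≠ b i) := by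
  intro a b p
  induction p with
  | nil => simp
  | @cons a c b h p ih =>
    intro hnd hall
    rw [SimpleGraph.Walk.edges_cons, List.nodup_cons] at hnd
    have ih' := ih hnd.2 (fun f' hf' => hall f' (by simp [hf']))
    rw [SimpleGraph.Walk.edges_cons, List.mem_cons]
    by_cases hac : f = s(a, c)
    · have hf' : f ∉ p.edges := by rw [hac]; exact hnd.1
      have hcb : c i = b i := by
        by_contra hcb
        exact hf' (ih'.mpr hcb)
      have hai : a i ≠ c i := by
        rw [hac, col_mk] at hf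
        simpa using hf
      simp only [hac, true_or, true_iff]
      rw [← hcb]
      exact hai
    · have hai : a i = c i := by
        have := hall s(a, c) (by simp) (fun h => hac h.symm)
        rw [col_mk] at this
        simpa using this
      rw [hai]
      simp only [hac, false_or]
      exact ih'

theorem gr_lonely (e : Line k q → Pr q) : IsNoLonelyColourGraph (gr e) := by
  refine ⟨_, col, gr_two e, ?_⟩
  intro u p hp f hf
  have hfe : f ∈ (gr e).edgeSet := p.edges_subset_edgeSet hf
  revert hfe hf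
  induction f using Sym2.ind with
  | _ x y =>
    intro hf hfe
    obtain ⟨i, hi, hi'⟩ : (gr e).Adj x y := hfe
    have hc := col_adj hi hi'
    by_contra hcon
    push Not at hcon
    have hnd : p.edges.Nodup := hp.edges_nodup
    have := (walk_change i s(x, y) (by rw [hc]; simp) p hnd ?_).mp hf
    · exact this rfl
    · intro f' hf' hne him
      apply hcon f' hf' hne
      rw [hc]
      have hfe' : f' ∈ (gr e).edgeSet := p.edges_subset_edgeSet hf'
      revert hfe' him
      induction f' using Sym2.ind with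
      | _ x' y' =>
        intro him hfe'
        obtain ⟨j, hj, hj'⟩ : (gr e).Adj x' y' := hfe'
        rw [col_adj hj hj'] at him ⊢
        rw [Finset.mem_singleton.mp him]

/-- the choices of edges for which `c` is proper -/
def good {m : ℕ} (c : (Fin (k + 1) → Fin q) → Fin m) : Finset (Line k q → Pr q) :=
  Fintype.piFinset fun l : Line k q => Finset.univ.filter fun p : Pr q =>
    c (l.1.insertNth p.1.1 l.2) ≠ c (l.1.insertNth p.1.2 l.2)

theorem card_good {m : ℕ} (hm : m < q) (c : (Fin (k + 1) → Fin q) → Fin m) :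
    (good c).card ≤ (Fintype.card (Pr q) - 1) ^ ((k + 1) * q ^ k) := by
  have h1 : Fintype.card (Line k q) = (k + 1) * q ^ k := by
    simp [Line]
  rw [good, Fintype.card_piFinset, ← h1]
  refine (Finset.prod_le_pow_card _ _ (Fintype.card (Pr q) - 1) ?_).trans_eq
    (by rw [Finset.card_univ])
  intro l _
  obtain ⟨a, b, hab, hc⟩ := Fintype.exists_ne_map_eq_of_card_lt
    (fun a : Fin q => c (l.1.insertNth a l.2)) (by simpa using hm)
  have h2 : (Finset.univ.filter fun p : Pr q =>
      c (l.1.insertNth p.1.1 l.2) ≠ c (l.1.insertNth p.1.2 l.2)) ⊂ Finset.univ := by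
    rw [Finset.ssubset_univ_iff]
    intro h
    have h3 : (⟨(a, b), hab⟩ : Pr q) ∈ (Finset.univ.filter fun p : Pr q =>
      c (l.1.insertNth p.1.1 l.2) ≠ c (l.1.insertNth p.1.2 l.2)) := by rw [h]; simp
    exact (Finset.mem_filter.mp h3).2 hc
  have h3 := Finset.card_lt_card h2
  rw [Finset.card_univ] at h3
  omega

theorem mem_good {m : ℕ} {e : Line k q → Pr q} (c : (gr e).Coloring (Fin m)) :
    e ∈ good (fun x => c x) := by
  rw [good, Fintype.mem_piFinset]
  intro l
  rw [Finset.mem_filter]
  refine ⟨Finset.mem_univ _, c.valid ?_⟩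
  refine ⟨l.1, by simp, Or.inl ?_⟩
  simp

theorem exists_not_colorable (m : ℕ) :
    ∃ (k : ℕ) (e : Line k (m + 2) → Pr (m + 2)), ¬ (gr e).Colorable m := by
  set q := m + 2 with hq
  set N := Fintype.card (Pr q) with hN
  have hNpos : 0 < N := by
    rw [hN, Fintype.card_pos_iff]
    exact ⟨⟨(⟨0, by omega⟩, ⟨1, by omega⟩), by simp⟩⟩
  -- choice of the dimension
  obtain ⟨k, hk⟩ : ∃ k : ℕ, m ^ q * (N - 1) ^ (k + 1) < N ^ (k + 1) := by
    have hb : ((N - 1 : ℕ) : ℝ) / N < 1 := by
      rw [div_lt_one (by exact_mod_cast hNpos)]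
      exact_mod_cast Nat.sub_lt hNpos one_pos
    have hb0 : 0 ≤ ((N - 1 : ℕ) : ℝ) / N := by positivity
    obtain ⟨n, hn⟩ := exists_pow_lt_of_lt_one
      (show (0 : ℝ) < 1 / ((m : ℝ) ^ q + 1) by positivity) hb
    refine ⟨n, ?_⟩
    have h1 : (((N - 1 : ℕ) : ℝ) / N) ^ (n + 1) < 1 / ((m : ℝ) ^ q + 1) :=
      lt_of_le_of_lt (pow_le_pow_of_le_one hb0 hb.le (Nat.le_succ n)) hn
    rw [div_pow, div_lt_div_iff₀ (by positivity) (by positivity), one_mul] at h1
    have h2 : (m : ℝ) ^ q * ((N - 1 : ℕ) : ℝ) ^ (n + 1) < (N : ℝ) ^ (n + 1) := by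
      have h3 : (0 : ℝ) ≤ ((N - 1 : ℕ) : ℝ) ^ (n + 1) := by positivity
      nlinarith
    exact_mod_cast h2
  refine ⟨k, ?_⟩
  by_contra hcon
  push Not at hcon
  have hcov : (Finset.univ : Finset (Line k q → Pr q)) ⊆
      (Finset.univ : Finset ((Fin (k + 1) → Fin q) → Fin m)).biUnion good := by
    intro e _
    obtain ⟨c⟩ := hcon e
    rw [Finset.mem_biUnion]
    exact ⟨fun x => c x, Finset.mem_univ _, mem_good c⟩
  have h1 := (Finset.card_le_card hcov).trans Finset.card_biUnion_le
  have h2 : (Finset.univ : Finset (Line k q → Pr q)).card = N ^ ((k + 1) * q ^ k) := by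
    rw [Finset.card_univ, Fintype.card_fun]
    congr 1
    simp [Line]
  have h3 : ∑ c ∈ (Finset.univ : Finset ((Fin (k + 1) → Fin q) → Fin m)), (good c).card ≤
      m ^ (q ^ (k + 1)) * (N - 1) ^ ((k + 1) * q ^ k) := by
    refine (Finset.sum_le_card_nsmul _ _ _ (fun c _ => card_good (by omega) c)).trans ?_
    rw [Finset.card_univ, smul_eq_mul]
    simp [← hN]
  rw [h2] at h1
  have h4 := h1.trans h3
  have h5 : m ^ (q ^ (k + 1)) * (N - 1) ^ ((k + 1) * q ^ k) =
      (m ^ q * (N - 1) ^ (k + 1)) ^ (q ^ k) := by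
    rw [mul_pow, ← pow_mul, ← pow_mul]
    congr 2
    ring
  have h6 : N ^ ((k + 1) * q ^ k) = (N ^ (k + 1)) ^ (q ^ k) := by rw [← pow_mul]
  rw [h5, h6] at h4
  have h7 : (m ^ q * (N - 1) ^ (k + 1)) ^ (q ^ k) < (N ^ (k + 1)) ^ (q ^ k) :=
    Nat.pow_lt_pow_left hk (by positivity)
  omega

end construction

/-- For every `m` there is a finite no lonely colour graph (which is therefore also a no pied circuit
graph) with chromatic number greater than `m`. -/
theorem result : ∀ m : ℕ, ∃ (V : Type) (_ : Finite V) (X : SimpleGraph V),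
    IsNoLonelyColourGraph X ∧ IsNoPiedCircuitGraph X ∧ (m : ℕ∞) < X.chromaticNumber := by
  intro m
  obtain ⟨k, e, he⟩ := exists_not_colorable m
  refine ⟨Fin (k + 1) → Fin (m + 2), inferInstance, gr e, gr_lonely e, (gr_lonely e).noPied, ?_⟩
  rw [← not_le, SimpleGraph.chromaticNumber_le_iff_colorable]
  exact he

end Pool.Agent.Q278.LonelyUnbounded
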