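import Pool.Agent.Q278.FracMyc

/-! Chromatic relatedness and the paw: a graph which splits into three sets without induced paw
splits into two sets none of which contains both `K_7` and a given triangle-free graph of
chromatic number at least seven. -/

namespace Q278.PawCR

open Finset

/-- `c` is a colouring of the vertices of `H` such that no colour class induces a subgraph of `H`
which contains `F` as an induced subgraph. -/
def FreeColouring {W U κ : Type} (H : SimpleGraph W) (F : SimpleGraph U) (c : W → κ) : Prop :=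
  ∀ i : κ, IsEmpty (F ↪g H.induce {v | c v = i})

/-- `H` has an `F`-free colouring with `k` colours, i.e. `χ(H : -F) ≤ k`. -/
def ChiFreeLe {W U : Type} (H : SimpleGraph W) (F : SimpleGraph U) (k : ℕ) : Prop :=
  ∃ c : W → Fin k, FreeColouring H F c

/-- `χ(H : -F) = n`: the least `k` such that `V(H)` can be partitioned into (at most) `k` classes
without induced `F` is `n`. -/
def ChiFreeEq {W U : Type} (H : SimpleGraph W) (F : SimpleGraph U) (n : ℕ) : Prop :=
  IsLeast {k : ℕ | ChiFreeLe H F k} n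

/-- `F ≍_n G`: some finite graph `H` has `χ(H : -F) = χ(H : -G) = n`. -/
def RelatedAt {U V : Type} (n : ℕ) (F : SimpleGraph U) (G : SimpleGraph V) : Prop :=
  ∃ (W : Type) (_ : Finite W) (H : SimpleGraph W), ChiFreeEq H F n ∧ ChiFreeEq H G n

/-- The paw: a triangle `0, 1, 2` with a pendant vertex `3` attached to `0`. -/
def paw : SimpleGraph (Fin 4) where
  Adj x y := (x = 0 ∧ y ≠ 0) ∨ (y = 0 ∧ x ≠ 0) ∨ (x = 1 ∧ y = 2) ∨ (x = 2 ∧ y = 1)
  symm := ⟨by decide⟩
  loopless := ⟨by decide⟩

/-- the key property of paw-free graphs -/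
theorem paw_free {W : Type} {H : SimpleGraph W} {P : Set W} (h : IsEmpty (paw ↪g H.induce P))
    {a b c d : W} (ha : a ∈ P) (hb : b ∈ P) (hc : c ∈ P) (hd : d ∈ P) (hab : H.Adj a b)
    (hac : H.Adj a c) (hbc : H.Adj b c) (had : H.Adj a d) (hdb : d ≠ b) (hdc : d ≠ c) :
    H.Adj b d ∨ H.Adj c d := by
  by_contra hcon
  rw [not_or] at hcon
  obtain ⟨h1, h2⟩ := hcon
  have e1 := hab.ne
  have e2 := hac.ne
  have e3 := hbc.ne
  have e4 := had.ne
  have g1 := hab.symm
  have g2 := hac.symm
  have g3 := hbc.symm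
  have g4 := had.symm
  have k1 : ¬ H.Adj d b := fun h => h1 h.symm
  have k2 : ¬ H.Adj d c := fun h => h2 h.symm
  have hinj : Function.Injective (![⟨a, ha⟩, ⟨b, hb⟩, ⟨c, hc⟩, ⟨d, hd⟩] : Fin 4 → P) := by
    intro i j hij
    fin_cases i <;> fin_cases j <;> simp_all
  refine h.false ⟨⟨![⟨a, ha⟩, ⟨b, hb⟩, ⟨c, hc⟩, ⟨d, hd⟩], hinj⟩, ?_⟩
  intro i j
  change H.Adj ((![⟨a, ha⟩, ⟨b, hb⟩, ⟨c, hc⟩, ⟨d, hd⟩] : Fin 4 → P) i).1
    ((![⟨a, ha⟩, ⟨b, hb⟩, ⟨c, hc⟩, ⟨d, hd⟩] : Fin 4 → P) j).1 ↔ paw.Adj i j
  clear hinj h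
  fin_cases i <;> fin_cases j <;> simp [paw, *]

/-- a graph in which the ends of every walk of length three are adjacent is bipartite -/
theorem colorable_two {Y : Type} (G : SimpleGraph Y)
    (h : ∀ x a b d, G.Adj x a → G.Adj a b → G.Adj b d → G.Adj x d) : G.Colorable 2 := by
  have key : ∀ n, ∀ u v (w : G.Walk u v), w.length = 2 * n + 1 → G.Adj u v := by
    intro n
    induction n with
    | zero =>
      intro u v w hw
      exact SimpleGraph.Walk.adj_of_length_eq_one hw
    | succ n ih =>
      intro u v w hw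
      match w with
      | .cons h1 (.cons h2 (.cons h3 w')) =>
        refine ih u v (.cons (h _ _ _ _ h1 h2 h3) w') ?_
        simp only [SimpleGraph.Walk.length_cons] at hw ⊢
        omega
      | .nil => simp at hw
      | .cons h1 .nil =>
        simp only [SimpleGraph.Walk.length_cons, SimpleGraph.Walk.length_nil] at hw
        omega
      | .cons h1 (.cons h2 .nil) =>
        simp only [SimpleGraph.Walk.length_cons, SimpleGraph.Walk.length_nil] at hw
        omega
  rw [SimpleGraph.two_colorable_iff_forall_loop_even]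
  intro u w
  by_contra hodd
  rw [Nat.not_even_iff_odd] at hodd
  obtain ⟨n, hn⟩ := hodd
  exact (key n u u w hn).ne rfl

section

variable {W : Type} {H : SimpleGraph W} {m : ℕ} {c : W → Fin m}

/-- `v` lies in a triangle of its own colour class -/
def InTri (H : SimpleGraph W) (c : W → Fin m) (v : W) : Prop :=
  ∃ a b, c a = c v ∧ c b = c v ∧ H.Adj v a ∧ H.Adj v b ∧ H.Adj a b

/-- walks of length three in a triangle-free subgraph spanned by such vertices -/
theorem walk_three (hc : FreeColouring H paw c) {p q r s : W} (hp : c p = c q) (hr : c r = c q)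
    (hs : c s = c q) (hq : InTri H c q) (h1 : H.Adj p q) (h2 : H.Adj q r) (h3 : H.Adj r s)
    (n1 : ¬ H.Adj p r) (n2 : ¬ H.Adj q s) (e1 : p ≠ r) (e2 : q ≠ s) : H.Adj p s := by
  by_contra n3
  have hP := hc (c q)
  -- the edge `pq` lies in a triangle
  obtain ⟨t, ht, htp, htq⟩ : ∃ t, c t = c q ∧ H.Adj p t ∧ H.Adj q t := by
    obtain ⟨a, b, ha, hb, hqa, hqb, hab⟩ := hq
    by_cases hpa : p = a
    · subst hpa
      exact ⟨b, hb, hab, hqb⟩
    · by_cases hpb : p = b
      · subst hpb
        exact ⟨a, ha, hab.symm, hqa⟩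
      · rcases paw_free hP (a := q) (b := a) (c := b) (d := p) rfl ha hb hp hqa hqb hab h1.symm
          hpa hpb with h | h
        · exact ⟨a, ha, h.symm, hqa⟩
        · exact ⟨b, hb, h.symm, hqb⟩
  have hrt : r ≠ t := by
    rintro rfl
    exact n1 htp
  have hrt' : H.Adj t r := by
    rcases paw_free hP (a := q) (b := p) (c := t) (d := r) rfl hp ht hr h1.symm htq htp h2
      e1.symm hrt with h | h
    · exact absurd h n1
    · exact h
  have hst : s ≠ t := by
    rintro rfl
    exact n3 htp
  have hst' : H.Adj t s := by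
    rcases paw_free hP (a := r) (b := q) (c := t) (d := s) hr rfl ht hs h2.symm hrt'.symm htq h3
      e2.symm hst with h | h
    · exact absurd h n2
    · exact h
  have hsp : s ≠ p := by
    rintro rfl
    exact n1 h3.symm
  rcases paw_free hP (a := t) (b := p) (c := q) (d := s) ht hp rfl hs htp.symm htq.symm h1 hst'
    hsp e2.symm with h | h
  · exact n3 h
  · exact n2 h

end

section

variable {W X : Type} {H : SimpleGraph W} {m : ℕ} {c : W → Fin m}

/-- no `K_7` -/
theorem no_K7 (f : (⊤ : SimpleGraph (Fin 7)) ↪g H)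
    (hf : ∀ i, (c (f i)).1 < 3 ∧ ¬ InTri H c (f i)) : False := by
  obtain ⟨k, hk⟩ := Fintype.exists_lt_card_fiber_of_mul_lt_card (n := 2)
    (f := fun i : Fin 7 => (⟨(c (f i)).1, (hf i).1⟩ : Fin 3)) (by simp)
  obtain ⟨x, y, z, hx, hy, hz, hxy, hxz, hyz⟩ := Finset.two_lt_card_iff.1 hk
  simp only [mem_filter, mem_univ, true_and] at hx hy hz
  have e1 : c (f y) = c (f x) := by
    have := hy.trans hx.symm
    exact Fin.ext (Fin.mk.inj this)
  have e2 : c (f z) = c (f x) := by
    have := hz.trans hx.symm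
    exact Fin.ext (Fin.mk.inj this)
  exact (hf x).2 ⟨f y, f z, e1, e2, f.map_rel_iff.2 hxy, f.map_rel_iff.2 hxz,
    f.map_rel_iff.2 hyz⟩

/-- no triangle-free graph of large chromatic number -/
theorem colorable_six (hc : FreeColouring H paw c) (T : SimpleGraph X)
    (htri : ∀ x y z, T.Adj x y → T.Adj y z → ¬ T.Adj x z) (f : T ↪g H)
    (hf : ∀ x, (c (f x)).1 < 3 ∧ InTri H c (f x)) : T.Colorable 6 := by
  classical
  have key : ∀ k : Fin m, ∃ g : X → Fin 2, ∀ x y, c (f x) = k → c (f y) = k → T.Adj x y →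
      g x ≠ g y := by
    intro k
    obtain ⟨C⟩ : (T.induce {x | c (f x) = k}).Colorable 2 := by
      apply colorable_two
      rintro ⟨x, hx⟩ ⟨a, ha⟩ ⟨b, hb⟩ ⟨d, hd⟩ h1 h2 h3
      change T.Adj x a at h1
      change T.Adj a b at h2
      change T.Adj b d at h3
      change T.Adj x d
      have hx' : c (f x) = k := hx
      have ha' : c (f a) = k := ha
      have hb' : c (f b) = k := hb
      have hd' : c (f d) = k := hd
      by_cases e1 : x = b
      · rw [e1]
        exact h3
      by_cases e2 : a = d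
      · rw [← e2]
        exact h1
      have n1 : ¬ T.Adj x b := htri _ _ _ h1 h2
      have n2 : ¬ T.Adj a d := htri _ _ _ h2 h3
      refine f.map_rel_iff.1 (walk_three hc (hx'.trans ha'.symm) (hb'.trans ha'.symm)
        (hd'.trans ha'.symm) (hf a).2 (f.map_rel_iff.2 h1) (f.map_rel_iff.2 h2)
        (f.map_rel_iff.2 h3) (fun h => n1 (f.map_rel_iff.1 h)) (fun h => n2 (f.map_rel_iff.1 h))
        (fun h => e1 (f.injective h)) (fun h => e2 (f.injective h)))
    refine ⟨fun x => if hx : c (f x) = k then C ⟨x, hx⟩ else 0, ?_⟩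
    intro x y hx hy hxy
    dsimp only
    rw [dif_pos hx, dif_pos hy]
    exact C.valid hxy
  choose g hg using key
  have hcol : T.Coloring (Fin 3 × Fin 2) := SimpleGraph.Coloring.mk
    (fun x => (⟨(c (f x)).1, (hf x).1⟩, g (c (f x)) x)) (by
      intro x y hxy h
      have h1 : c (f x) = c (f y) := Fin.ext (Fin.mk.inj (Prod.mk.inj h).1)
      have h2 := (Prod.mk.inj h).2
      rw [h1] at h2
      exact hg (c (f y)) x y h1 rfl hxy h2)
  have := hcol.colorable
  simpa using this

/-- the new colouring with one colour less -/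
noncomputable def newc (H : SimpleGraph W) (c : W → Fin m) (hm : 3 ≤ m) (v : W) :
    Fin (m - 1) := by
  classical
  exact if (c v).1 < 3 then (if InTri H c v then ⟨1, by omega⟩ else ⟨0, by omega⟩)
    else ⟨(c v).1 - 1, by have := (c v).2; omega⟩

theorem newc_val (H : SimpleGraph W) (c : W → Fin m) (hm : 3 ≤ m) (v : W) :
    ((newc H c hm v).1 = 0 → (c v).1 < 3 ∧ ¬ InTri H c v) ∧
    ((newc H c hm v).1 = 1 → (c v).1 < 3 ∧ InTri H c v) ∧
    (2 ≤ (newc H c hm v).1 → (c v).1 = (newc H c hm v).1 + 1) := by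
  classical
  unfold newc
  split_ifs with h1 h2
  · exact ⟨fun h => absurd h (by norm_num), fun _ => ⟨h1, h2⟩, fun h => absurd h (by norm_num)⟩
  · exact ⟨fun _ => ⟨h1, h2⟩, fun h => absurd h (by norm_num), fun h => absurd h (by norm_num)⟩
  · refine ⟨fun h => ?_, fun h => ?_, fun h => ?_⟩ <;> dsimp only at h ⊢ <;> omega

/-- Let `G` contain `K_7` and a triangle-free graph which is not `6`-colourable.  If `m = 3`, or
if `m ≥ 3` and `G` contains the paw, then a graph which splits into `m` paw-free sets splits into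
`m - 1` sets without `G`. -/
theorem le_pred {V : Type} (G : SimpleGraph V) (T : SimpleGraph X)
    (htri : ∀ x y z, T.Adj x y → T.Adj y z → ¬ T.Adj x z) (hT : ¬ T.Colorable 6)
    (e7 : (⊤ : SimpleGraph (Fin 7)) ↪g G) (eT : T ↪g G) (hm : 3 ≤ m)
    (hpaw : m = 3 ∨ Nonempty (paw ↪g G)) (hH : ChiFreeLe H paw m) :
    ChiFreeLe H G (m - 1) := by
  obtain ⟨c, hc⟩ := hH
  refine ⟨newc H c hm, fun i => ⟨fun f => ?_⟩⟩
  -- composition with an embedding into `G`
  have hmem : ∀ v : V, (newc H c hm (f v).1).1 = i.1 := fun v => congrArg Fin.val (f v).2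
  rcases Nat.lt_or_ge i.1 1 with h0 | h1
  · let f7 : (⊤ : SimpleGraph (Fin 7)) ↪g H :=
      (e7.trans f).trans (SimpleGraph.Embedding.induce _)
    refine no_K7 (c := c) f7 fun j => ?_
    have := hmem (e7 j)
    exact (newc_val H c hm (f (e7 j)).1).1 (by omega)
  · rcases Nat.lt_or_ge i.1 2 with h1' | h2
    · let fT : T ↪g H := (eT.trans f).trans (SimpleGraph.Embedding.induce _)
      refine hT (colorable_six hc T htri fT fun x => ?_)
      have := hmem (eT x)
      exact (newc_val H c hm (f (eT x)).1).2.1 (by omega)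
    · rcases hpaw with h3 | h3
      · have := i.2
        omega
      · obtain ⟨ep⟩ := h3
        have hlt : i.1 + 1 < m := by
          have := i.2
          omega
        have hcls : ∀ v : V, c (f v).1 = ⟨i.1 + 1, hlt⟩ := by
          intro v
          have h3 := (newc_val H c hm (f v).1).2.2 (by rw [hmem]; exact h2)
          rw [hmem] at h3
          exact Fin.ext h3
        refine (hc ⟨i.1 + 1, hlt⟩).false ⟨⟨fun x => ⟨(f (ep x)).1, hcls _⟩, ?_⟩, ?_⟩
        · intro x y hxy
          exact ep.injective (f.injective (Subtype.ext (Subtype.mk.inj hxy)))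
        · intro x y
          exact (f.map_rel_iff (a := ep x) (b := ep y)).trans ep.map_rel_iff

end

/-- a finite triangle-free graph which is not `6`-colourable -/
theorem exists_T : ∃ (X : Type) (_ : Finite X) (T : SimpleGraph X),
    (∀ x y z, T.Adj x y → T.Adj y z → ¬ T.Adj x z) ∧ ¬ T.Colorable 6 := by
  classical
  obtain ⟨X, hX, hD, T, a, ha0, htri, ha, hR⟩ := Q278.FracMyc.exists_triangleFree 7
  refine ⟨X, inferInstance, T, htri, ?_⟩
  rintro ⟨C⟩
  have h1 : (univ : Finset X).card ≤ a * (univ : Finset (Fin 6)).card := by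
    apply Finset.card_le_mul_card_image_of_maps_to (f := fun x => C x)
    · intro x _
      exact mem_univ _
    · intro i _
      apply ha
      intro x hx y hy hxy
      exact C.valid hxy ((mem_filter.1 hx).2.trans (mem_filter.1 hy).2.symm)
  rw [Finset.card_univ, Finset.card_univ, Fintype.card_fin] at h1
  have h2 : 7 * a ≤ Fintype.card X := by exact_mod_cast hR
  omega

end Q278.PawCR
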