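import Pool.Agent.Q278.PawCR

/-! The two partners of the paw: the disjoint union `K_7 ∪ T` and the cone over it. -/

namespace Q278.PawCR

open Finset

variable {X : Type} (T : SimpleGraph X)

/-- the disjoint union of `K_7` and `T` -/
abbrev G0 : SimpleGraph (Fin 7 ⊕ X) := (⊤ : SimpleGraph (Fin 7)) ⊕g T

/-- the cone over a graph -/
def cone {V : Type} (G : SimpleGraph V) : SimpleGraph (Option V) where
  Adj x y := match x, y with
    | none, none => False
    | none, some _ => True
    | some _, none => True
    | some a, some b => G.Adj a b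
  symm := ⟨by
    rintro (_ | a) (_ | b) h
    · exact h
    · trivial
    · trivial
    · exact G.adj_symm h⟩
  loopless := ⟨by
    rintro (_ | a) h
    · exact h
    · exact G.loopless.irrefl a h⟩

/-- `G` is an induced subgraph of its cone -/
def coneEmb {V : Type} (G : SimpleGraph V) : G ↪g cone G where
  toFun := some
  inj' := Option.some_injective V
  map_rel_iff' := Iff.rfl

theorem cone_connected {V : Type} (G : SimpleGraph V) : (cone G).Connected := by
  have h : ∀ x, (cone G).Reachable none x := by
    rintro (_ | a)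
    · exact SimpleGraph.Reachable.refl _
    · exact SimpleGraph.Adj.reachable (show (cone G).Adj none (some a) from trivial)
  exact ⟨fun x y => (h x).symm.trans (h y)⟩

theorem paw_connected : paw.Connected := by
  have h : ∀ x, paw.Reachable 0 x := by
    intro x
    by_cases hx : x = 0
    · rw [hx]
    · exact SimpleGraph.Adj.reachable (Or.inl ⟨rfl, hx⟩)
  exact ⟨fun x y => (h x).symm.trans (h y)⟩

/-- `K_7 ∪ T` does not contain the paw -/
theorem G0_paw_free (htri : ∀ x y z, T.Adj x y → T.Adj y z → ¬ T.Adj x z) :
    IsEmpty (paw ↪g G0 T) := by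
  refine ⟨fun f => ?_⟩
  have h01 : (G0 T).Adj (f 0) (f 1) := f.map_rel_iff.2 (by simp [paw])
  have h02 : (G0 T).Adj (f 0) (f 2) := f.map_rel_iff.2 (by simp [paw])
  have h12 : (G0 T).Adj (f 1) (f 2) := f.map_rel_iff.2 (by simp [paw])
  have h03 : (G0 T).Adj (f 0) (f 3) := f.map_rel_iff.2 (by simp [paw])
  have h13 : ¬ (G0 T).Adj (f 1) (f 3) := fun h => by
    have := f.map_rel_iff.1 h
    simp [paw] at this
  have hne : f 1 ≠ f 3 := fun h => by
    have := f.injective h
    simp at this
  rcases h0 : f 0 with a | a <;> rcases h1 : f 1 with b | b <;> rcases h2 : f 2 with c | c <;>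
    rcases h3 : f 3 with d | d <;> rw [h0, h1] at h01 <;> rw [h0, h2] at h02 <;>
    rw [h1, h2] at h12 <;> rw [h0, h3] at h03 <;> rw [h1, h3] at h13 hne <;>
    simp_all
  exact htri _ _ _ h01 h12 h02

/-- The cone over `K_7 ∪ T` contains the paw (if `T` has a vertex). -/
theorem cone_has_paw (x : X) : Nonempty (paw ↪g cone (G0 T)) := by
  have hinj : Function.Injective (![none, some (Sum.inl 0), some (Sum.inl 1), some (Sum.inr x)] :
      Fin 4 → Option (Fin 7 ⊕ X)) := by
    intro i j hij
    fin_cases i <;> fin_cases j <;> simp_all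
  refine ⟨⟨⟨![none, some (Sum.inl 0), some (Sum.inl 1), some (Sum.inr x)], hinj⟩, ?_⟩⟩
  intro i j
  change (cone (G0 T)).Adj ((![none, some (Sum.inl 0), some (Sum.inl 1), some (Sum.inr x)] :
      Fin 4 → Option (Fin 7 ⊕ X)) i) ((![none, some (Sum.inl 0), some (Sum.inl 1),
      some (Sum.inr x)] : Fin 4 → Option (Fin 7 ⊕ X)) j) ↔ paw.Adj i j
  fin_cases i <;> fin_cases j <;> simp [paw, cone]

/-- removing the apex gives a partition of the cone into two paw-free sets -/
theorem cone_le_two (htri : ∀ x y z, T.Adj x y → T.Adj y z → ¬ T.Adj x z) :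
    ChiFreeLe (cone (G0 T)) paw 2 := by
  refine ⟨fun v => match v with
    | none => 1
    | some _ => 0, fun i => ⟨fun f => ?_⟩⟩
  by_cases hi : i = 0
  · subst hi
    -- all vertices are of the form `some`
    have hsome : ∀ j, ∃ w, (f j).1 = some w := by
      intro j
      have h := (f j).2
      rcases hf : (f j).1 with _ | w
      · rw [Set.mem_ofPred_eq, hf] at h
        change (1 : Fin 2) = 0 at h
        exact absurd h (by decide)
      · exact ⟨w, rfl⟩
    choose g hg using hsome
    refine (G0_paw_free T htri).false ⟨⟨g, ?_⟩, ?_⟩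
    · intro a b hab
      apply f.injective
      apply Subtype.ext
      rw [hg, hg, hab]
    · intro a b
      have := f.map_rel_iff (a := a) (b := b)
      rw [← this]
      change _ ↔ (cone (G0 T)).Adj (f a).1 (f b).1
      rw [hg, hg]
      exact Iff.rfl
  · have hnone : ∀ j, (f j).1 = none := by
      intro j
      have h := (f j).2
      rcases hf : (f j).1 with _ | w
      · rfl
      · rw [Set.mem_ofPred_eq, hf] at h
        exact absurd h.symm hi
    have h01 : f 0 = f 1 := Subtype.ext ((hnone 0).trans (hnone 1).symm)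
    have := f.injective h01
    exact absurd this (by decide)

/-- any finite graph with at least two vertices splits into two sets without itself -/
theorem self_le_two {V : Type} [Finite V] (G : SimpleGraph V) {x y : V} (hxy : x ≠ y) :
    ChiFreeLe G G 2 := by
  classical
  refine ⟨fun v => if v = x then 0 else 1, fun i => ⟨fun f => ?_⟩⟩
  have hsurj : Function.Surjective (fun v => (f v).1) := by
    apply Finite.surjective_of_injective
    intro a b hab
    exact f.injective (Subtype.ext hab)
  obtain ⟨a, ha⟩ := hsurj x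
  obtain ⟨b, hb⟩ := hsurj y
  have h1 : (if (f a).1 = x then (0 : Fin 2) else 1) = i := (f a).2
  have h2 : (if (f b).1 = x then (0 : Fin 2) else 1) = i := (f b).2
  dsimp only at ha hb
  rw [if_pos ha] at h1
  rw [if_neg (by rw [hb]; exact hxy.symm)] at h2
  rw [← h1] at h2
  exact absurd h2 (by decide)

theorem chi_eq_two {W U : Type} (H : SimpleGraph W) (F : SimpleGraph U) [Nonempty U]
    (h : ChiFreeLe H F 2) (hF : Nonempty (F ↪g H)) : ChiFreeEq H F 2 := by
  refine ⟨h, ?_⟩
  rintro k ⟨c, hc⟩
  by_contra hlt
  push Not at hlt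
  obtain ⟨f⟩ := hF
  obtain ⟨u⟩ := (inferInstance : Nonempty U)
  have hk := (c (f u)).2
  have hall : ∀ v, c v = c (f u) := by
    intro v
    have := (c v).2
    exact Fin.ext (by omega)
  exact (hc (c (f u))).false ⟨⟨fun x => ⟨f x, hall _⟩, fun x y hxy =>
    f.injective (Subtype.mk.inj hxy)⟩, f.map_rel_iff⟩

end Q278.PawCR
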