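import Mathlib
import Pool.Agent.Q278.Homog

/-! Signed Johnson graphs: structure of the independent sets of `J±(n,4,0)`. -/

namespace Q278.SJ4

open Finset

/-- support -/
def supp {n : ℕ} (v : Fin n → ℤ) : Finset (Fin n) := univ.filter fun i => v i ≠ 0

theorem mem_supp {n : ℕ} {v : Fin n → ℤ} {i : Fin n} : i ∈ supp v ↔ v i ≠ 0 := by
  simp [supp]

/-- vectors with entries `-1, 0, 1` and exactly `k` nonzero entries -/
def IsVec {n : ℕ} (k : ℕ) (v : Fin n → ℤ) : Prop :=
  (∀ i, v i = -1 ∨ v i = 0 ∨ v i = 1) ∧ (supp v).card = k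

theorem exists_more {n k : ℕ} {v : Fin n → ℤ} (hv : IsVec k v) (S : Finset (Fin n))
    (hS : S.card < k) : ∃ l, l ∉ S ∧ v l ≠ 0 := by
  obtain ⟨l, hl, hl'⟩ := Finset.exists_mem_notMem_of_card_lt_card (by rw [hv.2]; exact hS :
    S.card < (supp v).card)
  exact ⟨l, hl', mem_supp.1 hl⟩

theorem inj4 {α : Type} {a b c d : α} (h1 : b ≠ a) (h2 : c ≠ a) (h3 : c ≠ b) (h4 : d ≠ a)
    (h5 : d ≠ b) (h6 : d ≠ c) : Function.Injective (![a, b, c, d] : Fin 4 → α) := by
  intro i j hij
  fin_cases i <;> fin_cases j <;> simp_all [eq_comm]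

theorem class_lemma {n : ℕ} (F : Set (Fin n → ℤ)) (hF : ∀ v ∈ F, IsVec 4 v)
    (hind : ∀ u ∈ F, ∀ v ∈ F, u ≠ v → ∑ i, u i * v i ≠ 0) :
    ∃ (cen : Option (Fin n)) (E : Finset (Fin 4 → Fin n)), E.card ≤ 16 * n ^ 2 ∧
      ∀ v ∈ F, (∀ x : Fin 4 → Fin n, Function.Injective x → (∀ k, v (x k) ≠ 0) → x ∉ E) →
        ∃ i, cen = some i ∧ v i ≠ 0 ∧ ∀ j, j ≠ i → v j ≠ 0 →
          ¬ ∃ u ∈ F, ∃ w ∈ F, u i = v i ∧ w i = v i ∧ u j = 1 ∧ w j = -1 := by
  classical
  by_cases hstar : ∃ i, ∀ v ∈ F, v i ≠ 0
  · obtain ⟨i, hi⟩ := hstar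
    have hT : ∀ (s : ℤ) (j : Fin n), ∃ T : Finset (Fin n), T.card ≤ 8 ∧ i ∉ T ∧ j ∉ T ∧
        (j ≠ i → (∃ u ∈ F, ∃ w ∈ F, u i = s ∧ w i = s ∧ u j = 1 ∧ w j = -1) →
          ∀ v ∈ F, v i = s → v j ≠ 0 → ∃ t ∈ T, v t ≠ 0) := by
      intro s j
      by_cases h : ∃ u ∈ F, ∃ w ∈ F, u i = s ∧ w i = s ∧ u j = 1 ∧ w j = -1
      · obtain ⟨u, hu, w, hw, hui, hwi, huj, hwj⟩ := h
        refine ⟨((supp u ∪ supp w).erase i).erase j, ?_, ?_, ?_, ?_⟩
        · refine ((Finset.card_erase_le).trans (Finset.card_erase_le)).trans ?_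
          refine (Finset.card_union_le _ _).trans ?_
          rw [(hF u hu).2, (hF w hw).2]
        · simp
        · simp
        · intro hji _ v hv hvi hvj
          by_contra hcon
          push Not at hcon
          -- if `v` meets `supp z` only in `i, j` then the product is computed
          have key : ∀ z ∈ F, z i = s → (∀ t, z t ≠ 0 → t ∈ supp u ∪ supp w) →
              ∑ t, z t * v t = s * s + z j * v j := by
            intro z hz hzi hzt
            rw [← Finset.sum_subset (Finset.subset_univ ({i, j} : Finset (Fin n)))]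
            · rw [Finset.sum_pair hji.symm, hzi, hvi]
            · intro t _ ht
              simp only [Finset.mem_insert, Finset.mem_singleton, not_or] at ht
              by_cases hzt0 : z t = 0
              · rw [hzt0, zero_mul]
              · have := hcon t (by
                  rw [Finset.mem_erase, Finset.mem_erase]
                  exact ⟨ht.2, ht.1, hzt t hzt0⟩)
                rw [this, mul_zero]
          have hss : s * s = 1 := by
            have h0 := hi v hv
            rw [hvi] at h0
            rcases (hF v hv).1 i with h | h | h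
            · rw [hvi] at h; rw [h]; norm_num
            · rw [hvi] at h; exact absurd h h0
            · rw [hvi] at h; rw [h]; norm_num
          rcases (hF v hv).1 j with h | h | h
          · -- `v j = -1`: compare with `u`
            have hne : u ≠ v := by
              rintro rfl
              rw [huj] at h
              norm_num at h
            apply hind u hu v hv hne
            rw [key u hu hui (fun t ht => mem_union_left _ (mem_supp.2 ht)), hss, huj, h]
            norm_num
          · exact hvj h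
          · have hne : w ≠ v := by
              rintro rfl
              rw [hwj] at h
              norm_num at h
            apply hind w hw v hv hne
            rw [key w hw hwi (fun t ht => mem_union_right _ (mem_supp.2 ht)), hss, hwj, h]
            norm_num
      · exact ⟨∅, by simp, by simp, by simp, fun _ h' => absurd h' h⟩
    choose T hT1 hT2 hT3 hT4 using hT
    let E : Finset (Fin 4 → Fin n) := (univ : Finset (Fin n)).biUnion fun j =>
      ({1, -1} : Finset ℤ).biUnion fun s => (T s j).biUnion fun t =>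
        (univ : Finset (Fin n)).image fun l => ![i, j, t, l]
    refine ⟨some i, E, ?_, ?_⟩
    · calc E.card ≤ (univ : Finset (Fin n)).card * (2 * (8 * n)) := by
            refine Finset.card_biUnion_le_card_mul _ _ _ fun j _ => ?_
            refine (Finset.card_biUnion_le_card_mul _ _ (8 * n) fun s _ => ?_).trans ?_
            · refine (Finset.card_biUnion_le_card_mul _ _ n fun t _ => ?_).trans ?_
              · refine Finset.card_image_le.trans ?_
                rw [Finset.card_univ, Fintype.card_fin]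
              · exact Nat.mul_le_mul_right _ (hT1 s j)
            · exact Nat.mul_le_mul_right _ (Finset.card_le_two)
        _ = 16 * n ^ 2 := by
            rw [Finset.card_univ, Fintype.card_fin]
            ring
    · intro v hv hx
      refine ⟨i, rfl, hi v hv, ?_⟩
      intro j hji hvj hex
      obtain ⟨t, ht, hvt⟩ := hT4 (v i) j hji hex v hv rfl hvj
      have hti : t ≠ i := by
        rintro rfl
        exact hT2 _ _ ht
      have htj : t ≠ j := by
        rintro rfl
        exact hT3 _ _ ht
      obtain ⟨l, hl, hvl⟩ := exists_more (hF v hv) {i, j, t}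
        (lt_of_le_of_lt (Finset.card_le_three) (by norm_num))
      simp only [Finset.mem_insert, Finset.mem_singleton, not_or] at hl
      refine hx ![i, j, t, l] (inj4 hji hti htj hl.1 hl.2.1 hl.2.2) ?_ ?_
      · intro k
        fin_cases k
        · exact hi v hv
        · exact hvj
        · exact hvt
        · exact hvl
      · refine mem_biUnion.2 ⟨j, mem_univ _, mem_biUnion.2 ⟨v i, ?_, mem_biUnion.2
          ⟨t, ht, mem_image.2 ⟨l, mem_univ _, rfl⟩⟩⟩⟩
        have h0 := hi v hv
        rcases (hF v hv).1 i with h | h | h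
        · rw [h]; simp
        · exact absurd h h0
        · rw [h]; simp
  · push Not at hstar
    by_cases hne : ∃ w0, w0 ∈ F
    · obtain ⟨w0, hw0⟩ := hne
      choose W hW1 hW2 using hstar
      have hmeet : ∀ u ∈ F, ∀ v ∈ F, ∃ a, u a ≠ 0 ∧ v a ≠ 0 := by
        intro u hu v hv
        by_cases huv : u = v
        · subst huv
          obtain ⟨a, _, ha⟩ := exists_more (hF u hu) ∅ (by simp)
          exact ⟨a, ha, ha⟩
        · by_contra hcon
          push Not at hcon
          apply hind u hu v hv huv
          apply Finset.sum_eq_zero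
          intro t _
          by_cases h : u t = 0
          · rw [h, zero_mul]
          · rw [hcon t h, mul_zero]
      let E : Finset (Fin 4 → Fin n) := (supp w0).biUnion fun a => (supp (W a)).biUnion fun b =>
        (univ : Finset (Fin n)).biUnion fun c =>
        (univ : Finset (Fin n)).image fun d => ![a, b, c, d]
      refine ⟨none, E, ?_, ?_⟩
      · calc E.card ≤ (supp w0).card * (4 * (n * n)) := by
              refine Finset.card_biUnion_le_card_mul _ _ _ fun a _ => ?_
              refine (Finset.card_biUnion_le_card_mul _ _ (n * n) fun b _ => ?_).trans ?_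
              · refine (Finset.card_biUnion_le_card_mul _ _ n fun t _ => ?_).trans ?_
                · refine Finset.card_image_le.trans ?_
                  rw [Finset.card_univ, Fintype.card_fin]
                · rw [Finset.card_univ, Fintype.card_fin]
              · rw [(hF _ (hW1 a)).2]
          _ = 16 * n ^ 2 := by
              rw [(hF _ hw0).2]
              ring
      · intro v hv hx
        exfalso
        obtain ⟨a, ha0, hva⟩ := hmeet w0 hw0 v hv
        obtain ⟨b, hb, hvb⟩ := hmeet (W a) (hW1 a) v hv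
        have hba : b ≠ a := by
          rintro rfl
          exact hb (hW2 b)
        obtain ⟨c, hc, hvc⟩ := exists_more (hF v hv) {a, b}
          (lt_of_le_of_lt (Finset.card_le_two) (by norm_num))
        simp only [Finset.mem_insert, Finset.mem_singleton, not_or] at hc
        obtain ⟨d, hd, hvd⟩ := exists_more (hF v hv) {a, b, c}
          (lt_of_le_of_lt (Finset.card_le_three) (by norm_num))
        simp only [Finset.mem_insert, Finset.mem_singleton, not_or] at hd
        refine hx ![a, b, c, d] (inj4 hba hc.1 hc.2 hd.1 hd.2.1 hd.2.2) ?_ ?_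
        · intro k
          fin_cases k
          · exact hva
          · exact hvb
          · exact hvc
          · exact hvd
        · exact mem_biUnion.2 ⟨a, mem_supp.2 ha0, mem_biUnion.2 ⟨b, mem_supp.2 hb, mem_biUnion.2
            ⟨c, mem_univ _, mem_image.2 ⟨d, mem_univ _, rfl⟩⟩⟩⟩
    · exact ⟨none, ∅, by simp, fun v hv _ => absurd ⟨v, hv⟩ hne⟩

/-- **Main bound.** For every `C` and all large `n`, the vectors of `{-1,0,1}^n` with exactly
four nonzero entries cannot be coloured by `C * n` colours with distinct orthogonal vectors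
coloured differently. -/
theorem no_linear (C : ℕ) : ∃ n0 : ℕ, ∀ n ≥ n0, ∀ c : {v : Fin n → ℤ // IsVec 4 v} → Fin (C * n),
    ∃ u v, u ≠ v ∧ ∑ i, u.1 i * v.1 i = 0 ∧ c u = c v := by
  classical
  set T := 2 ^ (4 * C) with hTdef
  set m := Homog.NN T (T * T + 1 + 2) + 4 with hmdef
  refine ⟨16 * m ^ 4 * (16 * C + 1) + 1, ?_⟩
  intro n hn c
  by_contra hcon
  push Not at hcon
  -- classes
  let F : Fin (C * n) → Set (Fin n → ℤ) := fun κ => {v | ∃ h : IsVec 4 v, c ⟨v, h⟩ = κ}
  have hF : ∀ κ, ∀ v ∈ F κ, IsVec 4 v := fun κ v hv => hv.choose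
  have hind : ∀ κ, ∀ u ∈ F κ, ∀ v ∈ F κ, u ≠ v → ∑ i, u i * v i ≠ 0 := by
    rintro κ u ⟨hu, huc⟩ v ⟨hv, hvc⟩ huv h0
    exact hcon ⟨u, hu⟩ ⟨v, hv⟩ (fun h => huv (congrArg Subtype.val h)) h0 (huc.trans hvc.symm)
  choose cen E hE1 hE2 using fun κ => class_lemma (F κ) (hF κ) (hind κ)
  -- few classes with centre `i`
  let Z : Fin n → Finset (Fin (C * n)) := fun i => univ.filter fun κ => cen κ = some i
  have hZ : ∑ i, (Z i).card ≤ C * n := by
    rw [← Finset.card_biUnion]
    · refine (Finset.card_le_univ _).trans ?_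
      rw [Fintype.card_fin]
    · intro i _ j _ hij
      change Disjoint (Z i) (Z j)
      rw [Finset.disjoint_left]
      intro κ h1 h2
      have e1 := (mem_filter.1 h1).2
      have e2 := (mem_filter.1 h2).2
      rw [e1] at e2
      exact hij (Option.some_injective _ e2)
  let I : Finset (Fin n) := univ.filter fun i => (Z i).card ≤ 2 * C
  have hIc : (2 * C + 1) * (Iᶜ).card ≤ C * n := by
    refine le_trans ?_ hZ
    calc (2 * C + 1) * (Iᶜ).card = ∑ i ∈ Iᶜ, (2 * C + 1) := by
          rw [Finset.sum_const, smul_eq_mul, mul_comm]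
      _ ≤ ∑ i ∈ Iᶜ, (Z i).card := by
          refine Finset.sum_le_sum fun i hi => ?_
          have : ¬ (Z i).card ≤ 2 * C := by
            intro h
            exact (Finset.mem_compl.1 hi) (mem_filter.2 ⟨mem_univ _, h⟩)
          omega
      _ ≤ ∑ i, (Z i).card := Finset.sum_le_sum_of_subset (Finset.subset_univ _)
  have hIcard : I.card + (Iᶜ).card = n := by
    rw [Finset.card_add_card_compl, Fintype.card_fin]
  have hI2 : n ≤ 2 * I.card := by
    by_contra h
    push Not at h
    have h1 : n < 2 * (Iᶜ).card := by omega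
    have h2 : (2 * C) * (Iᶜ).card + (Iᶜ).card ≤ C * n := by
      have : (2 * C + 1) * (Iᶜ).card = (2 * C) * (Iᶜ).card + (Iᶜ).card := by ring
      omega
    have h3 : C * n ≤ C * (2 * (Iᶜ).card) := Nat.mul_le_mul_left _ h1.le
    have h4 : C * (2 * (Iᶜ).card) = (2 * C) * (Iᶜ).card := by ring
    omega
  -- the exceptional quadruples
  let EE : Finset (Fin 4 → Fin n) := univ.biUnion E
  have hEE : EE.card ≤ C * n * (16 * n ^ 2) := by
    refine (Finset.card_biUnion_le_card_mul _ _ _ fun κ _ => hE1 κ).trans ?_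
    rw [Finset.card_univ, Fintype.card_fin]
  have hclean : m ^ 4 * (EE.card + I.card ^ 3) < I.card ^ 4 := by
    have h1 : I.card ≤ n := by omega
    have h2 : EE.card + I.card ^ 3 ≤ (16 * C + 1) * n ^ 3 := by
      have := Nat.pow_le_pow_left h1 3
      have h5 : C * n * (16 * n ^ 2) = 16 * C * n ^ 3 := by ring
      have h6 : (16 * C + 1) * n ^ 3 = 16 * C * n ^ 3 + n ^ 3 := by ring
      omega
    have h3 : m ^ 4 * (EE.card + I.card ^ 3) ≤ m ^ 4 * ((16 * C + 1) * n ^ 3) :=
      Nat.mul_le_mul_left _ h2
    have h4 : 16 * (m ^ 4 * ((16 * C + 1) * n ^ 3)) < n ^ 4 := by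
      have hn0 : 0 < n ^ 3 := Nat.pow_pos (by omega)
      calc 16 * (m ^ 4 * ((16 * C + 1) * n ^ 3)) = (16 * m ^ 4 * (16 * C + 1)) * n ^ 3 := by ring
        _ < n * n ^ 3 := Nat.mul_lt_mul_of_pos_right (by omega) hn0
        _ = n ^ 4 := by ring
    have h5 : n ^ 4 ≤ 16 * I.card ^ 4 := by
      calc n ^ 4 ≤ (2 * I.card) ^ 4 := Nat.pow_le_pow_left hI2 4
        _ = 16 * I.card ^ 4 := by ring
    omega
  obtain ⟨M, hMI, hMcard, hMclean⟩ := Homog.exists_clean m (by omega) I EE hclean
  -- types
  let τ : Fin n → Fin n → Finset (Fin (C * n) × ℤ) := fun i j =>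
    ((Z i) ×ˢ ({1, -1} : Finset ℤ)).filter fun p => ∃ w ∈ F p.1, w i = p.2 ∧ w j = 1
  have hτ : ∀ a ∈ M, (M.image (τ a)).card ≤ T := by
    intro a ha
    have h1 : M.image (τ a) ⊆ ((Z a) ×ˢ ({1, -1} : Finset ℤ)).powerset := by
      intro S hS
      obtain ⟨j, _, rfl⟩ := mem_image.1 hS
      exact Finset.mem_powerset.2 (Finset.filter_subset _ _)
    refine (Finset.card_le_card h1).trans ?_
    rw [Finset.card_powerset, Finset.card_product]
    refine Nat.pow_le_pow_right (by norm_num) ?_
    have h2 : (Z a).card ≤ 2 * C := (mem_filter.1 (hMI ha)).2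
    have h3 : ({1, -1} : Finset ℤ).card ≤ 2 := Finset.card_le_two
    calc (Z a).card * ({1, -1} : Finset ℤ).card ≤ (2 * C) * 2 := Nat.mul_le_mul h2 h3
      _ = 4 * C := by ring
  obtain ⟨p, q, r, s, hp, hq, hr, hs, hpq, hpr, hps, hqr, hqs, hrs, t1, t2, t3, t4⟩ :=
    Homog.four_points τ T M hτ (by omega)
  -- the vector
  let v : Fin n → ℤ := fun i => if i = p then 1 else if i = q then -1 else if i = r then 1
    else if i = s then -1 else 0
  have vp : v p = 1 := by simp [v]
  have vq : v q = -1 := by simp [v, hpq.symm]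
  have vr : v r = 1 := by simp [v, hpr.symm, hqr.symm]
  have vs : v s = -1 := by simp [v, hps.symm, hqs.symm, hrs.symm]
  have vo : ∀ i, v i ≠ 0 → i = p ∨ i = q ∨ i = r ∨ i = s := by
    intro i hi
    by_contra hcon'
    push Not at hcon'
    apply hi
    simp [v, hcon'.1, hcon'.2.1, hcon'.2.2.1, hcon'.2.2.2]
  have hsupp : supp v = {p, q, r, s} := by
    ext i
    rw [mem_supp]
    simp only [Finset.mem_insert, Finset.mem_singleton]
    constructor
    · exact vo i
    · rintro (rfl | rfl | rfl | rfl)
      · rw [vp]; norm_num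
      · rw [vq]; norm_num
      · rw [vr]; norm_num
      · rw [vs]; norm_num
  have hv : IsVec 4 v := by
    refine ⟨?_, ?_⟩
    · intro i
      simp only [v]
      split_ifs <;> simp
    · rw [hsupp]
      rw [Finset.card_insert_of_notMem, Finset.card_insert_of_notMem, Finset.card_insert_of_notMem,
        Finset.card_singleton]
      · simpa using hrs
      · simpa using ⟨hqr, hqs⟩
      · simpa using ⟨hpq, hpr, hps⟩
  have hvF : v ∈ F (c ⟨v, hv⟩) := ⟨hv, rfl⟩
  have hvM : ∀ i, v i ≠ 0 → i ∈ M := by
    intro i hi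
    rcases vo i hi with rfl | rfl | rfl | rfl
    · exact hp
    · exact hq
    · exact hr
    · exact hs
  obtain ⟨i, hi1, hi2, hi3⟩ := hE2 _ v hvF (by
    intro x hx hxv hxE
    refine hMclean x (fun k => hvM _ (hxv k)) hx ?_
    exact mem_biUnion.2 ⟨_, mem_univ _, hxE⟩)
  -- the sign of `v` at `j` is determined by the type of `j`
  have key : ∀ j, j ≠ i → v j ≠ 0 → (v j = 1 ↔ (c ⟨v, hv⟩, v i) ∈ τ i j) := by
    intro j hji hvj
    constructor
    · intro h
      refine mem_filter.2 ⟨Finset.mem_product.2 ⟨mem_filter.2 ⟨mem_univ _, hi1⟩, ?_⟩, v, hvF,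
        rfl, h⟩
      rcases hv.1 i with h' | h' | h'
      · simp [h']
      · exact absurd h' hi2
      · simp [h']
    · intro h
      obtain ⟨w, hw, hwi, hwj⟩ := (mem_filter.1 h).2
      by_contra hne
      have hvj1 : v j = -1 := by
        rcases hv.1 j with h' | h' | h'
        · exact h'
        · exact absurd h' hvj
        · exact absurd h' hne
      exact hi3 j hji hvj ⟨w, hw, v, hvF, hwi, rfl, hwj, hvj1⟩
  have key2 : ∀ j k, j ≠ i → k ≠ i → v j = 1 → v k = -1 → τ i j = τ i k → False := by
    intro j k hj hk hvj hvk hjk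
    have h1 := (key j hj (by rw [hvj]; norm_num)).1 hvj
    rw [hjk] at h1
    have h2 := (key k hk (by rw [hvk]; norm_num)).2 h1
    rw [hvk] at h2
    norm_num at h2
  rcases vo i hi2 with rfl | rfl | rfl | rfl
  · exact key2 r q hpr.symm hpq.symm vr vq t1.symm
  · exact key2 r s hqr.symm hqs.symm vr vs t2
  · exact key2 p q hpr hqr vp vq t3
  · exact key2 p q hps hqs vp vq t4

end Q278.SJ4
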