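import Mathlib
import Pool.Agent.Q278.SJ4
import Pool.Agent.Q278.KSys

/-! Signed Johnson and Kneser graphs with `k = 2`, `t = -1`. -/

namespace Q278.SJ2

open Finset Q278.SJ4

theorem supp_two {n : ℕ} {u : Fin n → ℤ} (hu : IsVec 2 u) {i j : Fin n} (hij : i ≠ j)
    (hi : u i ≠ 0) (hj : u j ≠ 0) : supp u = {i, j} := by
  symm
  apply Finset.eq_of_subset_of_card_le
  · intro x hx
    rw [Finset.mem_insert, Finset.mem_singleton] at hx
    rcases hx with rfl | rfl
    · exact mem_supp.2 hi
    · exact mem_supp.2 hj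
  · rw [hu.2, Finset.card_pair hij]

theorem sum_two {n : ℕ} {u : Fin n → ℤ} (hu : IsVec 2 u) {i j : Fin n} (hij : i ≠ j)
    (hi : u i ≠ 0) (hj : u j ≠ 0) (w : Fin n → ℤ) :
    ∑ l, u l * w l = u i * w i + u j * w j := by
  rw [← Finset.sum_subset (Finset.subset_univ ({i, j} : Finset (Fin n)))]
  · rw [Finset.sum_pair hij]
  · intro t _ ht
    rw [← supp_two hu hij hi hj, mem_supp, not_not] at ht
    rw [ht, zero_mul]

/-- the sign of a Boolean -/
def sgn (b : Bool) : ℤ := if b then 1 else -1

theorem sgn_ne (b : Bool) : sgn b ≠ 0 := by cases b <;> simp [sgn]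

/-- the vector with two given entries -/
def vec {n : ℕ} (j k : Fin n) (s s' : Bool) : Fin n → ℤ := fun l =>
  if l = j then sgn s else if l = k then sgn s' else 0

theorem vec_isVec {n : ℕ} {j k : Fin n} (hjk : j ≠ k) (s s' : Bool) :
    IsVec 2 (vec j k s s') := by
  have h1 : supp (vec j k s s') = {j, k} := by
    ext l
    rw [mem_supp, Finset.mem_insert, Finset.mem_singleton]
    constructor
    · intro h
      by_contra hcon
      push Not at hcon
      apply h
      simp [vec, hcon.1, hcon.2]
    · rintro (rfl | rfl)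
      · simp only [vec, if_true]
        exact sgn_ne s
      · simp only [vec, hjk.symm, if_false, if_true]
        exact sgn_ne s'
  refine ⟨?_, ?_⟩
  · intro l
    simp only [vec]
    split_ifs
    · cases s <;> simp [sgn]
    · cases s' <;> simp [sgn]
    · simp
  · rw [h1, Finset.card_pair hjk]

theorem K_bound {n c : ℕ} (col : {v : Fin n → ℤ // IsVec 2 v} → Fin c)
    (hcol : ∀ u v, u ≠ v → ∑ i, u.1 i * v.1 i ≤ -1 → col u ≠ col v) :
    2 * n ≤ 2 * (c + 1) ^ 3 + 2 + c.choose (c / 2) := by
  classical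
  let F : Fin c → Set (Fin n → ℤ) := fun r => {v | ∃ h : IsVec 2 v, col ⟨v, h⟩ = r}
  have hF : ∀ r, ∀ v ∈ F r, IsVec 2 v := fun r v hv => hv.choose
  have hind : ∀ r, ∀ u ∈ F r, ∀ v ∈ F r, u ≠ v → -1 < ∑ i, u i * v i := by
    rintro r u ⟨hu, hur⟩ v ⟨hv, hvr⟩ huv
    by_contra hcon
    exact hcol ⟨u, hu⟩ ⟨v, hv⟩ (fun h => huv (congrArg Subtype.val h)) (not_lt.1 hcon)
      (hur.trans hvr.symm)
  let star : Fin n → Fin c → Prop := fun i r => ∃ u ∈ F r, ∃ v ∈ F r, u i = 1 ∧ v i = -1
  have hstar : ∀ i r, star i r → ∃ j, j ≠ i ∧ (∀ w ∈ F r, w i ≠ 0 → w j ≠ 0) ∧ ¬ star j r := by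
    rintro i r ⟨u, hu, v, hv, hui, hvi⟩
    obtain ⟨j, hj, huj⟩ := exists_more (hF r u hu) {i} (by simp)
    rw [Finset.mem_singleton] at hj
    have hui0 : u i ≠ 0 := by rw [hui]; norm_num
    have hvi0 : v i ≠ 0 := by rw [hvi]; norm_num
    have huv : u ≠ v := by
      rintro rfl
      rw [hui] at hvi
      norm_num at hvi
    have h1 : ∀ w ∈ F r, w i = -1 → 0 < u j * w j := by
      intro w hw hwi
      have hne : u ≠ w := by
        rintro rfl
        rw [hui] at hwi
        norm_num at hwi
      have := hind r u hu w hw hne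
      rw [sum_two (hF r u hu) (Ne.symm hj) hui0 huj, hui, hwi] at this
      linarith
    have huvj := h1 v hv hvi
    have hvj : v j ≠ 0 := by
      intro h
      rw [h, mul_zero] at huvj
      exact lt_irrefl _ huvj
    have hvju : v j = u j := by
      rcases (hF r u hu).1 j with e | e | e <;> rcases (hF r v hv).1 j with e' | e' | e' <;>
        rw [e, e'] at huvj <;> first | (rw [e, e']; done) | (norm_num at huvj)
    have h2 : ∀ w ∈ F r, w i = 1 → 0 < u j * w j := by
      intro w hw hwi
      have hne : v ≠ w := by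
        rintro rfl
        rw [hvi] at hwi
        norm_num at hwi
      have := hind r v hv w hw hne
      rw [sum_two (hF r v hv) (Ne.symm hj) hvi0 hvj, hvi, hwi, hvju] at this
      linarith
    have h3 : ∀ w ∈ F r, w i ≠ 0 → 0 < u j * w j := by
      intro w hw hwi
      rcases (hF r w hw).1 i with e | e | e
      · exact h1 w hw e
      · exact absurd e hwi
      · exact h2 w hw e
    have h4 : ∀ w ∈ F r, 0 ≤ u j * w j := by
      intro w hw
      by_cases hwi : w i = 0
      · have hne : u ≠ w := by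
          rintro rfl
          exact hui0 hwi
        have := hind r u hu w hw hne
        rw [sum_two (hF r u hu) (Ne.symm hj) hui0 huj, hwi] at this
        linarith
      · exact (h3 w hw hwi).le
    refine ⟨j, hj, ?_, ?_⟩
    · intro w hw hwi h0
      have := h3 w hw hwi
      rw [h0, mul_zero] at this
      exact lt_irrefl _ this
    · rintro ⟨w, hw, w', hw', hwj, hwj'⟩
      have e1 := h4 w hw
      have e2 := h4 w' hw'
      rw [hwj] at e1
      rw [hwj'] at e2
      apply huj
      linarith
  let t : Fin n → Fin c → Option (Fin n) := fun i r =>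
    if h : star i r then some (hstar i r h).choose else none
  let σ : Fin n → Fin c → Bool := fun i r => decide (∃ w ∈ F r, w i = 1)
  have htn : ∀ i r, ¬ star i r → t i r = none := fun i r h => by simp [t, h]
  have hσ : ∀ i r, ¬ star i r → ∀ v ∈ F r, ∀ b, v i = sgn b → σ i r = b := by
    intro i r hs v hv b hb
    cases b with
    | true =>
      have : ∃ w ∈ F r, w i = 1 := ⟨v, hv, by rw [hb]; rfl⟩
      exact decide_eq_true this
    | false =>
      have : ¬ ∃ w ∈ F r, w i = 1 := by
        rintro ⟨w, hw, hwi⟩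
        exact hs ⟨w, hw, v, hv, hwi, by rw [hb]; rfl⟩
      exact decide_eq_false this
  have hstarcov : ∀ i l r, i ≠ l → ∀ v ∈ F r, v i ≠ 0 → v l ≠ 0 → star i r →
      t i r = some l ∧ ¬ star l r := by
    intro i l r hil v hv hvi hvl hs
    have h1 := (hstar i r hs).choose_spec
    have h2 : (hstar i r hs).choose = l := by
      have h3 := h1.2.1 v hv hvi
      have h4 := supp_two (hF r v hv) hil hvi hvl
      have h5 := mem_supp.2 h3
      rw [h4, Finset.mem_insert, Finset.mem_singleton] at h5
      rcases h5 with h5 | h5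
      · exact absurd h5 h1.1
      · exact h5
    constructor
    · simp only [t, hs, dif_pos, h2]
    · rw [h2] at h1
      exact h1.2.2
  have hsys : KSys.Sys σ t (univ : Finset (Fin n)) (univ : Finset (Fin c)) := by
    intro j _ k _ hjk s s'
    let v := vec j k s s'
    have hv : IsVec 2 v := vec_isVec hjk s s'
    let r := col ⟨v, hv⟩
    have hvF : v ∈ F r := ⟨hv, rfl⟩
    have hvj : v j = sgn s := by simp [v, vec]
    have hvk : v k = sgn s' := by simp [v, vec, hjk.symm]
    have hvj0 : v j ≠ 0 := by rw [hvj]; exact sgn_ne _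
    have hvk0 : v k ≠ 0 := by rw [hvk]; exact sgn_ne _
    refine ⟨r, mem_univ _, ?_⟩
    by_cases h1 : star j r
    · obtain ⟨e1, e2⟩ := hstarcov j k r hjk v hvF hvj0 hvk0 h1
      exact Or.inr (Or.inl ⟨e1, htn k r e2, hσ k r e2 v hvF s' hvk⟩)
    · by_cases h2 : star k r
      · obtain ⟨e1, e2⟩ := hstarcov k j r hjk.symm v hvF hvk0 hvj0 h2
        exact Or.inr (Or.inr ⟨e1, htn j r e2, hσ j r e2 v hvF s hvj⟩)
      · exact Or.inl ⟨htn j r h1, htn k r h2, hσ j r h1 v hvF s hvj, hσ k r h2 v hvF s' hvk⟩
  have := KSys.bound c univ univ σ t (by rw [Finset.card_univ, Fintype.card_fin]) hsys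
  rwa [Finset.card_univ, Fintype.card_fin] at this

/-- The colouring of `J±(n,2,-1)` by `2a+1` colours for `n = C(2a,a)`. -/
theorem J_colouring (a n : ℕ) (z : Fin (2 * a)) (hn : n = (2 * a).choose a) :
    ∃ col : {v : Fin n → ℤ // IsVec 2 v} → Fin (2 * a + 1),
      ∀ u v, ∑ i, u.1 i * v.1 i = -1 → col u ≠ col v := by
  classical
  have hcard : Fintype.card (Fin n) = Fintype.card {S : Finset (Fin (2 * a)) // S.card = a} := by
    rw [Fintype.card_fin, Fintype.card_finset_len, Fintype.card_fin, hn]
  let e := Fintype.equivOfCardEq hcard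
  let D : Fin n → Finset (Fin (2 * a)) := fun p => if z ∈ (e p).1 then (e p).1 else (e p).1ᶜ
  have hDz : ∀ p, z ∈ D p := by
    intro p
    simp only [D]
    split_ifs with h
    · exact h
    · rw [Finset.mem_compl]; exact h
  have hDc : ∀ p, (D p).card = a := by
    intro p
    simp only [D]
    split_ifs with h
    · exact (e p).2
    · rw [Finset.card_compl, (e p).2, Fintype.card_fin]
      omega
  have hDe : ∀ p, (e p).1 = D p ∨ (e p).1 = (D p)ᶜ := by
    intro p
    simp only [D]
    split_ifs with h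
    · exact Or.inl rfl
    · right; rw [compl_compl]
  have huniq : ∀ p q q', p ≠ q → p ≠ q' → D q = D p → D q' = D p → q = q' := by
    intro p q q' hpq hpq' h1 h2
    have inj : ∀ x y, (e x).1 = (e y).1 → x = y := fun x y h => e.injective (Subtype.ext h)
    rcases hDe p with a1 | a1 <;> rcases hDe q with a2 | a2 <;> rcases hDe q' with a3 | a3
    · exact absurd (inj p q (by rw [a1, a2, h1])) hpq
    · exact absurd (inj p q (by rw [a1, a2, h1])) hpq
    · exact absurd (inj p q' (by rw [a1, a3, h2])) hpq'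
    · exact inj q q' (by rw [a2, a3, h1, h2])
    · exact inj q q' (by rw [a2, a3, h1, h2])
    · exact absurd (inj p q' (by rw [a1, a3, h2])) hpq'
    · exact absurd (inj p q (by rw [a1, a2, h1])) hpq
    · exact absurd (inj p q (by rw [a1, a2, h1])) hpq
  let good : (Fin n → ℤ) → Fin (2 * a) → Prop := fun v r => ∀ p, v p ≠ 0 → (v p = 1 ↔ r ∈ D p)
  -- vectors not matched are good for some class
  have hgood : ∀ v, IsVec 2 v → (¬ ∃ r, good v r) → ∀ p q, p ≠ q → v p ≠ 0 → v q ≠ 0 →
      D q = D p := by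
    intro v hv hno p q hpq hvp hvq
    by_contra hD
    apply hno
    have hs := supp_two hv hpq hvp hvq
    have hcond : ∀ r, (v p = 1 ↔ r ∈ D p) → (v q = 1 ↔ r ∈ D q) → good v r := by
      intro r h1 h2 x hx
      have := mem_supp.2 hx
      rw [hs, Finset.mem_insert, Finset.mem_singleton] at this
      rcases this with rfl | rfl
      · exact h1
      · exact h2
    by_cases hp1 : v p = 1 <;> by_cases hq1 : v q = 1
    · exact ⟨z, hcond z (by simp [hp1, hDz]) (by simp [hq1, hDz])⟩
    · obtain ⟨r, hr1, hr2⟩ : ∃ r, r ∈ D p ∧ r ∉ D q := by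
        by_contra hcon
        push Not at hcon
        exact hD (Finset.eq_of_subset_of_card_le hcon (by rw [hDc, hDc])).symm
      exact ⟨r, hcond r (by simp [hp1, hr1]) (by simp [hq1, hr2])⟩
    · obtain ⟨r, hr1, hr2⟩ : ∃ r, r ∈ D q ∧ r ∉ D p := by
        by_contra hcon
        push Not at hcon
        exact hD (Finset.eq_of_subset_of_card_le hcon (by rw [hDc, hDc]))
      exact ⟨r, hcond r (by simp [hp1, hr2]) (by simp [hq1, hr1])⟩
    · obtain ⟨r, hr⟩ : ∃ r, r ∉ D p ∪ D q := by
        by_contra hcon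
        push Not at hcon
        have h1 : (univ : Finset (Fin (2 * a))).card ≤ (D p ∪ D q).card :=
          Finset.card_le_card fun x _ => hcon x
        have h2 := Finset.card_union_add_card_inter (D p) (D q)
        have h3 : 0 < (D p ∩ D q).card :=
          Finset.card_pos.2 ⟨z, Finset.mem_inter.2 ⟨hDz p, hDz q⟩⟩
        rw [hDc, hDc] at h2
        rw [Finset.card_univ, Fintype.card_fin] at h1
        omega
      rw [Finset.mem_union, not_or] at hr
      exact ⟨r, hcond r (by simp [hp1, hr.1]) (by simp [hq1, hr.2])⟩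
  let col : {v : Fin n → ℤ // IsVec 2 v} → Fin (2 * a + 1) := fun v =>
    if h : ∃ r, good v.1 r then (h.choose).castSucc else Fin.last _
  refine ⟨col, ?_⟩
  rintro ⟨u, hu⟩ ⟨v, hv⟩ hsum hc
  dsimp only at hsum
  -- two elements of the support
  obtain ⟨p, _, hup⟩ := exists_more hu ∅ (by simp)
  obtain ⟨q, hq, huq⟩ := exists_more hu {p} (by simp)
  rw [Finset.mem_singleton] at hq
  rw [sum_two hu (Ne.symm hq) hup huq] at hsum
  by_cases h1 : ∃ r, good u r
  · by_cases h2 : ∃ r, good v r
    · simp only [col, h1, h2, dif_pos] at hc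
      have hr : h1.choose = h2.choose := Fin.castSucc_injective _ hc
      have g1 := h1.choose_spec
      have g2 := h2.choose_spec
      rw [← hr] at g2
      have key : ∀ x, 0 ≤ u x * v x := by
        intro x
        by_cases hux : u x = 0
        · rw [hux, zero_mul]
        · by_cases hvx : v x = 0
          · rw [hvx, mul_zero]
          · have e1 := g1 x hux
            have e2 := g2 x hvx
            have e3 := e1.trans e2.symm
            rcases hu.1 x with a1 | a1 | a1
            · rcases hv.1 x with a2 | a2 | a2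
              · rw [a1, a2]; norm_num
              · exact absurd a2 hvx
              · have := e3.2 a2
                rw [a1] at this
                norm_num at this
            · exact absurd a1 hux
            · rw [e3.1 a1, a1]; norm_num
      have := key p
      have := key q
      linarith
    · simp only [col, h1, h2, dif_pos, dif_neg, not_false_iff] at hc
      exact absurd hc (Fin.castSucc_lt_last _).ne
  · by_cases h2 : ∃ r, good v r
    · simp only [col, h1, h2, dif_pos, dif_neg, not_false_iff] at hc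
      exact absurd hc.symm (Fin.castSucc_lt_last _).ne
    · have hpq := hgood u hu h1 p q (Ne.symm hq) hup huq
      -- `v` is nonzero at `p` iff at `q`
      have hvsym : ∀ x y, x ≠ y → D y = D x → v x ≠ 0 → v y ≠ 0 := by
        intro x y hxy hD hvx
        obtain ⟨w, hw, hvw⟩ := exists_more hv {x} (by simp)
        rw [Finset.mem_singleton] at hw
        have h3 := hgood v hv h2 x w (Ne.symm hw) hvx hvw
        have h4 := huniq x y w hxy (Ne.symm hw) hD h3
        rw [h4]
        exact hvw
      by_cases hvp : v p = 0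
      · have hvq : v q = 0 := by
          by_contra hvq
          exact hvsym q p hq hpq.symm hvq hvp
        rw [hvp, hvq] at hsum
        norm_num at hsum
      · have hvq := hvsym p q (Ne.symm hq) hpq hvp
        rcases hu.1 p with a1 | a1 | a1 <;> rcases hu.1 q with a2 | a2 | a2 <;>
          rcases hv.1 p with a3 | a3 | a3 <;> rcases hv.1 q with a4 | a4 | a4 <;>
          first
          | exact hup a1
          | exact huq a2
          | exact hvp a3
          | exact hvq a4
          | (rw [a1, a2, a3, a4] at hsum; norm_num at hsum)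

theorem pow_bound (a : ℕ) (ha : 14 ≤ a) : 18 * (a + 1) ^ 5 ≤ 4 ^ a := by
  induction a, ha using Nat.le_induction with
  | base => norm_num
  | succ a ha ih =>
    have h1 : (15 * (a + 1 + 1)) ^ 5 ≤ (16 * (a + 1)) ^ 5 := Nat.pow_le_pow_left (by omega) 5
    have h2 : 759375 * (a + 1 + 1) ^ 5 ≤ 1048576 * (a + 1) ^ 5 := by
      calc 759375 * (a + 1 + 1) ^ 5 = (15 * (a + 1 + 1)) ^ 5 := by rw [mul_pow]; norm_num
        _ ≤ (16 * (a + 1)) ^ 5 := h1
        _ = 1048576 * (a + 1) ^ 5 := by rw [mul_pow]; norm_num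
    rw [pow_succ 4 a]
    omega

theorem numeric (a : ℕ) (ha : 14 ≤ a) :
    2 * (2 * a + 1 + 1) ^ 3 + 2 + (2 * a + 1).choose ((2 * a + 1) / 2) < 2 * (2 * a).choose a := by
  have e1 : (2 * a + 1) / 2 = a := by omega
  rw [e1]
  set X := (2 * a + 1).choose a with hX
  set B := (2 * a).choose a with hB
  have h1 : (2 * a + 1) * B = X * (a + 1) := by
    rw [hX, hB, ← Nat.choose_symm_half]
    exact Nat.add_one_mul_choose_eq (2 * a) a
  have h2 : 4 ^ a < a * B := by
    have := Nat.four_pow_lt_mul_centralBinom a (by omega)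
    rwa [Nat.centralBinom] at this
  have h3 := pow_bound a ha
  by_contra hcon
  push Not at hcon
  have h4 : 2 * B * (a + 1) ≤ (2 * (2 * a + 1 + 1) ^ 3 + 2 + X) * (a + 1) :=
    Nat.mul_le_mul_right _ hcon
  have h5 : (2 * (2 * a + 1 + 1) ^ 3 + 2 + X) * (a + 1) =
      (2 * (2 * a + 1 + 1) ^ 3 + 2) * (a + 1) + (2 * a + 1) * B := by
    rw [h1]
    ring
  have h6 : B ≤ (2 * (2 * a + 1 + 1) ^ 3 + 2) * (a + 1) := by
    have : 2 * B * (a + 1) = (2 * a + 1) * B + B := by ring
    omega
  have h7 : a * B ≤ a * ((2 * (2 * a + 1 + 1) ^ 3 + 2) * (a + 1)) := Nat.mul_le_mul_left _ h6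
  have h8 : a * ((2 * (2 * a + 1 + 1) ^ 3 + 2) * (a + 1)) ≤ 18 * (a + 1) ^ 5 := by
    have e2 : 2 * (2 * a + 1 + 1) ^ 3 + 2 ≤ 18 * (a + 1) ^ 3 := by
      have : 2 * (2 * a + 1 + 1) ^ 3 = 16 * (a + 1) ^ 3 := by ring
      have h9 : 1 ≤ (a + 1) ^ 3 := Nat.one_le_pow _ _ (by omega)
      omega
    calc a * ((2 * (2 * a + 1 + 1) ^ 3 + 2) * (a + 1))
        ≤ (a + 1) * ((18 * (a + 1) ^ 3) * (a + 1)) :=
          Nat.mul_le_mul (by omega) (Nat.mul_le_mul_right _ e2)
      _ = 18 * (a + 1) ^ 5 := by ring
  omega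

end Q278.SJ2
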