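import Mathlib
import Pool.Agent.Q278.FixClique

/-! MP_e83c66_co: a graph on ten vertices without the fixed clique property, with a vertex whose
deletion and whose neighbourhood both have it. -/

namespace Pool.Agent.Q278.TenVertices

open Q278.FCP

/-- simplicial endomorphisms -/
def IsSimplicialEndo {V : Type} (G : SimpleGraph V) (f : V → V) : Prop :=
  ∀ x y, G.Adj x y → f x = f y ∨ G.Adj (f x) (f y)

/-- the fixed clique property: every simplicial endomorphism `f` satisfies `f[C] = C` for some
nonempty clique `C` -/
def FixedCliqueProperty {V : Type} (G : SimpleGraph V) : Prop :=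
  ∀ f : V → V, IsSimplicialEndo G f → ∃ C : Set V, C.Nonempty ∧ G.IsClique C ∧ f '' C = C

theorem adj_symm : ∀ u v : Fin 10, adj u v = adj v u := by decide +kernel

theorem adj_irrefl : ∀ u : Fin 10, adj u u = false := by decide +kernel

/-- the graph -/
def G : SimpleGraph (Fin 10) where
  Adj u v := adj u v = true
  symm := ⟨fun u v h => by rw [adj_symm]; exact h⟩
  loopless := ⟨fun u h => by
    have h1 := adj_irrefl u
    rw [h] at h1
    exact Bool.noConfusion h1⟩

instance : DecidableRel G.Adj := fun u v => inferInstanceAs (Decidable (adj u v = true))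

/-- the vertex set with the given bits -/
def bits (W : ℕ) : Set (Fin 10) := {w : Fin 10 | Nat.testBit W w = true}

theorem fcp_of_chk (W : ℕ) (hW9 : ∀ x, Nat.testBit W x = true → x < 9) (t : T)
    (hchk : chk W t [] = true) : FixedCliqueProperty (G.induce (bits W)) := by
  classical
  intro g hg
  by_contra hcon
  push Not at hcon
  have hlt : ∀ x, Nat.testBit W x = true → x < 10 := fun x hx => by
    have := hW9 x hx
    omega
  let el : ∀ x, Nat.testBit W x = true → bits W := fun x hx => ⟨⟨x, hlt x hx⟩, hx⟩
  let f : ℕ → ℕ := fun x => if h : Nat.testBit W x = true then (g (el x h)).1.1 else 0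
  have hf : ∀ x (hx : Nat.testBit W x = true), f x = (g (el x hx)).1.1 := by
    intro x hx
    simp only [f, hx, dif_pos]
  have hfW : ∀ x, Nat.testBit W x = true → Nat.testBit W (f x) = true := by
    intro x hx
    rw [hf x hx]
    exact (g (el x hx)).2
  have hel : ∀ x (hx : Nat.testBit W x = true), el (f x) (hfW x hx) = g (el x hx) := by
    intro x hx
    apply Subtype.ext
    apply Fin.ext
    exact hf x hx
  have hadj : ∀ x y (hx : Nat.testBit W x = true) (hy : Nat.testBit W y = true),
      (G.induce (bits W)).Adj (el x hx) (el y hy) ↔ adj x y = true := fun x y hx hy => Iff.rfl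
  refine chk_sound W f hfW hW9 ?_ ?_ ?_ ?_ t [] (fun p hp => by simp at hp) hchk
  · intro x y hx hy hxy
    rcases hg _ _ ((hadj x y hx hy).2 hxy) with h | h
    · left
      rw [hf x hx, hf y hy, h]
    · right
      rw [← hel x hx, ← hel y hy] at h
      exact (hadj _ _ _ _).1 h
  · intro x hx h
    refine hcon {el x hx} ⟨_, rfl⟩ ?_ ?_
    · intro a ha b hb hab
      rw [Set.mem_singleton_iff] at ha hb
      exact absurd (ha.trans hb.symm) hab
    · rw [Set.image_singleton, ← hel x hx]
      congr 1
      apply Subtype.ext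
      apply Fin.ext
      exact h
  · intro x hx h hxy
    have e1 : g (el x hx) = el (f x) (hfW x hx) := (hel x hx).symm
    have e2 : g (el (f x) (hfW x hx)) = el x hx := by
      rw [← hel (f x) (hfW x hx)]
      apply Subtype.ext
      apply Fin.ext
      exact h
    have hA := (hadj x (f x) hx (hfW x hx)).2 hxy
    refine hcon {el x hx, el (f x) (hfW x hx)} ⟨el x hx, Or.inl rfl⟩ ?_ ?_
    · rw [SimpleGraph.isClique_iff, Set.pairwise_pair]
      exact fun _ => ⟨hA, hA.symm⟩
    · rw [Set.image_pair, e1, e2, Set.pair_comm]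
  · rintro x hx h ⟨h1, h2, h3⟩
    have hx2 := hfW x hx
    have hx3 := hfW _ hx2
    have e1 : g (el x hx) = el (f x) hx2 := (hel x hx).symm
    have e2 : g (el (f x) hx2) = el (f (f x)) hx3 := (hel (f x) hx2).symm
    have e3 : g (el (f (f x)) hx3) = el x hx := by
      rw [← hel (f (f x)) hx3]
      apply Subtype.ext
      apply Fin.ext
      exact h
    have hA1 := (hadj _ _ hx hx2).2 h1
    have hA2 := (hadj _ _ hx2 hx3).2 h2
    have hA3 := (hadj _ _ hx hx3).2 h3
    refine hcon {el x hx, el (f x) hx2, el (f (f x)) hx3} ⟨el x hx, Or.inl rfl⟩ ?_ ?_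
    · intro a ha b hb hab
      simp only [Set.mem_insert_iff, Set.mem_singleton_iff] at ha hb
      rcases ha with rfl | rfl | rfl <;> rcases hb with rfl | rfl | rfl
      · exact absurd rfl hab
      · exact hA1
      · exact hA3
      · exact hA1.symm
      · exact absurd rfl hab
      · exact hA2
      · exact hA3.symm
      · exact hA2.symm
      · exact absurd rfl hab
    · rw [Set.image_insert_eq, Set.image_pair, e1, e2, e3]
      ext z
      simp only [Set.mem_insert_iff, Set.mem_singleton_iff]
      tauto

/-- an endomorphism without fixed clique -/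
def φ : Fin 10 → Fin 10 := ![2, 7, 4, 9, 6, 1, 0, 3, 0, 1]

theorem φ_endo : ∀ x y : Fin 10, G.Adj x y → φ x = φ y ∨ G.Adj (φ x) (φ y) := by
  decide +kernel

theorem φ_orbit : ∀ x : Fin 10, ∃ i j : Fin 12, φ^[i] x ≠ φ^[j] x ∧ ¬ G.Adj (φ^[i] x) (φ^[j] x) := by
  decide +kernel

theorem not_fcp : ¬ FixedCliqueProperty G := by
  intro h
  obtain ⟨C, ⟨x, hx⟩, hC, himg⟩ := h φ φ_endo
  have hmem : ∀ i : ℕ, φ^[i] x ∈ C := by
    intro i
    induction i with
    | zero => exact hx
    | succ i ih =>
      rw [Function.iterate_succ_apply', ← himg]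
      exact ⟨_, ih, rfl⟩
  obtain ⟨i, j, hij, hadj⟩ := φ_orbit x
  exact hadj (hC (hmem i) (hmem j) hij)

theorem lt_nine (W : ℕ) (hW : W < 2 ^ 9) : ∀ x, Nat.testBit W x = true → x < 9 := by
  intro x hx
  by_contra h
  push Not at h
  have h1 : W < 2 ^ x := lt_of_lt_of_le hW (Nat.pow_le_pow_right (by norm_num) h)
  rw [Nat.testBit_lt_two_pow h1] at hx
  exact Bool.noConfusion hx

/-- **Q1 has a negative answer.** There is a graph on ten vertices without the fixed clique
property which has a vertex `v` such that the graph induced by the neighbours of `v` and the graph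
induced by all vertices other than `v` both have the fixed clique property. -/
theorem result :
    (∃ (G : SimpleGraph (Fin 10)) (v : Fin 10),
      FixedCliqueProperty (G.induce (G.neighborSet v)) ∧ FixedCliqueProperty (G.induce {v}ᶜ) ∧
        ¬ FixedCliqueProperty G) ∧
    ¬ ∀ (V : Type) (_ : Finite V) (G : SimpleGraph V) (v : V),
      FixedCliqueProperty (G.induce (G.neighborSet v)) → FixedCliqueProperty (G.induce {v}ᶜ) →
        FixedCliqueProperty G := by
  have h : FixedCliqueProperty (G.induce (G.neighborSet 9)) ∧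
      FixedCliqueProperty (G.induce {(9 : Fin 10)}ᶜ) ∧ ¬ FixedCliqueProperty G := by
    refine ⟨?_, ?_, not_fcp⟩
    · have h1 : G.neighborSet 9 = bits 485 := by
        ext w
        have : ∀ w : Fin 10, (adj 9 w = true ↔ Nat.testBit 485 w = true) := by decide +kernel
        exact this w
      rw [h1]
      exact fcp_of_chk 485 (lt_nine 485 (by norm_num)) t2 chk_t2
    · have h1 : ({(9 : Fin 10)}ᶜ : Set (Fin 10)) = bits 511 := by
        ext w
        have : ∀ w : Fin 10, (w ≠ 9 ↔ Nat.testBit 511 w = true) := by decide +kernel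
        exact this w
      rw [h1]
      exact fcp_of_chk 511 (lt_nine 511 (by norm_num)) t1 chk_t1
  refine ⟨⟨G, 9, h⟩, ?_⟩
  intro hall
  exact h.2.2 (hall (Fin 10) inferInstance G 9 h.1 h.2.1)

end Pool.Agent.Q278.TenVertices
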