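import Mathlib

/-! The 12-vertex graph `W` (complement of the circulant `C_12(2,3)`) used for MP_a38e10. -/

namespace Q278.WG

open Finset

/-- adjacency in the circulant graph `C_12(2,3)` -/
def hadj (x y : Fin 12) : Bool :=
  let d := (x.1 + 12 - y.1) % 12
  d == 2 || d == 3 || d == 9 || d == 10

/-- the complement of `C_12(2,3)` -/
def W : SimpleGraph (Fin 12) where
  Adj x y := x ≠ y ∧ hadj x y = false
  symm := ⟨by decide +kernel⟩
  loopless := ⟨fun _ h => h.1 rfl⟩

instance : DecidableRel W.Adj := fun x y => inferInstanceAs (Decidable (x ≠ y ∧ hadj x y = false))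

theorem tri : ∀ x y z : Fin 12, hadj x y = true → hadj y z = true → hadj x z = true → False := by
  decide +kernel

/-- adjacency in `W` as a Boolean -/
def wadj (x y : Fin 12) : Bool := !(x == y) && !(hadj x y)

theorem wadj_of {x y : Fin 12} (h : W.Adj x y) : wadj x y = true := by
  have h1 : (x == y) = false := by
    rw [beq_eq_false_iff_ne]
    exact h.1
  rw [wadj, h1, h.2]
  rfl

/-- all vertices of the list, with a Boolean test -/
def allV (P : Fin 12 → Bool) : Bool := (List.finRange 12).all P

theorem allV_iff (P : Fin 12 → Bool) : allV P = true ↔ ∀ v, P v = true := by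
  simp [allV, List.all_eq_true]

theorem no_five_bool : (allV fun a => allV fun b => !(wadj a b) || allV fun c =>
    !(wadj a c && wadj b c) || allV fun d => !(wadj a d && (wadj b d && wadj c d)) || allV fun e =>
    !(wadj a e && (wadj b e && (wadj c e && wadj d e)))) = true := by
  decide +kernel

theorem no_five (a b c d e : Fin 12) (h1 : W.Adj a b) (h2 : W.Adj a c) (h3 : W.Adj b c)
    (h4 : W.Adj a d) (h5 : W.Adj b d) (h6 : W.Adj c d) (h7 : W.Adj a e) (h8 : W.Adj b e)
    (h9 : W.Adj c e) (h10 : W.Adj d e) : False := by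
  have h := no_five_bool
  rw [allV_iff] at h
  have h := h a
  rw [allV_iff] at h
  have h := h b
  rw [wadj_of h1, Bool.not_true, Bool.false_or, allV_iff] at h
  have h := h c
  rw [wadj_of h2, wadj_of h3, Bool.and_self, Bool.not_true, Bool.false_or, allV_iff] at h
  have h := h d
  rw [wadj_of h4, wadj_of h5, wadj_of h6, Bool.and_self, Bool.and_self, Bool.not_true,
    Bool.false_or, allV_iff] at h
  have h := h e
  rw [wadj_of h7, wadj_of h8, wadj_of h9, wadj_of h10] at h
  simp at h

theorem cliqueFree_five (K : Finset (Fin 12)) (hK : K.card = 5)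
    (h : ∀ x ∈ K, ∀ y ∈ K, x ≠ y → W.Adj x y) : False := by
  let f := (K.equivFinOfCardEq hK).symm
  have hf : ∀ i j : Fin 5, i ≠ j → W.Adj (f i).1 (f j).1 := by
    intro i j hij
    exact h _ (f i).2 _ (f j).2 fun h => hij (f.injective (Subtype.ext h))
  exact no_five (f 0).1 (f 1).1 (f 2).1 (f 3).1 (f 4).1 (hf _ _ (by decide)) (hf _ _ (by decide))
    (hf _ _ (by decide)) (hf _ _ (by decide)) (hf _ _ (by decide)) (hf _ _ (by decide))
    (hf _ _ (by decide)) (hf _ _ (by decide)) (hf _ _ (by decide)) (hf _ _ (by decide))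

/-- no clique with four vertices inside `S` -/
def K4free (S : Finset (Fin 12)) : Prop := ∀ K ⊆ S, K.card = 4 →
  ¬ (∀ x ∈ K, ∀ y ∈ K, x ≠ y → W.Adj x y)

/-- no clique with three vertices inside `S` -/
def K3free (S : Finset (Fin 12)) : Prop := ∀ K ⊆ S, K.card = 3 →
  ¬ (∀ x ∈ K, ∀ y ∈ K, x ≠ y → W.Adj x y)

theorem K3free.mono {S S' : Finset (Fin 12)} (h : K3free S) (h' : S' ⊆ S) : K3free S' :=
  fun K hK => h K (hK.trans h')

theorem K3free.k4 {S : Finset (Fin 12)} (h : K3free S) : K4free S := by
  intro K hK hc hcl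
  obtain ⟨K', hK', hc'⟩ := Finset.exists_subset_card_eq (s := K) (n := 3) (by omega)
  exact h K' (hK'.trans hK) hc' fun x hx y hy => hcl x (hK' hx) y (hK' hy)

theorem k3free_of_card {S : Finset (Fin 12)} (h : S.card ≤ 2) : K3free S := by
  intro K hK hc
  have := Finset.card_le_card hK
  omega

theorem k4free_of_card {S : Finset (Fin 12)} (h : S.card ≤ 3) : K4free S := by
  intro K hK hc
  have := Finset.card_le_card hK
  omega

/-- nine six-element sets without `K_4` -/
def Ts : List (List (Fin 12)) :=
  [[0, 1, 4, 5, 8, 9], [1, 2, 5, 6, 9, 10], [0, 2, 4, 6, 8, 10], [0, 1, 2, 3, 4, 8],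
   [0, 3, 4, 5, 7, 8], [0, 1, 2, 4, 5, 9], [1, 2, 3, 5, 7, 9], [0, 2, 4, 7, 8, 9],
   [0, 4, 5, 6, 8, 10]]

theorem Ts_card : ∀ T ∈ Ts, T.toFinset.card = 6 := by
  decide +kernel

theorem Ts_bool : (Ts.all fun T => T.all fun a => T.all fun b => !(wadj a b) || T.all fun c =>
    !(wadj a c && wadj b c) || T.all fun d => !(wadj a d && (wadj b d && wadj c d))) = true := by
  decide +kernel

theorem Ts_k4 (T : List (Fin 12)) (hT : T ∈ Ts) (K : Finset (Fin 12)) (hKT : K ⊆ T.toFinset)
    (hK : K.card = 4) (h : ∀ x ∈ K, ∀ y ∈ K, x ≠ y → W.Adj x y) : False := by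
  let f := (K.equivFinOfCardEq hK).symm
  have hf : ∀ i j : Fin 4, i ≠ j → W.Adj (f i).1 (f j).1 := by
    intro i j hij
    exact h _ (f i).2 _ (f j).2 fun h => hij (f.injective (Subtype.ext h))
  have hm : ∀ i : Fin 4, (f i).1 ∈ T := fun i => List.mem_toFinset.1 (hKT (f i).2)
  have h := Ts_bool
  rw [List.all_eq_true] at h
  have h := h T hT
  rw [List.all_eq_true] at h
  have h := h _ (hm 0)
  rw [List.all_eq_true] at h
  have h := h _ (hm 1)
  rw [wadj_of (hf 0 1 (by decide)), Bool.not_true, Bool.false_or, List.all_eq_true] at h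
  have h := h _ (hm 2)
  rw [wadj_of (hf 0 2 (by decide)), wadj_of (hf 1 2 (by decide)), Bool.and_self, Bool.not_true,
    Bool.false_or, List.all_eq_true] at h
  have h := h _ (hm 3)
  rw [wadj_of (hf 0 3 (by decide)), wadj_of (hf 1 3 (by decide)),
    wadj_of (hf 2 3 (by decide))] at h
  simp at h

/-- search through all perfect matchings of `C_12(2,3)` -/
def search : ℕ → List (Fin 12 × Fin 12) → Bool
  | 0, M => Ts.any fun T => T.all fun v => M.any fun e =>
      (e.1 == v && !T.contains e.2) || (e.2 == v && !T.contains e.1)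
  | n + 1, M =>
    match (List.finRange 12).find? (fun v => !(M.any fun e => e.1 == v || e.2 == v)) with
    | none => false
    | some v => (List.finRange 12).all fun u =>
        !(hadj v u) || (M.any fun e => e.1 == u || e.2 == u) || search n ((v, u) :: M)

theorem search_true : search 6 [] = true := by
  decide +kernel

theorem search_sound (p : Fin 12 → Fin 12) (hp : ∀ v, p (p v) = v)
    (hadj' : ∀ v, hadj v (p v) = true) (n : ℕ) : ∀ M : List (Fin 12 × Fin 12),
    (∀ e ∈ M, p e.1 = e.2) → search n M = true → ∃ T ∈ Ts, ∀ v ∈ T, p v ∉ T := by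
  induction n with
  | zero =>
    intro M hM h
    simp only [search, List.any_eq_true, List.all_eq_true] at h
    obtain ⟨T, hT, h⟩ := h
    refine ⟨T, hT, fun v hv => ?_⟩
    obtain ⟨e, he, h⟩ := h v hv
    have hpe := hM e he
    simp only [Bool.or_eq_true, Bool.and_eq_true, beq_iff_eq, Bool.not_eq_true',
      List.contains_eq_mem, decide_eq_false_iff_not] at h
    rcases h with ⟨rfl, h⟩ | ⟨rfl, h⟩
    · rw [hpe]
      exact h
    · rw [← hpe, hp]
      exact h
  | succ n ih =>
    intro M hM h
    simp only [search] at h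
    split at h
    · exact absurd h (by simp)
    · rename_i v hv
      have hv' := List.find?_some hv
      simp only [Bool.not_eq_true', List.any_eq_false, Bool.or_eq_true, beq_iff_eq,
        not_or] at hv'
      rw [List.all_eq_true] at h
      have h1 := h (p v) (List.mem_finRange _)
      rw [hadj' v] at h1
      have hun : (M.any fun e => e.1 == p v || e.2 == p v) = false := by
        rw [List.any_eq_false]
        intro e he
        simp only [Bool.or_eq_true, beq_iff_eq, not_or]
        constructor
        · intro h2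
          have h3 := hM e he
          rw [h2, hp] at h3
          exact (hv' e he).2 h3.symm
        · intro h2
          have h3 := hM e he
          rw [h2] at h3
          have h4 := congrArg p h3
          rw [hp, hp] at h4
          exact (hv' e he).1 h4
      rw [hun] at h1
      simp only [Bool.not_true, Bool.or_self, Bool.false_or] at h1
      refine ih _ ?_ h1
      intro e he
      rcases List.mem_cons.1 he with rfl | he
      · rfl
      · exact hM e he

/-- every colour class of a proper colouring of `W` has at most two vertices -/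
theorem class_le_two {ι : Type} [DecidableEq ι] (c : Fin 12 → ι)
    (hc : ∀ x y, W.Adj x y → c x ≠ c y) (i : ι) :
    (univ.filter fun v => c v = i).card ≤ 2 := by
  by_contra h
  push Not at h
  obtain ⟨x, y, z, hx, hy, hz, hxy, hxz, hyz⟩ := Finset.two_lt_card_iff.1 h
  simp only [mem_filter, mem_univ, true_and] at hx hy hz
  have key : ∀ u v, c u = i → c v = i → u ≠ v → hadj u v = true := by
    intro u v hu hv huv
    by_contra hT
    rw [Bool.not_eq_true] at hT
    exact hc u v ⟨huv, hT⟩ (hu.trans hv.symm)
  exact tri x y z (key x y hx hy hxy) (key y z hy hz hyz) (key x z hx hz hxz)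

theorem card_le_two_mul {ι : Type} [DecidableEq ι] (c : Fin 12 → ι)
    (hc : ∀ x y, W.Adj x y → c x ≠ c y) (S : Finset (Fin 12)) :
    S.card ≤ 2 * (S.image c).card := by
  apply Finset.card_le_mul_card_image
  intro i _
  refine (Finset.card_le_card ?_).trans (class_le_two c hc i)
  intro x hx
  rw [mem_filter] at hx ⊢
  exact ⟨mem_univ _, hx.2⟩

/-- every proper colouring with exactly six colours has a rainbow `K_4`-free transversal -/
theorem exists_transversal {ι : Type} [DecidableEq ι] (c : Fin 12 → ι)
    (hc : ∀ x y, W.Adj x y → c x ≠ c y) (h6 : (univ.image c).card = 6) :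
    ∃ T : Finset (Fin 12), K4free T ∧ T.image c = univ.image c := by
  -- every class has exactly two elements
  have h2 : ∀ i ∈ univ.image c, (univ.filter fun v => c v = i).card = 2 := by
    have hsum : ∑ i ∈ univ.image c, (univ.filter fun v => c v = i).card = 12 := by
      rw [← Finset.card_eq_sum_card_image c univ]
      simp
    by_contra hcon
    push Not at hcon
    obtain ⟨i, hi, hne⟩ := hcon
    have hlt : ∑ i ∈ univ.image c, (univ.filter fun v => c v = i).card
        < ∑ _i ∈ univ.image c, 2 :=
      Finset.sum_lt_sum (fun j _ => class_le_two c hc j)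
        ⟨i, hi, lt_of_le_of_ne (class_le_two c hc i) hne⟩
    rw [hsum, Finset.sum_const, h6] at hlt
    simp at hlt
  have hex : ∀ v, ∃ u, u ≠ v ∧ c u = c v := by
    intro v
    have h := h2 (c v) (mem_image_of_mem c (mem_univ v))
    obtain ⟨a, b, hab, he⟩ := Finset.card_eq_two.1 h
    have ha : c a = c v := by
      have : a ∈ (univ.filter fun w => c w = c v) := by
        rw [he]
        simp
      exact (mem_filter.1 this).2
    have hb : c b = c v := by
      have : b ∈ (univ.filter fun w => c w = c v) := by
        rw [he]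
        simp
      exact (mem_filter.1 this).2
    by_cases hav : a = v
    · exact ⟨b, fun h => hab (hav.trans h.symm), hb⟩
    · exact ⟨a, hav, ha⟩
  choose p hp1 hp2 using hex
  have huniq : ∀ u v, u ≠ v → c u = c v → u = p v := by
    intro u v huv hcuv
    by_contra hne
    have h := class_le_two c hc (c v)
    have h3 : ({u, p v, v} : Finset (Fin 12)).card ≤ 2 := by
      refine le_trans (Finset.card_le_card ?_) h
      intro w hw
      simp only [mem_insert, mem_singleton] at hw
      rw [mem_filter]
      rcases hw with rfl | rfl | rfl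
      · exact ⟨mem_univ _, hcuv⟩
      · exact ⟨mem_univ _, hp2 _⟩
      · exact ⟨mem_univ _, rfl⟩
    rw [Finset.card_eq_three.2 ⟨u, p v, v, hne, huv, hp1 v, rfl⟩] at h3
    omega
  have hpp : ∀ v, p (p v) = v := fun v => (huniq v (p v) (hp1 v).symm (hp2 v).symm).symm
  have hadj' : ∀ v, hadj v (p v) = true := by
    intro v
    by_contra hT
    rw [Bool.not_eq_true] at hT
    exact hc v (p v) ⟨(hp1 v).symm, hT⟩ (hp2 v).symm
  obtain ⟨T, hT, hTp⟩ := search_sound p hpp hadj' 6 [] (by simp) search_true
  refine ⟨T.toFinset, ?_, ?_⟩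
  · intro K hK hK4
    exact Ts_k4 T hT K hK hK4
  · apply Finset.eq_of_subset_of_card_le
    · exact Finset.image_subset_image (Finset.subset_univ _)
    · rw [h6, Finset.card_image_of_injOn, Ts_card T hT]
      intro u hu v hv huv
      by_contra hne
      have := huniq u v hne huv
      have hu' : u ∈ T := by simpa using hu
      have hv' : v ∈ T := by simpa using hv
      exact hTp v hv' (this ▸ hu')

/-- partition into three cliques -/
def part3 : Fin 12 → Fin 3 := ![0, 1, 1, 2, 2, 0, 0, 1, 1, 2, 2, 0]

theorem part3_clique : ∀ x y : Fin 12, part3 x = part3 y → x ≠ y → W.Adj x y := by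
  decide +kernel

/-- a colouring with six colours -/
def col6 : Fin 12 → Fin 6 := ![0, 1, 0, 1, 2, 3, 2, 3, 4, 5, 4, 5]

theorem col6_proper : ∀ x y : Fin 12, W.Adj x y → col6 x ≠ col6 y := by
  decide +kernel

end Q278.WG
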