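import Pool.Agent.Q278.WGraph

/-! The counting argument: there is no selection with `m + 5` colours. -/

namespace Q278.WG

open Finset

/-- hypotheses on a selection of colours `f i S` (level `i`, `K_4`-free set `S`) -/
structure Sel (m t : ℕ) (c : Fin 12 → Fin t) (f : Fin m → Finset (Fin 12) → Fin t) : Prop where
  p1 : ∀ i S, K4free S → ∀ w ∈ S, f i S ≠ c w
  p2 : ∀ i j S S', i ≠ j → K4free S → K4free S' → K3free (S ∩ S') → f i S ≠ f j S'

open Classical in
/-- colours used by the `K_3`-free sets at level `i` -/
noncomputable def A {m t : ℕ} (f : Fin m → Finset (Fin 12) → Fin t) (i : Fin m) :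
    Finset (Fin t) := (univ.filter fun S => K3free S).image (f i)

section

variable {m t : ℕ} {c : Fin 12 → Fin t} {f : Fin m → Finset (Fin 12) → Fin t}

theorem mem_A (i : Fin m) (S : Finset (Fin 12)) (hS : K3free S) : f i S ∈ A f i := by
  classical
  exact mem_image_of_mem _ (mem_filter.2 ⟨mem_univ _, hS⟩)

theorem not_mem_A (h : Sel m t c f) {i j : Fin m} (hij : i ≠ j) (S : Finset (Fin 12))
    (hS : K4free S) : f i S ∉ A f j := by
  classical
  intro hmem
  obtain ⟨S', hS', he⟩ := Finset.mem_image.1 hmem
  have hS'' : K3free S' := (mem_filter.1 hS').2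
  exact h.p2 i j S S' hij hS hS''.k4 (hS''.mono inter_subset_right) he.symm

theorem A_disj (h : Sel m t c f) {i j : Fin m} (hij : i ≠ j) : Disjoint (A f i) (A f j) := by
  classical
  rw [Finset.disjoint_left]
  intro x hx hx'
  obtain ⟨S, hS, rfl⟩ := Finset.mem_image.1 hx
  exact not_mem_A h hij S (mem_filter.1 hS).2.k4 hx'

end

theorem empty_k3 : K3free ∅ := k3free_of_card (by simp)

theorem no_sel {m : ℕ} {c : Fin 12 → Fin (m + 5)} {f : Fin m → Finset (Fin 12) → Fin (m + 5)}
    (hc : ∀ x y, W.Adj x y → c x ≠ c y) (h : Sel m (m + 5) c f) : False := by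
  classical
  obtain ⟨C, hC⟩ : ∃ C, C = univ.image c := ⟨_, rfl⟩
  obtain ⟨Z, hZ⟩ : ∃ Z, Z = univ \ (univ.biUnion (A f)) := ⟨_, rfl⟩
  have hsum : ∑ i, (A f i).card + Z.card = m + 5 := by
    have h1 : (univ.biUnion (A f)).card = ∑ i, (A f i).card :=
      Finset.card_biUnion fun i _ j _ hij => A_disj h hij
    have h2 := Finset.card_sdiff_add_card_eq_card (Finset.subset_univ (univ.biUnion (A f)))
    rw [Finset.card_univ, Fintype.card_fin, ← hZ] at h2
    omega
  -- representatives
  have hrep : ∀ x : Fin (m + 5), ∃ w : Fin 12, x ∈ C → c w = x := by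
    intro x
    by_cases hx : x ∈ C
    · rw [hC] at hx
      obtain ⟨w, -, hw⟩ := Finset.mem_image.1 hx
      exact ⟨w, fun _ => hw⟩
    · exact ⟨0, fun h => absurd h hx⟩
  choose g hg using hrep
  let N := univ.filter fun i => A f i ⊆ C
  have hN : ∀ i, i ∈ N ↔ A f i ⊆ C := fun i => by simp [N]
  let S : Fin m → Finset (Fin 12) := fun i => (A f i).image g
  have hScard : ∀ i, (S i).card ≤ (A f i).card := fun i => Finset.card_image_le
  -- the colour `f i (S i)` avoids `A f i`
  have hSnot : ∀ i ∈ N, K4free (S i) → f i (S i) ∉ A f i := by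
    intro i hi hk hmem
    have h1 : g (f i (S i)) ∈ S i := mem_image_of_mem g hmem
    exact h.p1 i (S i) hk _ h1 (hg _ ((hN i).1 hi hmem)).symm
  have h1 : ∀ i, 1 ≤ (A f i).card := fun i => Finset.card_pos.2 ⟨_, mem_A i ∅ empty_k3⟩
  have h3 : ∀ i ∈ N, 3 ≤ (A f i).card := by
    intro i hi
    by_contra hlt
    have hk : K3free (S i) := k3free_of_card (by have := hScard i; omega)
    exact hSnot i hi hk.k4 (mem_A i _ hk)
  have hNcard : N.card ≤ 2 := by
    have h4 : ∑ i, (1 + if i ∈ N then 2 else 0) ≤ ∑ i, (A f i).card := by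
      apply Finset.sum_le_sum
      intro i _
      by_cases hi : i ∈ N
      · rw [if_pos hi]
        exact h3 i hi
      · rw [if_neg hi]
        exact h1 i
    rw [Finset.sum_add_distrib, Finset.sum_const, Finset.card_univ, Fintype.card_fin,
      ← Finset.sum_filter, Finset.sum_const] at h4
    have h5 : (univ.filter fun i => i ∈ N) = N := by
      ext i
      simp
    rw [h5] at h4
    simp only [smul_eq_mul, mul_one] at h4
    omega
  have hr : 6 ≤ C.card := by
    have := card_le_two_mul c hc univ
    rw [Finset.card_univ, Fintype.card_fin, ← hC] at this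
    omega
  -- fresh colours
  obtain ⟨F, hF⟩ : ∃ F, F = univ \ C := ⟨_, rfl⟩
  have hFcard : F.card + C.card = m + 5 := by
    have h2 := Finset.card_sdiff_add_card_eq_card (Finset.subset_univ C)
    rw [Finset.card_univ, Fintype.card_fin, ← hF] at h2
    exact h2
  have hfresh : ∀ i, ∃ x, i ∉ N → x ∈ A f i ∧ x ∈ F := by
    intro i
    by_cases hi : i ∈ N
    · exact ⟨c 0, fun h => absurd hi h⟩
    · have h6 : ¬ A f i ⊆ C := fun h => hi ((hN i).2 h)
      rw [Finset.not_subset] at h6
      obtain ⟨x, hx, hx'⟩ := h6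
      exact ⟨x, fun _ => ⟨hx, hF ▸ mem_sdiff.2 ⟨mem_univ _, hx'⟩⟩⟩
  choose x hx using hfresh
  have hxinj : Set.InjOn x ((univ \ N : Finset (Fin m)) : Set (Fin m)) := by
    intro i hi j hj hij
    by_contra hne
    have hi' := hx i (mem_sdiff.1 hi).2
    have hj' := hx j (mem_sdiff.1 hj).2
    exact (Finset.disjoint_left.1 (A_disj h hne)) hi'.1 (hij ▸ hj'.1)
  have himg : (univ \ N).image x ⊆ F := by
    intro y hy
    obtain ⟨i, hi, rfl⟩ := Finset.mem_image.1 hy
    exact (hx i (mem_sdiff.1 hi).2).2
  have hcardimg : ((univ \ N).image x).card + N.card = m := by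
    rw [Finset.card_image_of_injOn hxinj]
    have h2 := Finset.card_sdiff_add_card_eq_card (Finset.subset_univ N)
    rw [Finset.card_univ, Fintype.card_fin] at h2
    exact h2
  have hle := Finset.card_le_card himg
  have hNne : N.card ≠ 0 := by omega
  have hN12 : N.card = 1 ∨ N.card = 2 := by omega
  rcases hN12 with hN1 | hN2
  · obtain ⟨i0, hi0⟩ := Finset.card_eq_one.1 hN1
    have hC6 : (univ.image c).card = 6 := by
      rw [← hC]
      omega
    obtain ⟨T, hT, hTc⟩ := exists_transversal c hc hC6
    have hFeq : (univ \ N).image x = F := Finset.eq_of_subset_of_card_le himg (by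
      rw [← hC] at hC6
      omega)
    have hfT : f i0 T ∈ F := by
      rw [hF, mem_sdiff]
      refine ⟨mem_univ _, fun hmem => ?_⟩
      rw [hC, ← hTc] at hmem
      obtain ⟨w, hw, hwe⟩ := Finset.mem_image.1 hmem
      exact h.p1 i0 T hT w hw hwe.symm
    rw [← hFeq] at hfT
    obtain ⟨i, hi, hie⟩ := Finset.mem_image.1 hfT
    have hiN := (mem_sdiff.1 hi).2
    have hne : i0 ≠ i := by
      rintro rfl
      exact hiN (by rw [hi0]; simp)
    refine not_mem_A h hne T hT ?_
    rw [← hie]
    exact (hx i hiN).1
  · obtain ⟨i, j, hij, hNij⟩ := Finset.card_eq_two.1 hN2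
    have hiN : i ∈ N := by rw [hNij]; simp
    have hjN : j ∈ N := by rw [hNij]; simp
    have hai := h3 i hiN
    have haj := h3 j hjN
    have hsum2 : ((A f i).card - 1) + ((A f j).card - 1) + m ≤ ∑ k, (A f k).card := by
      have h4 : ∑ k, (1 + ((if k = i then (A f i).card - 1 else 0)
          + (if k = j then (A f j).card - 1 else 0))) ≤ ∑ k, (A f k).card := by
        apply Finset.sum_le_sum
        intro k _
        by_cases hki : k = i
        · subst hki
          rw [if_pos rfl, if_neg hij]
          have := h1 k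
          omega
        · by_cases hkj : k = j
          · subst hkj
            rw [if_pos rfl, if_neg hki]
            have := h1 k
            omega
          · rw [if_neg hki, if_neg hkj]
            have := h1 k
            omega
      rw [Finset.sum_add_distrib, Finset.sum_add_distrib, Finset.sum_ite_eq',
        Finset.sum_ite_eq', if_pos (mem_univ _), if_pos (mem_univ _), Finset.sum_const,
        Finset.card_univ, Fintype.card_fin] at h4
      simp only [smul_eq_mul, mul_one] at h4
      omega
    have hZmem : ∀ l ∈ N, (A f l).card = 3 → f l (S l) ∈ Z := by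
      intro l hl h3l
      have hk : K4free (S l) := k4free_of_card (by have := hScard l; omega)
      rw [hZ, mem_sdiff]
      refine ⟨mem_univ _, fun hmem => ?_⟩
      obtain ⟨k, -, hk'⟩ := Finset.mem_biUnion.1 hmem
      by_cases hlk : l = k
      · subst hlk
        exact hSnot l hl hk hk'
      · exact not_mem_A h hlk (S l) hk hk'
    by_cases hi3 : (A f i).card = 3
    · have hzi := hZmem i hiN hi3
      have hZpos : 0 < Z.card := Finset.card_pos.2 ⟨_, hzi⟩
      have hj3 : (A f j).card = 3 := by omega
      have hzj := hZmem j hjN hj3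
      have hZ1 : Z.card ≤ 1 := by omega
      have heq : f i (S i) = f j (S j) := Finset.card_le_one.1 hZ1 _ hzi _ hzj
      have hdisj : S i ∩ S j = ∅ := by
        rw [← Finset.disjoint_iff_inter_eq_empty, Finset.disjoint_left]
        intro w hw hw'
        obtain ⟨a, ha, rfl⟩ := Finset.mem_image.1 hw
        obtain ⟨b, hb, hab⟩ := Finset.mem_image.1 hw'
        have h5 : c (g a) = a := hg a ((hN i).1 hiN ha)
        have h6 : c (g b) = b := hg b ((hN j).1 hjN hb)
        have h7 : a = b := by rw [← h5, ← h6, hab]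
        subst h7
        exact (Finset.disjoint_left.1 (A_disj h hij)) ha hb
      have hki : K4free (S i) := k4free_of_card (by have := hScard i; omega)
      have hkj : K4free (S j) := k4free_of_card (by have := hScard j; omega)
      refine h.p2 i j (S i) (S j) hij hki hkj ?_ heq
      rw [hdisj]
      exact empty_k3
    · have hj3 : (A f j).card = 3 := by omega
      have hzj := hZmem j hjN hj3
      have hZpos : 0 < Z.card := Finset.card_pos.2 ⟨_, hzj⟩
      omega

end Q278.WG
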